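import Pool.Agent.Q128.CC.Ana
import Pool.Agent.Q85.VL.Defs

/-!
Project VL (helper85), part VL-10: analytic continuation along the surface of a cube, the statement
`StmAnaS`.

Smallness near a good point propagates to the cube with half of the radius of analyticity
(`expand`), then along chains of good points (`chain`); two points of the surface are joined, via
a third point, by radial projections of two segments which stay away from the centre.
-/

set_option autoImplicit false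

open MeasureTheory Set Metric Filter Topology
open scoped ContDiff
open H459R3.NS Pool.Agent.W268.NS Pool.Agent.Q67.VD

namespace Pool.Agent.Q85.VL

open Pool.Agent.Q85.CC Pool.Agent.Q85.CL Pool.Agent.Q128.CC

/-- the vorticity is small near `p` -/
def Sml (v : V → V) (r β : ℝ) (p : V) (ρ : ℝ) : Prop :=
  ∀ q, ‖q - p‖ ≤ ρ * r → ∀ i j : Fin 3, Idx i j → r ^ 2 * |cur i j v q| ≤ β

/-- continuation in a cube around a good point -/
lemma expand (c h ρ : ℝ) (hc : 1 ≤ c) (hh : 0 < h) (hρ : 0 < ρ) (hρh : ρ < h / 2) (ε : ℝ)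
    (hε : 0 < ε) : ∃ β : ℝ, 0 < β ∧ ∀ (v : V → V) (p : V) (r : ℝ), SM v → 0 < r →
      Gd c (h * r) v p → Sml v r β p ρ → Sml v r ε p (h / 2) := by
  have hl : ρ / (h / 2) < 1 := by rw [div_lt_one (by positivity)]; exact hρh
  obtain ⟨β, hβ, hcont⟩ := cont (c / h ^ 2) c (ρ / (h / 2)) 1 (by positivity)
    (by positivity) (by positivity) hl ε hε
  refine ⟨min β ε, lt_min hβ hε, ?_⟩
  intro v p r hv hr hG hs q hq i j hij
  obtain ⟨e, he⟩ : ∃ e, e = q - p := ⟨_, rfl⟩
  have hqe : q = p + e := by rw [he]; abel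
  rw [← he] at hq
  by_cases he0 : e = 0
  · refine (hs q ?_ i j hij).trans (min_le_right _ _)
    rw [← he, he0, norm_zero]
    positivity
  have hf := cur_smooth hv i j
  have hee : 0 < e ⬝ᵥ e := by
    have h1 : 0 ≤ e ⬝ᵥ e := by
      rw [dot3]; nlinarith [sq_nonneg (e 0), sq_nonneg (e 1), sq_nonneg (e 2)]
    rcases h1.eq_or_lt with h2 | h2
    · exfalso
      apply he0
      rw [dot3] at h2
      funext l
      fin_cases l <;> simp <;> nlinarith [sq_nonneg (e 0), sq_nonneg (e 1), sq_nonneg (e 2)]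
    · exact h2
  obtain ⟨R, hR⟩ : ∃ R, R = √(e ⬝ᵥ e) := ⟨_, rfl⟩
  have hR0 : 0 < R := by rw [hR]; exact Real.sqrt_pos.2 hee
  have hR2 : R * R = e ⬝ᵥ e := by rw [hR]; exact Real.mul_self_sqrt hee.le
  obtain ⟨d, hd⟩ : ∃ d : V, d = R⁻¹ • e := ⟨_, rfl⟩
  have hdd : d ⬝ᵥ d = 1 := by
    rw [hd, smul_dotProduct, dotProduct_smul, smul_eq_mul, smul_eq_mul, ← hR2]
    field_simp
  have hline : ∀ t : ℝ, p + (R * t) • d = p + t • e := by
    intro t
    rw [hd, smul_smul]
    congr 2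
    field_simp
  have hRh : R ≤ h * r := by
    have h1 := dot_self_le e
    have h2 : ‖e‖ ^ 2 ≤ (h / 2 * r) ^ 2 := pow_le_pow_left₀ (norm_nonneg _) hq 2
    refine le_of_sq_le_sq ?_ (by positivity)
    rw [sq, hR2]
    nlinarith [sq_nonneg (h * r)]
  have hch : Chain (fun n t => (r / R) ^ 2 * ch (cur i j v) p d R n t) := fun n t =>
    (ch_chain hf p d R n t).const_mul _
  have hball : ∀ t ∈ Icc (0 : ℝ) 1, p + t • e ∈ ball p (h * r) := by
    intro t ht
    rw [mem_ball, dist_eq_norm, add_sub_cancel_left, norm_smul, Real.norm_eq_abs,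
      abs_of_nonneg ht.1]
    have h1 : t * ‖e‖ ≤ 1 * ‖e‖ := mul_le_mul_of_nonneg_right ht.2 (norm_nonneg _)
    have h2 : 0 < h * r := by positivity
    linarith
  have h1 := hcont _ hch (fun n t ht => ?_) (fun t ht => ?_) 1 ⟨zero_le_one, le_rfl⟩
  · unfold ch at h1
    rw [hline, one_smul, ← hqe] at h1
    simp only [Function.iterate_zero, id_eq, zero_add] at h1
    have h2 : (r / R) ^ 2 * (R ^ 2 * cur i j v q) = r ^ 2 * cur i j v q := by
      field_simp
    rw [h2, abs_mul, abs_of_pos (by positivity : (0 : ℝ) < r ^ 2)] at h1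
    exact h1
  · -- the bounds
    have h2 := hG _ (hball t ht) n i j
    have h3 := dd_iter_sq d hdd n (cur i j v) hf (p + t • e)
    have h4 : |(dd d)^[n] (cur i j v) (p + t • e)| ≤ c ^ (n + 1) * n.factorial / (h * r) ^ (n + 2) :=
      abs_le_of_sq_le_sq (h3.trans h2) (by positivity)
    unfold ch
    rw [hline, abs_mul, abs_mul, abs_of_pos (by positivity : 0 < (r / R) ^ 2),
      abs_of_pos (by positivity : 0 < R ^ (n + 2))]
    calc (r / R) ^ 2 * (R ^ (n + 2) * |(dd d)^[n] (cur i j v) (p + t • e)|)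
        ≤ (r / R) ^ 2 * (R ^ (n + 2) * (c ^ (n + 1) * n.factorial / (h * r) ^ (n + 2))) := by
          gcongr
      _ = R ^ n * (r ^ 2 * (c ^ (n + 1) * n.factorial) / (h * r) ^ (n + 2)) := by
          field_simp
          ring
      _ ≤ (h * r) ^ n * (r ^ 2 * (c ^ (n + 1) * n.factorial) / (h * r) ^ (n + 2)) := by
          gcongr
      _ = c / h ^ 2 * c ^ n * n.factorial := by
          rw [pow_add (h * r), mul_pow h r 2]
          field_simp
          ring
  · -- near `p`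
    unfold ch
    rw [hline]
    simp only [Function.iterate_zero, id_eq, zero_add]
    have h2 : (r / R) ^ 2 * (R ^ 2 * cur i j v (p + t • e)) = r ^ 2 * cur i j v (p + t • e) := by
      field_simp
    rw [h2, abs_mul, abs_of_pos (by positivity : (0 : ℝ) < r ^ 2)]
    refine (hs (p + t • e) ?_ i j hij).trans (min_le_left _ _)
    rw [add_sub_cancel_left, norm_smul, Real.norm_eq_abs, abs_of_nonneg ht.1]
    calc t * ‖e‖ ≤ ρ / (h / 2) * (h / 2 * r) :=
          mul_le_mul ht.2 hq (norm_nonneg _) (by positivity)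
      _ = ρ * r := by field_simp

/-- a chain of good points -/
lemma chain (c h : ℝ) (hc : 1 ≤ c) (hh : 0 < h) (m : ℕ) : ∀ ε : ℝ, 0 < ε →
    ∃ β : ℝ, 0 < β ∧ ∀ (v : V → V) (P : ℕ → V) (r : ℝ), SM v → 0 < r →
      (∀ k < m, Gd c (h * r) v (P k)) → (∀ k < m, ‖P (k + 1) - P k‖ ≤ h / 4 * r) →
      Sml v r β (P 0) (h / 4) → Sml v r ε (P m) (h / 4) := by
  induction m with
  | zero => exact fun ε hε => ⟨ε, hε, fun v P r _ _ _ _ h => h⟩
  | succ m ih =>
    intro ε hε
    obtain ⟨β₁, hβ₁, h1⟩ := expand c h (h / 4) hc hh (by positivity) (by linarith) ε hε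
    obtain ⟨β, hβ, h2⟩ := ih β₁ hβ₁
    refine ⟨β, hβ, fun v P r hv hr hG hP hs => ?_⟩
    have h3 := h2 v P r hv hr (fun k hk => hG k (by omega)) (fun k hk => hP k (by omega)) hs
    have h4 := h1 v (P m) r hv hr (hG m (by omega)) h3
    intro q hq i j hij
    refine h4 q ?_ i j hij
    have h5 := hP m (by omega)
    have h6 : q - P m = (q - P (m + 1)) + (P (m + 1) - P m) := by abel
    rw [h6]
    refine (norm_add_le _ _).trans ?_
    linarith

/-- a path of good points -/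
lemma path (c h : ℝ) (hc : 1 ≤ c) (hh : 0 < h) (ε : ℝ) (hε : 0 < ε) :
    ∃ β : ℝ, 0 < β ∧ ∀ (v : V → V) (γ : ℝ → V) (r : ℝ), SM v → 0 < r →
      (∀ t ∈ Icc (0 : ℝ) 1, Gd c (h * r) v (γ t)) →
      (∀ t ∈ Icc (0 : ℝ) 1, ∀ t' ∈ Icc (0 : ℝ) 1, ‖γ t' - γ t‖ ≤ r * |t' - t|) →
      Sml v r β (γ 0) (h / 4) → Sml v r ε (γ 1) (h / 4) := by
  obtain ⟨M, hM⟩ := exists_nat_gt (4 / h)
  have hM0 : (0 : ℝ) < M := lt_trans (by positivity) hM
  have hM1 : 1 / (M : ℝ) ≤ h / 4 := by
    rw [div_lt_iff₀ hh] at hM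
    rw [div_le_div_iff₀ hM0 (by norm_num)]
    linarith
  obtain ⟨β, hβ, h1⟩ := chain c h hc hh M ε hε
  refine ⟨β, hβ, fun v γ r hv hr hG hL hs => ?_⟩
  have hm : ∀ k : ℕ, k ≤ M → (k : ℝ) / M ∈ Icc (0 : ℝ) 1 := by
    intro k hk
    refine ⟨by positivity, ?_⟩
    rw [div_le_one hM0]
    exact_mod_cast hk
  have h2 := h1 v (fun k => γ (k / M)) r hv hr (fun k hk => hG _ (hm k hk.le)) (fun k hk => by
    refine (hL _ (hm k hk.le) _ (hm (k + 1) hk)).trans ?_
    have e : ((k + 1 : ℕ) : ℝ) / M - k / M = 1 / M := by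
      push_cast
      ring
    rw [e, abs_of_pos (by positivity), mul_comm]
    gcongr) (by
    show Sml v r β (γ ((0 : ℕ) / M)) (h / 4)
    rw [Nat.cast_zero, zero_div]
    exact hs)
  have e : γ ((M : ℝ) / M) = γ 1 := by rw [div_self hM0.ne']
  rw [← e]
  exact h2

/-- the smallness near `z` -/
lemma start (c h b β : ℝ) (hc : 1 ≤ c) (hh : 0 < h) (hb : 0 < b) (hβ : 0 < β) :
    ∃ τ : ℝ, 0 < τ ∧ ∀ (v : V → V) (z : V) (r : ℝ), SM v → 0 < r → Gd c (h * r) v z →
      ∫ y in closedBall z (b * r), om v y ≤ τ * r → Sml v r β z (min (b / 2) (h / 8)) := by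
  obtain ⟨δ, hδ⟩ : ∃ δ : ℝ, δ = min (b / 2) (min (h / 10) (β * h ^ 3 / (30 * c ^ 2))) :=
    ⟨_, rfl⟩
  have hd1 : δ ≤ b / 2 := by rw [hδ]; exact min_le_left _ _
  have hd2 : δ ≤ h / 10 := by
    rw [hδ]
    exact (min_le_right _ _).trans (min_le_left _ _)
  have hd3 : δ ≤ β * h ^ 3 / (30 * c ^ 2) := by
    rw [hδ]
    exact (min_le_right _ _).trans (min_le_right _ _)
  have hd0 : 0 < δ := by
    rw [hδ]
    refine lt_min (by positivity) (lt_min (by positivity) (by positivity))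
  refine ⟨β * δ ^ 3, by positivity, ?_⟩
  intro v z r hv hr hG hint y hy i j hij
  by_contra hcon
  push Not at hcon
  have hy1 : ‖y - z‖ ≤ b / 2 * r :=
    hy.trans (mul_le_mul_of_nonneg_right (min_le_left _ _) hr.le)
  have hy2 : ‖y - z‖ ≤ h / 8 * r :=
    hy.trans (mul_le_mul_of_nonneg_right (min_le_right _ _) hr.le)
  have hhr : 0 < h * r := by positivity
  have hyb : y ∈ ball z (h * r) := by
    rw [mem_ball, dist_eq_norm]
    linarith
  have hE : ∀ q ∈ closedBall y (δ * r), β / (2 * r ^ 2) ≤ om v q := by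
    intro q hq
    rw [mem_closedBall, dist_eq_norm] at hq
    have hqb : q ∈ ball z (h * r) := by
      rw [mem_ball, dist_eq_norm]
      have h1 : q - z = (q - y) + (y - z) := by abel
      rw [h1]
      refine lt_of_le_of_lt (norm_add_le _ _) ?_
      have h2 : δ * r ≤ h / 10 * r := mul_le_mul_of_nonneg_right hd2 hr.le
      linarith
    have h1 := cur_lip hv hc (by positivity) hG hyb hqb i j
    have h2 : 3 * (c ^ 2 / (h * r) ^ 3) * ‖q - y‖ ≤ β / (2 * r ^ 2) := by
      calc 3 * (c ^ 2 / (h * r) ^ 3) * ‖q - y‖ ≤ 3 * (c ^ 2 / (h * r) ^ 3) * (δ * r) :=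
            mul_le_mul_of_nonneg_left hq (by positivity)
        _ = 3 * c ^ 2 / (h ^ 3 * r ^ 2) * δ := by
            field_simp
        _ ≤ 3 * c ^ 2 / (h ^ 3 * r ^ 2) * (β * h ^ 3 / (30 * c ^ 2)) :=
            mul_le_mul_of_nonneg_left hd3 (by positivity)
        _ = β / (10 * r ^ 2) := by
            field_simp
            ring
        _ ≤ β / (2 * r ^ 2) := by
            gcongr
            norm_num
    have h3 : β / r ^ 2 < |cur i j v y| := by
      rw [div_lt_iff₀ (by positivity)]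
      linarith
    have h4 := abs_sub_abs_le_abs_sub (cur i j v y) (cur i j v q)
    rw [abs_sub_comm] at h4
    have h5 := cur_le_om v q hij
    have h6 : β / r ^ 2 = 2 * (β / (2 * r ^ 2)) := by
      field_simp
    linarith
  have hsub : closedBall y (δ * r) ⊆ closedBall z (b * r) := by
    apply closedBall_subset_closedBall'
    rw [dist_eq_norm]
    have h2 : δ * r ≤ b / 2 * r := mul_le_mul_of_nonneg_right hd1 hr.le
    linarith
  have hcont := om_cont' hv
  have hInt : IntegrableOn (om v) (closedBall z (b * r)) :=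
    hcont.continuousOn.integrableOn_compact (isCompact_closedBall _ _)
  have h1 : ∫ q in closedBall y (δ * r), om v q ≤ ∫ q in closedBall z (b * r), om v q :=
    setIntegral_mono_set hInt (Filter.Eventually.of_forall fun z => om_nonneg' v z)
      (Filter.Eventually.of_forall hsub)
  have hfin : volume (closedBall y (δ * r)) ≠ ⊤ := measure_closedBall_lt_top.ne
  have hvol : (volume (closedBall y (δ * r))).toReal = (2 * (δ * r)) ^ 3 := by
    rw [Real.volume_pi_closedBall y (by positivity), ENNReal.toReal_ofReal (by positivity)]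
    simp
  have h2 : β / (2 * r ^ 2) * (2 * (δ * r)) ^ 3 ≤ ∫ q in closedBall y (δ * r), om v q := by
    have h3 : ∫ _ in closedBall y (δ * r), β / (2 * r ^ 2) ≤ ∫ q in closedBall y (δ * r), om v q :=
      setIntegral_mono_on (integrableOn_const hfin) (hInt.mono_set hsub)
        isClosed_closedBall.measurableSet hE
    rw [setIntegral_const, smul_eq_mul, Measure.real, hvol] at h3
    rw [mul_comm]
    exact h3
  have h4 : β / (2 * r ^ 2) * (2 * (δ * r)) ^ 3 = 4 * (β * δ ^ 3 * r) := by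
    field_simp
    ring
  rw [h4] at h2
  have h5 : 0 < β * δ ^ 3 * r := by positivity
  linarith

/-! ### The geometry -/

/-- radial projection to the surface of the cube -/
noncomputable def prj (s : ℝ) (u : V) : V := (s / ‖u‖) • u

lemma prj_norm {s : ℝ} (hs : 0 ≤ s) {u : V} (hu : u ≠ 0) : ‖prj s u‖ = s := by
  unfold prj
  rw [norm_smul, Real.norm_eq_abs, abs_of_nonneg (by positivity), div_mul_cancel₀]
  exact norm_ne_zero_iff.2 hu

lemma prj_self {s : ℝ} {u : V} (hs : 0 < s) (hu : ‖u‖ = s) : prj s u = u := by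
  unfold prj
  rw [hu, div_self hs.ne', one_smul]

lemma prj_lip {s : ℝ} (hs : 0 ≤ s) {u u' : V} (hu : u ≠ 0) (hu' : u' ≠ 0) :
    ‖prj s u' - prj s u‖ ≤ 2 * s / ‖u‖ * ‖u' - u‖ := by
  have h0 : 0 < ‖u‖ := norm_pos_iff.2 hu
  have h0' : 0 < ‖u'‖ := norm_pos_iff.2 hu'
  have e : prj s u' - prj s u = (s / ‖u‖) • (u' - u) + (s / ‖u'‖ - s / ‖u‖) • u' := by
    unfold prj
    rw [smul_sub, sub_smul]
    abel
  rw [e]
  refine (norm_add_le _ _).trans ?_
  rw [norm_smul, norm_smul, Real.norm_eq_abs, Real.norm_eq_abs, abs_of_nonneg (by positivity)]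
  have h1 : |s / ‖u'‖ - s / ‖u‖| * ‖u'‖ ≤ s / ‖u‖ * ‖u' - u‖ := by
    have h2 : s / ‖u'‖ - s / ‖u‖ = s / (‖u‖ * ‖u'‖) * (‖u‖ - ‖u'‖) := by
      field_simp
    rw [h2, abs_mul, abs_of_nonneg (by positivity : 0 ≤ s / (‖u‖ * ‖u'‖))]
    have h3 : |‖u‖ - ‖u'‖| ≤ ‖u' - u‖ := by
      rw [abs_sub_comm]
      exact abs_norm_sub_norm_le _ _
    calc s / (‖u‖ * ‖u'‖) * |‖u‖ - ‖u'‖| * ‖u'‖ = s / ‖u‖ * |‖u‖ - ‖u'‖| := by
          field_simp
      _ ≤ s / ‖u‖ * ‖u' - u‖ := by gcongr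
  have h4 : 2 * s / ‖u‖ * ‖u' - u‖ = s / ‖u‖ * ‖u' - u‖ + s / ‖u‖ * ‖u' - u‖ := by ring
  linarith

/-- the coordinate where the norm is attained -/
lemma exists_coord {s : ℝ} (hs : 0 < s) {u : V} (hu : ‖u‖ = s) : ∃ i, |u i| = s := by
  by_contra h
  push Not at h
  have h1 : ‖u‖ < s := by
    rw [pi_norm_lt_iff hs]
    intro i
    rw [Real.norm_eq_abs]
    refine lt_of_le_of_ne ?_ (h i)
    rw [← hu]
    exact norm_le_pi_norm u i
  linarith

/-- the segment from `u` to the centre of a face -/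
noncomputable def seg (s : ℝ) (u : V) (k : Fin 3) (t : ℝ) : V :=
  (1 - t) • u + t • (Pi.single k s : V)

lemma seg_norm {s : ℝ} (hs : 0 < s) {u : V} (hu : ‖u‖ = s) {i k : Fin 3} (hi : |u i| = s)
    (hki : k ≠ i) {t : ℝ} (ht : t ∈ Icc (0 : ℝ) 1) : s / 3 ≤ ‖seg s u k t‖ := by
  rcases le_total t (2 / 3) with h | h
  · have h1 := norm_le_pi_norm (seg s u k t) i
    have h2 : seg s u k t i = (1 - t) * u i := by
      unfold seg
      simp [Pi.single_eq_of_ne hki.symm]
    rw [h2, Real.norm_eq_abs, abs_mul, hi, abs_of_nonneg (by linarith [ht.2])] at h1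
    nlinarith
  · have h1 := norm_le_pi_norm (seg s u k t) k
    have h2 : seg s u k t k = (1 - t) * u k + t * s := by
      unfold seg
      simp
    have h3 : |u k| ≤ s := by rw [← hu]; exact norm_le_pi_norm u k
    have h4 := (abs_le.1 h3).1
    rw [h2, Real.norm_eq_abs] at h1
    have h5 := le_abs_self ((1 - t) * u k + t * s)
    have h6 : (1 - t) * (-s) ≤ (1 - t) * u k := mul_le_mul_of_nonneg_left h4 (by linarith [ht.2])
    nlinarith

lemma seg_lip {s : ℝ} (hs : 0 < s) {u : V} (hu : ‖u‖ = s) (k : Fin 3) (t t' : ℝ) :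
    ‖seg s u k t' - seg s u k t‖ ≤ 2 * s * |t' - t| := by
  have e : seg s u k t' - seg s u k t = (t' - t) • ((Pi.single k s : V) - u) := by
    unfold seg
    rw [smul_sub, sub_smul, sub_smul, sub_smul, sub_smul]
    abel
  rw [e, norm_smul, Real.norm_eq_abs, mul_comm]
  apply mul_le_mul_of_nonneg_right _ (abs_nonneg _)
  refine (norm_sub_le _ _).trans ?_
  rw [hu, Pi.norm_single, Real.norm_eq_abs, abs_of_pos hs]
  linarith

/-- the path on the surface -/
noncomputable def cv (x : V) (s : ℝ) (u : V) (k : Fin 3) (t : ℝ) : V := x + prj s (seg s u k t)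

lemma seg_ne {s : ℝ} (hs : 0 < s) {u : V} (hu : ‖u‖ = s) {i k : Fin 3} (hi : |u i| = s)
    (hki : k ≠ i) {t : ℝ} (ht : t ∈ Icc (0 : ℝ) 1) : seg s u k t ≠ 0 := by
  have h1 := seg_norm hs hu hi hki ht
  intro h2
  rw [h2, norm_zero] at h1
  linarith

lemma cv_norm (x : V) {s : ℝ} (hs : 0 < s) {u : V} (hu : ‖u‖ = s) {i k : Fin 3} (hi : |u i| = s)
    (hki : k ≠ i) {t : ℝ} (ht : t ∈ Icc (0 : ℝ) 1) : ‖cv x s u k t - x‖ = s := by
  unfold cv
  rw [add_sub_cancel_left]
  exact prj_norm hs.le (seg_ne hs hu hi hki ht)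

lemma cv_lip (x : V) {s : ℝ} (hs : 0 < s) {u : V} (hu : ‖u‖ = s) {i k : Fin 3} (hi : |u i| = s)
    (hki : k ≠ i) {t t' : ℝ} (ht : t ∈ Icc (0 : ℝ) 1) (ht' : t' ∈ Icc (0 : ℝ) 1) :
    ‖cv x s u k t' - cv x s u k t‖ ≤ 12 * s * |t' - t| := by
  unfold cv
  rw [add_sub_add_left_eq_sub]
  refine (prj_lip hs.le (seg_ne hs hu hi hki ht) (seg_ne hs hu hi hki ht')).trans ?_
  have h1 := seg_norm hs hu hi hki ht
  have h2 := seg_lip hs hu k t t'
  have h0 : 0 < ‖seg s u k t‖ := lt_of_lt_of_le (by positivity) h1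
  calc 2 * s / ‖seg s u k t‖ * ‖seg s u k t' - seg s u k t‖ ≤ 6 * (2 * s * |t' - t|) := by
        apply mul_le_mul _ h2 (norm_nonneg _) (by norm_num)
        rw [div_le_iff₀ h0]
        linarith
    _ = 12 * s * |t' - t| := by ring

lemma cv_zero (x : V) {s : ℝ} (hs : 0 < s) {u : V} (hu : ‖u‖ = s) (k : Fin 3) :
    cv x s u k 0 = x + u := by
  unfold cv seg
  rw [sub_zero, one_smul, zero_smul, add_zero, prj_self hs hu]

lemma cv_one (x : V) {s : ℝ} (hs : 0 < s) (u : V) (k : Fin 3) :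
    cv x s u k 1 = x + (Pi.single k s : V) := by
  unfold cv seg
  rw [sub_self, zero_smul, one_smul, zero_add, prj_self hs]
  rw [Pi.norm_single, Real.norm_eq_abs, abs_of_pos hs]

/-- VL-10. -/
theorem t_AnaS : StmAnaS := by
  intro c h ε b hc hh hh1 hε hb
  obtain ⟨β₁, hβ₁, hP1⟩ := path c h hc hh (ε / 3) (by positivity)
  obtain ⟨β₂, hβ₂, hP2⟩ := path c h hc hh β₁ hβ₁
  have hb0 : 0 < min (b / 2) (h / 8) := lt_min (by positivity) (by positivity)
  obtain ⟨β₃, hβ₃, hP3⟩ := expand c h (min (b / 2) (h / 8)) hc hh hb0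
    (lt_of_le_of_lt (min_le_right _ _) (by linarith)) β₂ hβ₂
  obtain ⟨τ, hτ, hP4⟩ := start c h b β₃ hc hh hb hβ₃
  refine ⟨τ, min (h / 4) (1 / 128), hτ, lt_min (by positivity) (by norm_num),
    (min_le_left _ _).trans (by linarith), ?_⟩
  intro v x z r s hv hr hs1 hs2 hG hz hint y hy
  have hs : 0 < s := lt_of_lt_of_le (by positivity) hs1
  have h12 : 12 * s ≤ r := by linarith
  -- near `z`
  have s1 : Sml v r β₂ z (h / 4) := by
    have h1 := hP3 v z r hv hr (hG z hz) (hP4 v z r hv hr (hG z hz) hint)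
    intro q hq
    exact h1 q (hq.trans (mul_le_mul_of_nonneg_right (by linarith) hr.le))
  -- the point of the surface
  have hw1 : |‖y - x‖ - s| ≤ h / 4 * r :=
    hy.trans (mul_le_mul_of_nonneg_right (min_le_left _ _) hr.le)
  have hw2 : |‖y - x‖ - s| ≤ 1 / 128 * r :=
    hy.trans (mul_le_mul_of_nonneg_right (min_le_right _ _) hr.le)
  have hyx : 0 < ‖y - x‖ := by
    have := (abs_le.1 hw2).1
    linarith
  have hyx0 : y - x ≠ 0 := norm_pos_iff.1 hyx
  obtain ⟨u', hu'⟩ : ∃ u', u' = prj s (y - x) := ⟨_, rfl⟩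
  have hun' : ‖u'‖ = s := by rw [hu']; exact prj_norm hs.le hyx0
  have hyu : ‖y - (x + u')‖ ≤ h / 4 * r := by
    have e : y - (x + u') = (1 - s / ‖y - x‖) • (y - x) := by
      rw [hu', sub_smul, one_smul]
      unfold prj
      abel
    rw [e, norm_smul, Real.norm_eq_abs]
    have e2 : |1 - s / ‖y - x‖| * ‖y - x‖ = |‖y - x‖ - s| := by
      have e3 : ‖y - x‖ - s = (1 - s / ‖y - x‖) * ‖y - x‖ := by field_simp
      rw [e3, abs_mul, abs_of_pos hyx]
    rw [e2]
    exact hw1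
  obtain ⟨u, hu⟩ : ∃ u, u = z - x := ⟨_, rfl⟩
  have hun : ‖u‖ = s := by rw [hu]; exact hz
  have hzu : z = x + u := by rw [hu]; abel
  obtain ⟨i, hi⟩ := exists_coord hs hun
  obtain ⟨i', hi'⟩ := exists_coord hs hun'
  obtain ⟨k, hk, hk'⟩ : ∃ k : Fin 3, k ≠ i ∧ k ≠ i' := by
    have h : ∀ i i' : Fin 3, ∃ k : Fin 3, k ≠ i ∧ k ≠ i' := by decide
    exact h i i'
  -- from `z` to the centre of a face
  have s2 : Sml v r β₁ (x + (Pi.single k s : V)) (h / 4) := by
    have h1 := hP2 v (cv x s u k) r hv hr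
      (fun t ht => hG _ (cv_norm x hs hun hi hk ht))
      (fun t ht t' ht' => (cv_lip x hs hun hi hk ht ht').trans
        (mul_le_mul_of_nonneg_right h12 (abs_nonneg _)))
    rw [cv_zero x hs hun, cv_one x hs, ← hzu] at h1
    exact h1 s1
  -- from the centre of the face to the point near `y`
  have s3 : Sml v r (ε / 3) (x + u') (h / 4) := by
    have hm : ∀ t ∈ Icc (0 : ℝ) 1, 1 - t ∈ Icc (0 : ℝ) 1 := fun t ht =>
      ⟨by linarith [ht.2], by linarith [ht.1]⟩
    have h1 := hP1 v (fun t => cv x s u' k (1 - t)) r hv hr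
      (fun t ht => hG _ (cv_norm x hs hun' hi' hk' (hm t ht)))
      (fun t ht t' ht' => by
        refine (cv_lip x hs hun' hi' hk' (hm t ht) (hm t' ht')).trans ?_
        have e : |1 - t' - (1 - t)| = |t' - t| := by
          rw [abs_sub_comm]
          congr 1
          ring
        rw [e]
        exact mul_le_mul_of_nonneg_right h12 (abs_nonneg _))
    simp only [sub_zero, sub_self] at h1
    rw [cv_zero x hs hun', cv_one x hs] at h1
    exact h1 s2
  have hr2 : 0 < r ^ 2 := by positivity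
  have hfin : ∀ i j : Fin 3, Idx i j → |cur i j v y| ≤ ε / 3 / r ^ 2 := by
    intro i j hij
    rw [le_div_iff₀ hr2]
    have := s3 y hyu i j hij
    linarith
  have h1 := om_le_sum v y (ε / 3 / r ^ 2) (hfin 1 2 (Or.inl ⟨rfl, rfl⟩))
    (hfin 2 0 (Or.inr (Or.inl ⟨rfl, rfl⟩))) (hfin 0 1 (Or.inr (Or.inr ⟨rfl, rfl⟩)))
  refine h1.trans (le_of_eq ?_)
  ring

end Pool.Agent.Q85.VL
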