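import Pool.Agent.Q85.VL.Defs

/-!
Project VL, part VL-12: without a closed chain of arcs there is a function which increases along the
arcs (helper36).
-/

set_option autoImplicit false

open MeasureTheory Set Metric Filter Topology
open H459R3.NS Pool.Agent.W268.NS Pool.Agent.Q67.VD

namespace Pool.Agent.Q85.VL.PotG

open Pool.Agent.Q85.VL

lemma len_eq (a : V) : len a = ‖(WithLp.toLp 2 a : EuclideanSpace ℝ (Fin 3))‖ := by
  rw [EuclideanSpace.norm_eq]
  unfold len
  congr 1
  simp only [dotProduct, Real.norm_eq_abs, sq_abs]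
  exact Finset.sum_congr rfl fun i _ => (pow_two (a i)).symm

lemma len_nn (a : V) : 0 ≤ len a := Real.sqrt_nonneg _

lemma len_zero : len (0 : V) = 0 := by simp [len]

lemma len_add (a b : V) : len (a + b) ≤ len a + len b := by
  rw [len_eq, len_eq, len_eq, WithLp.toLp_add]
  exact norm_add_le _ _

lemma len_neg (a : V) : len (-a) = len a := by
  rw [len_eq, len_eq, WithLp.toLp_neg, norm_neg]

lemma len_comm (a b : V) : len (a - b) = len (b - a) := by
  rw [← len_neg, neg_sub]

lemma len_tri (a b c : V) : len (a - c) ≤ len (a - b) + len (b - c) := by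
  have h := len_add (a - b) (b - c)
  rwa [sub_add_sub_cancel] at h

lemma len_le (a : V) : len a ≤ 2 * ‖a‖ := by
  unfold len
  rw [Real.sqrt_le_left (by positivity)]
  rw [dotProduct, Fin.sum_univ_three]
  have h : ∀ i, a i * a i ≤ ‖a‖ ^ 2 := fun i => by
    have h1 := norm_le_pi_norm a i
    rw [Real.norm_eq_abs] at h1
    have h2 : |a i| ^ 2 ≤ ‖a‖ ^ 2 := pow_le_pow_left₀ (abs_nonneg _) h1 2
    rw [sq_abs] at h2
    nlinarith
  have h0 := h 0
  have h1 := h 1
  have h2 := h 2
  nlinarith [sq_nonneg ‖a‖]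

/-- a path of arcs and jumps; `c` is the length of the jumps minus `ε` times that of the arcs -/
inductive Pth (z : V → V) (D : Set V) (ε : ℝ) : V → V → ℝ → Prop
  | one {p q : V} {l : ℝ} : Arc z D p q l → Pth z D ε p q (-(ε * l))
  | cons {p q p' q' : V} {l c : ℝ} : Arc z D p q l → Pth z D ε p' q' c →
      Pth z D ε p q' (-(ε * l) + len (p' - q) + c)

variable {z : V → V} {D : Set V} {ε : ℝ}

lemma Pth.seq {p q : V} {c : ℝ} (h : Pth z D ε p q c) :
    ∃ (k : ℕ) (P Q : ℕ → V) (L : ℕ → ℝ), P 0 = p ∧ Q k = q ∧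
      (∀ i < k + 1, Arc z D (P i) (Q i) (L i)) ∧
      c = ∑ i ∈ Finset.range k, len (P (i + 1) - Q i) - ε * ∑ i ∈ Finset.range (k + 1), L i := by
  induction h with
  | one h =>
    rename_i p q l
    exact ⟨0, fun _ => p, fun _ => q, fun _ => l, rfl, rfl, fun i _ => h, by simp⟩
  | cons h _ ih =>
    rename_i p q p' q' l c _
    obtain ⟨k, P, Q, L, h0, h1, h2, h3⟩ := ih
    refine ⟨k + 1, fun i => Nat.casesOn i p P, fun i => Nat.casesOn i q Q,
      fun i => Nat.casesOn i l L, rfl, h1, fun i hi => ?_, ?_⟩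
    · cases i with
      | zero => exact h
      | succ i => exact h2 i (by omega)
    · rw [Finset.sum_range_succ' (fun i => len _), Finset.sum_range_succ' (fun i => _) (k + 1), h3]
      simp only [h0]
      change _ = ∑ x ∈ Finset.range k, len (P (x + 1) - Q x) + len (p' - q)
        - ε * (∑ x ∈ Finset.range (k + 1), L x + l)
      ring

lemma Pth.mem {p q : V} {c : ℝ} (h : Pth z D ε p q c) : p ∈ D ∧ q ∈ D := by
  have key : ∀ {p q : V} {l : ℝ}, Arc z D p q l → p ∈ D ∧ q ∈ D := by
    rintro p q l ⟨hl, γ, h0, h1, h2⟩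
    refine ⟨?_, ?_⟩
    · rw [← h0]; exact (h2 0 ⟨le_rfl, hl.le⟩).1
    · rw [← h1]; exact (h2 l ⟨hl.le, le_rfl⟩).1
  induction h with
  | one h => exact key h
  | cons h _ ih => exact ⟨(key h).1, ih.2⟩

lemma Pth.low (hc : ¬ Chained z D ε) {p q : V} {c : ℝ} (h : Pth z D ε p q c) :
    -len (p - q) ≤ c := by
  obtain ⟨k, P, Q, L, h0, h1, h2, h3⟩ := h.seq
  by_contra hlt
  apply hc
  refine ⟨k + 1, fun i => if i = k + 1 then P 0 else P i, Q, L, Nat.succ_pos k, by simp,
    fun i hi => ?_, ?_⟩
  · have : i ≠ k + 1 := by omega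
    simpa [this] using h2 i hi
  · rw [Finset.sum_range_succ]
    have e : ∑ i ∈ Finset.range k, len ((if i + 1 = k + 1 then P 0 else P (i + 1)) - Q i)
        = ∑ i ∈ Finset.range k, len (P (i + 1) - Q i) := by
      refine Finset.sum_congr rfl fun i hi => ?_
      have : i + 1 ≠ k + 1 := by
        have := Finset.mem_range.1 hi
        omega
      rw [if_neg this]
    simp only [h0, h1, if_true] at e ⊢
    rw [e]
    linarith

/-- the costs of the paths which begin with a jump from `y` -/
def costs (z : V → V) (D : Set V) (ε : ℝ) (y : V) : Set ℝ :=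
  {c | c = 0 ∨ ∃ p q c', Pth z D ε p q c' ∧ c = len (p - y) + c'}

end Pool.Agent.Q85.VL.PotG

namespace Pool.Agent.Q85.VL

open Pool.Agent.Q85.VL.PotG

theorem t_G : StmG := by
  intro z D a R ε hD hε hc
  have hne : ∀ y, (costs z D ε y).Nonempty := fun y => ⟨0, Or.inl rfl⟩
  have hb : ∀ y, BddBelow (costs z D ε y) := by
    refine fun y => ⟨-(4 * |R|), ?_⟩
    rintro c (rfl | ⟨p, q, c', h, rfl⟩)
    · have := abs_nonneg R
      linarith
    · have h1 := h.low hc
      have h2 := hD _ h.mem.1
      have h3 := hD _ h.mem.2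
      have h4 := len_nn (p - y)
      have h5 : ‖p - q‖ ≤ ‖p - a‖ + ‖q - a‖ := by
        have := norm_sub_le (p - a) (q - a)
        rwa [sub_sub_sub_cancel_right] at this
      have h6 := len_le (p - q)
      have h7 := le_abs_self R
      linarith
  have hone : ∀ y y', sInf (costs z D ε y) - len (y - y') ≤ sInf (costs z D ε y') := by
    intro y y'
    refine le_csInf (hne y') ?_
    rintro c (rfl | ⟨p, q, c', h, rfl⟩)
    · have h1 : sInf (costs z D ε y) ≤ 0 := csInf_le (hb y) (Or.inl rfl)
      have h2 := len_nn (y - y')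
      linarith
    · have h1 : sInf (costs z D ε y) ≤ len (p - y) + c' :=
        csInf_le (hb y) (Or.inr ⟨p, q, c', h, rfl⟩)
      have h2 := len_tri p y' y
      rw [len_comm y' y] at h2
      linarith
  refine ⟨fun y => sInf (costs z D ε y), fun y y' => ?_, fun p q l h => ?_⟩
  · rw [abs_le]
    have h1 := hone y y'
    have h2 := hone y' y
    rw [len_comm y' y] at h2
    constructor <;> linarith
  · refine le_csInf (hne q) ?_
    rintro c (rfl | ⟨p', q', c', h', rfl⟩)
    · have h1 : sInf (costs z D ε p) ≤ len (p - p) + -(ε * l) :=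
        csInf_le (hb p) (Or.inr ⟨p, q, _, Pth.one h, rfl⟩)
      rw [sub_self, len_zero] at h1
      linarith
    · have h1 : sInf (costs z D ε p) ≤ len (p - p) + (-(ε * l) + len (p' - q) + c') :=
        csInf_le (hb p) (Or.inr ⟨p, q', _, Pth.cons h h', rfl⟩)
      rw [sub_self, len_zero] at h1
      linarith

end Pool.Agent.Q85.VL
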