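import Pool.Agent.Q95.CL.GoodL
import Pool.Agent.Q85.VL.Defs

/-!
Project VL (helper85), part VL-14: a cube surface of good points, the statement `StmGoodS`.
Adapted from `Pool.Agent.Q95.CL.goodL` and `Pool.Agent.Q26.CC.sel` (starting modules): the heights
`hgt e x y` are replaced by the distances `‖y - x‖` in the maximum norm.
-/

set_option autoImplicit false

open MeasureTheory Set Metric Filter Topology
open scoped ContDiff ENNReal

namespace Pool.Agent.Q85.VL

open H459R3.NS W221.NS W221.NS.B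
open Pool.Agent.TH305.LW (Pth ms MollP)
open Pool.Agent.TH305.DR (SS ST Om SS_succ SS_zero)
open Pool.Agent.Q85.CC (SQ cur Gd)
open Pool.Agent.Q85.CL (LSl)
open Pool.Agent.Q26.CC Pool.Agent.Q95.CL

/-- If the balls around the points of `S` cover all the distances then `S` is large. -/
lemma heightsS {x : V3} {a b ρ : ℝ} (S : Finset V3) (hρ : 0 < ρ)
    (h : ∀ s ∈ Icc a b, ∃ y ∈ S, |s - ‖y - x‖| ≤ 2 * ρ) :
    b - a ≤ S.card * (4 * ρ) := by
  have h1 : Icc a b ⊆ ⋃ y ∈ S, Icc (‖y - x‖ - 2 * ρ) (‖y - x‖ + 2 * ρ) := by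
    intro s hs
    obtain ⟨y, hy, hsy⟩ := h s hs
    rw [abs_le] at hsy
    simp only [mem_iUnion]
    exact ⟨y, hy, by linarith [hsy.1], by linarith [hsy.2]⟩
  have h2 : volume (Icc a b) ≤ ∑ y ∈ S, volume (Icc (‖y - x‖ - 2 * ρ) (‖y - x‖ + 2 * ρ)) :=
    (measure_mono h1).trans (measure_biUnion_finset_le _ _)
  simp only [Real.volume_Icc] at h2
  have e1 : ∀ y, ‖y - x‖ + 2 * ρ - (‖y - x‖ - 2 * ρ) = 4 * ρ := fun y => by ring
  simp only [e1, Finset.sum_const, nsmul_eq_mul] at h2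
  rw [← ENNReal.ofReal_natCast, ← ENNReal.ofReal_mul (by positivity),
    ENNReal.ofReal_le_ofReal_iff (by positivity)] at h2
  exact h2

theorem selS {β a ε C : ℝ} (hβ : 0 < β) (hβ1 : β ≤ 1) (ha : 0 ≤ a) (hε : 0 < ε) (hC : 0 ≤ C) :
    ∃ N : ℕ, ∀ (F : ℝ → V3 → ℝ≥0∞) (t r : ℝ) (x : V3), 0 < r →
      ∫⁻ τ in Ioo (t - r ^ 2) t, ∫⁻ z in ball x ((4 + a) * r), F τ z ≤ ENNReal.ofReal (C * r) →
      ∃ n < N, ∃ s ∈ Icc (r / 64) (r / 32), ∀ y, ‖y - x‖ = s →
          DD F t β a (sc r n) y ≤ ENNReal.ofReal (ε * sc r n) := by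
  have hl : (1 : ℝ) < 4 ^ β := Real.one_lt_rpow (by norm_num) hβ
  have hl1 : (0 : ℝ) < 4 ^ β - 1 := by linarith
  obtain ⟨Q, hQ⟩ : ∃ Q, Q = 2 * 4 ^ β / (4 ^ β - 1) * ((2 * a + 1) ^ 3 * C) / ε := ⟨_, rfl⟩
  have hQ0 : 0 ≤ Q := by rw [hQ]; positivity
  obtain ⟨N, hN⟩ := exists_nat_gt (256 * Q)
  refine ⟨N, ?_⟩
  intro F t r x hr hF
  -- bound for the families
  have hsum : ∀ (N : ℕ) (Y : ℕ → Finset V3),
      (∀ n, ∀ y ∈ Y n, ∀ y' ∈ Y n, y ≠ y' → sc r n ≤ ‖y - y'‖) →
      (∀ n, ∀ y ∈ Y n, y ∈ closedBall x (4 * r) ∧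
        ENNReal.ofReal (ε * sc r n) < DD F t β a (sc r n) y) →
      ∑ n ∈ Finset.range N, (Y n).card * sc r n ≤ Q * r := by
    intro N Y h1 h2
    have h3 := count_sum (F := F) (t := t) (ε := ε) hβ hβ1 ha hr x N Y h1
      (fun n y hy => (h2 n y hy).1) (fun n y hy => (h2 n y hy).2.le)
    have h4 : ENNReal.ofReal (2 * 4 ^ β / (4 ^ β - 1)) * (ENNReal.ofReal ((2 * a + 1) ^ 3) *
        ∫⁻ τ in Ioo (t - r ^ 2) t, ∫⁻ z in ball x ((4 + a) * r), F τ z)
        ≤ ENNReal.ofReal (2 * 4 ^ β / (4 ^ β - 1) * ((2 * a + 1) ^ 3 * (C * r))) := by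
      rw [ENNReal.ofReal_mul (by positivity), ENNReal.ofReal_mul (by positivity)]
      gcongr
    have h5 : ∑ n ∈ Finset.range N, (Y n).card * ENNReal.ofReal (ε * sc r n)
        = ENNReal.ofReal (∑ n ∈ Finset.range N, (Y n).card * (ε * sc r n)) := by
      rw [ENNReal.ofReal_sum_of_nonneg]
      · refine Finset.sum_congr rfl fun n _ => ?_
        rw [← ENNReal.ofReal_natCast, ← ENNReal.ofReal_mul (by positivity)]
      · intro n _
        have := sc_pos hr n
        positivity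
    have h6 := h3.trans h4
    rw [h5, ENNReal.ofReal_le_ofReal_iff (by positivity)] at h6
    have h7 : ∑ n ∈ Finset.range N, (Y n).card * (ε * sc r n)
        = ε * ∑ n ∈ Finset.range N, (Y n).card * sc r n := by
      rw [Finset.mul_sum]
      exact Finset.sum_congr rfl fun n _ => by ring
    rw [h7] at h6
    have h8 : 2 * 4 ^ β / (4 ^ β - 1) * ((2 * a + 1) ^ 3 * (C * r)) = ε * (Q * r) := by
      rw [hQ]
      field_simp
    rw [h8] at h6
    exact le_of_mul_le_mul_left h6 hε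
  by_contra hcon
  push Not at hcon
  -- the maximal sets
  have hmax : ∀ n, ∃ S : Finset V3, (∀ x ∈ S, ∀ y ∈ S, x ≠ y → sc r n ≤ ‖x - y‖) ∧
      (∀ y ∈ S, y ∈ closedBall x (4 * r) ∧
        ENNReal.ofReal (ε * sc r n) < DD F t β a (sc r n) y) ∧
      ∀ y, (y ∈ closedBall x (4 * r) ∧
        ENNReal.ofReal (ε * sc r n) < DD F t β a (sc r n) y) → ∃ y' ∈ S, ‖y - y'‖ < sc r n := by
    intro n
    apply max_sep _ (sc_pos hr n) ⌈Q * r / sc r n⌉₊
    intro S hS1 hS2
    have h1 := hsum (n + 1) (fun m => if m = n then S else ∅) (by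
        intro m y hy y' hy' hyy
        by_cases h : m = n
        · subst h
          simp only [if_true] at hy hy'
          exact hS1 y hy y' hy' hyy
        · simp only [if_neg h] at hy
          exact absurd hy (Finset.notMem_empty y)) (by
        intro m y hy
        by_cases h : m = n
        · subst h
          simp only [if_true] at hy
          exact hS2 y hy
        · simp only [if_neg h] at hy
          exact absurd hy (Finset.notMem_empty y))
    have h2 : (S.card : ℝ) * sc r n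
        ≤ ∑ m ∈ Finset.range (n + 1), ((if m = n then S else ∅ : Finset V3).card : ℝ) * sc r m := by
      have h3 := Finset.single_le_sum (s := Finset.range (n + 1))
        (f := fun m => ((if m = n then S else ∅ : Finset V3).card : ℝ) * sc r m)
        (fun m _ => by have := sc_pos hr m; positivity) (Finset.self_mem_range_succ n)
      simpa using h3
    have h4 := h2.trans h1
    have h5 : (S.card : ℝ) ≤ Q * r / sc r n := by
      rw [le_div_iff₀ (sc_pos hr n)]
      exact h4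
    exact_mod_cast h5.trans (Nat.le_ceil _)
  choose Y hY1 hY2 hY3 using hmax
  have h1 := hsum N Y hY1 hY2
  have h2 : ∀ n ∈ Finset.range N, r / 64 ≤ 4 * ((Y n).card * sc r n) := by
    intro n hn
    have h3 := heightsS (x := x) (a := r / 64) (b := r / 32) (Y n) (sc_pos hr n) (by
      intro s hs
      obtain ⟨y, hy1, hy3⟩ := hcon n (Finset.mem_range.1 hn) s hs
      obtain ⟨y', hy', hyy⟩ := hY3 n y ⟨by
        rw [mem_closedBall, dist_eq_norm, hy1]
        linarith [hs.2], hy3⟩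
      refine ⟨y', hy', ?_⟩
      rw [← hy1]
      have h4 := abs_norm_sub_norm_le (y - x) (y' - x)
      rw [sub_sub_sub_cancel_right] at h4
      have := sc_pos hr n
      linarith)
    linarith
  have h3 := Finset.sum_le_sum h2
  rw [Finset.sum_const, nsmul_eq_mul, Finset.card_range, ← Finset.mul_sum] at h3
  have h4 : (N : ℝ) * r ≤ 256 * Q * r := by linarith
  have h5 := le_of_mul_le_mul_right h4 hr
  linarith

theorem t_GoodS : StmGoodS := by
  obtain ⟨εt, hεt, c, hc, hloc0⟩ := Pool.Agent.Y302.AN.t_loca Pool.Agent.Y455.AN.t_ead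
    Pool.Agent.Y7.a_pta Pool.Agent.Y475.AN.t_hara
  have hloc : LocaP εt c := fun v q h1 h2 h3 n t ht x hx => (hloc0 v q h1 h2 h3 n t ht x hx).1
  obtain ⟨CM, hCM, hmol, hgen0⟩ := Pool.Agent.TH305.LW.gen_all
  obtain ⟨k1, ε0, hk1, hε0, hgen⟩ := hgen0 εt hεt
  refine ⟨c, hc, ?_⟩
  intro K C₁ hK hC₁
  obtain ⟨a, had⟩ : ∃ a, a = 8 + 2 * K := ⟨_, rfl⟩
  have ha8 : 8 ≤ a := by rw [had]; linarith
  have ha : 0 ≤ a := by linarith
  obtain ⟨N, hN⟩ := selS (β := 1 / 1152) (a := a) (ε := ε0) (C := C₁ * (4 + a))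
    (by norm_num) (by norm_num) ha hε0 (by positivity)
  obtain ⟨J, hJ⟩ := pow_unbounded_of_one_lt (C₁ * a / ε0) (show (1 : ℝ) < 2 by norm_num)
  have hJ' : C₁ * a ≤ ε0 * 2 ^ Pool.Agent.TH305.LW.KK k1 J := by
    have h1 : (2 : ℝ) ^ J ≤ 2 ^ Pool.Agent.TH305.LW.KK k1 J :=
      pow_le_pow_right₀ (by norm_num) (Pool.Agent.TH305.LW.KK_ge k1 J)
    have h2 := (hJ.trans_le h1).le
    rw [div_le_iff₀ hε0] at h2
    linarith
  obtain ⟨R, hR⟩ : ∃ R, R = rr (Pool.Agent.TH305.LW.KK k1 (J + 1)) := ⟨_, rfl⟩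
  have hR0 : 0 < R := by rw [hR]; unfold rr; positivity
  have hR1 : R ≤ 1 := by
    rw [hR]
    unfold rr
    exact pow_le_one₀ (by norm_num) (by norm_num)
  have h2N : (1 : ℝ) ≤ 2 ^ N := one_le_pow₀ (by norm_num)
  refine ⟨R / 2 ^ N / 16, a + 4, by positivity, ?_, by linarith, ?_⟩
  · have : R / 2 ^ N ≤ 1 := by
      rw [div_le_one (by positivity)]
      linarith
    linarith
  intro T E O u p hT hsol b ρ₀ hρ₀ hO
  have hE0 : 0 ≤ E := by
    refine le_trans (setIntegral_nonneg hsol.openO.measurableSet fun x _ => ?_)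
      (hsol.en (T / 2) ⟨by linarith, by linarith⟩)
    unfold nsq
    exact Finset.sum_nonneg fun i _ => by positivity
  obtain ⟨ζ, κ, hκ, -, hζ1, hL⟩ := cut_exists hsol hE0 hρ₀ hO
  have hL3 := lsol3_of hL
  have hG : IsOpen (ball b (7 / 8 * ρ₀)) := isOpen_ball
  have hζG : ∀ x ∈ ball b (7 / 8 * ρ₀), ζ x = 1 := fun x hx => hζ1 x (ball_subset_closedBall hx)
  have hEs : 0 ≤ √E := Real.sqrt_nonneg E
  obtain ⟨ra, hra, hsma⟩ := small_r (T := T) (A := 2 * CM * √E * (2 / ρ₀)) (L := a + 4) hT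
  obtain ⟨rb, hrb, hsmb⟩ := small_r (T := T) (A := 0) (L := 8 * (a + 200) / ρ₀) hT
  refine ⟨min ra rb, lt_min hra hrb, ?_⟩
  intro t r x hr hrr ht1 ht2 hx hvel hdis
  obtain ⟨a1, a2, a3, a4, a5⟩ := hsma r hr (hrr.trans (min_le_left _ _))
  obtain ⟨-, -, b3, -, -⟩ := hsmb r hr (hrr.trans (min_le_right _ _))
  have hb3 : (a + 200) * r ≤ ρ₀ / 8 := by
    have h1 : 8 * (a + 200) / ρ₀ * r = ((a + 200) * r) / (ρ₀ / 8) := by
      field_simp
    rw [h1, div_le_one (by positivity)] at b3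
    exact b3
  have har0 : 0 ≤ a * r := by positivity
  have hr200 : 200 * r ≤ ρ₀ / 8 := by linarith only [har0, hb3, hr]
  have harρ : a * r ≤ ρ₀ / 8 := by linarith only [har0, hb3, hr]
  have hsq : 2 * CM * √E * √r ≤ ρ₀ / 8 := by
    have h1 : 2 * CM * √E * (2 / ρ₀) * √r = (2 * CM * √E * √r) * (2 / ρ₀) := by ring
    rw [h1, mul_div_assoc', div_le_iff₀ hρ₀] at a2
    linarith
  have ht0 : 0 < t := by linarith
  have hu : ContDiffOn ℝ ∞ (fun z : ℝ × V => u z.1 z.2) (Ioo 0 T ×ˢ univ) := hsol.smooth_u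
  have hr2 : 0 < r ^ 2 := by positivity
  have har : 0 < (4 + a) * r := by positivity
  -- the total dissipation
  have hlint : ∀ (y : V) (ρ' b : ℝ), y ∈ closedBall x (ρ₀ / 4) → 0 < ρ' → ρ' ≤ (a + 4) * r →
      t - ρ' ^ 2 ≤ b → b < t →
      ∫⁻ τ in Ioo b t, ∫⁻ z in ball y ρ', ENNReal.ofReal (gsq (u τ) z)
        ≤ ENNReal.ofReal (C₁ * ρ') := by
    intro y ρ' b h0 h1 h2 h3 h4
    have h5 : ρ' ^ 2 ≤ ((a + 4) * r) ^ 2 := pow_le_pow_left₀ h1.le h2 2
    have h50 : 0 < ρ' ^ 2 := by positivity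
    have h51 : 0 < ((a + 4) * r) ^ 2 := by positivity
    have h6 := lint_conv hu (a := t - ρ' ^ 2) (b := t) (by linarith) (by linarith) ht2 y ρ'
    calc ∫⁻ τ in Ioo b t, ∫⁻ z in ball y ρ', ENNReal.ofReal (gsq (u τ) z)
        ≤ ∫⁻ τ in Ioo (t - ρ' ^ 2) t, ∫⁻ z in ball y ρ', ENNReal.ofReal (gsq (u τ) z) :=
          lintegral_mono_set (Ioo_subset_Ioo_left h3)
      _ = ENNReal.ofReal (∫ τ in Ioo (t - ρ' ^ 2) t, B2 y ρ' (u τ)) := h6
      _ ≤ _ := ENNReal.ofReal_le_ofReal (hdis y h0 ρ' ⟨h1, h2⟩)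
  have htotal : ∫⁻ τ in Ioo (t - r ^ 2) t, ∫⁻ z in ball x ((4 + a) * r),
      ENNReal.ofReal (gsq (u τ) z) ≤ ENNReal.ofReal (C₁ * (4 + a) * r) := by
    have h0 : r ^ 2 ≤ ((4 + a) * r) ^ 2 :=
      pow_le_pow_left₀ hr.le (by linarith only [har0, hr]) 2
    have h1 := hlint x ((4 + a) * r) (t - r ^ 2) (mem_closedBall_self (by positivity)) har
      (by linarith) (by linarith) (by linarith)
    rw [mul_assoc]
    exact h1
  obtain ⟨n, hn, s, hs, hgood⟩ := hN (fun τ z => ENNReal.ofReal (gsq (u τ) z)) t r x hr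
    htotal
  refine ⟨s, hs, ?_⟩
  intro y hy1
  have hyx : y ∈ closedBall x (4 * r) := by
    rw [mem_closedBall, dist_eq_norm, hy1]
    linarith [hs.2]
  have hD := hgood y hy1
  obtain ⟨ρ, hρd⟩ : ∃ ρ, ρ = sc r n := ⟨_, rfl⟩
  rw [← hρd] at hD
  have hρ : 0 < ρ := by rw [hρd]; exact sc_pos hr n
  have hρr : ρ ≤ r / 2 := by rw [hρd]; exact sc_le hr n
  have hρ2 : ρ ^ 2 ≤ r ^ 2 := pow_le_pow_left₀ hρ.le (by linarith) 2
  have hρ20 : 0 < ρ ^ 2 := by positivity
  have hyx' : dist y x ≤ 4 * r := hyx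
  have hxb : dist x b ≤ ρ₀ / 2 := by
    rw [dist_eq_norm]
    exact hx
  have hyb : dist y b ≤ ρ₀ / 2 + 4 * r := by
    have := dist_triangle y x b
    linarith
  have haρ : a * ρ ≤ ρ₀ / 8 := by
    have h1 : a * ρ ≤ a * r := mul_le_mul_of_nonneg_left (by linarith) ha
    linarith
  have hball : ball y (a * ρ) ⊆ ball b (7 / 8 * ρ₀) := by
    apply ball_subset_ball'
    linarith
  have hcutI : ∀ τ, ∫⁻ z in ball y (a * ρ), ENNReal.ofReal (gsq (fun x => ζ x • u τ x) z)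
      = ∫⁻ z in ball y (a * ρ), ENNReal.ofReal (gsq (u τ) z) := fun τ =>
    setLIntegral_congr_fun measurableSet_ball fun z hz => by
      simp only [gsq_cutG hG hζG τ (hball hz)]
  have key := good_ptG hloc hCM hmol hε0 hgen hκ hEs hL3 hL (K := K) (ρ := ρ) (t := t) (y := y)
    (D := ρ₀ / 8) (J := J) hK hρ (by linarith) (by linarith) ht2
    (by
      apply ball_subset_ball'
      linarith)
    (by
      have h1 : √ρ ≤ √r := Real.sqrt_le_sqrt (by linarith)
      have h2 : 2 * CM * √E * √ρ ≤ 2 * CM * √E * √r := mul_le_mul_of_nonneg_left h1 (by positivity)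
      linarith)
    (by
      intro τ hτ z hz
      rw [mem_closedBall] at hz
      rw [mol_cutG hζG τ hρ (by
        apply ball_subset_ball'
        have := dist_triangle z y b
        linarith)]
      apply hvel τ _ z _ ρ ⟨hρ, by linarith⟩
      · refine ⟨?_, hτ.2⟩
        have h1 : 2 * r ^ 2 ≤ (a + 4) * r ^ 2 :=
          mul_le_mul_of_nonneg_right (by linarith only [ha]) hr2.le
        linarith only [hτ.1, h1, hρ2]
      · rw [mem_closedBall]
        have := dist_triangle z y x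
        linarith)
    (by
      rw [← had]
      simp only [hcutI]
      have h1 : t - (a * ρ) ^ 2 ≤ t - 2 * ρ ^ 2 := by
        have h0 : (8 * ρ) ^ 2 ≤ (a * ρ) ^ 2 :=
          pow_le_pow_left₀ (by positivity) (mul_le_mul_of_nonneg_right ha8 hρ.le) 2
        have h00 : (8 * ρ) ^ 2 = 64 * ρ ^ 2 := by ring
        linarith
      have h2 : a * ρ ≤ a * r := mul_le_mul_of_nonneg_left (by linarith only [hρr, hr]) ha
      refine (hlint y (a * ρ) (t - 2 * ρ ^ 2) (by rw [mem_closedBall]; linarith only [hyx', hr200, hr])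
        (mul_pos (by linarith only [ha8]) hρ) (by linarith only [h2, hr]) h1
        (by linarith only [hρ20])).trans ?_
      apply ENNReal.ofReal_le_ofReal
      have h3 := mul_le_mul_of_nonneg_right hJ' hρ.le
      linarith only [h3])
    (by
      rw [← had]
      unfold DD
      simp only [hcutI]
      exact hD)
  rw [← hR] at key
  -- the scales
  have hhr : R / 2 ^ N / 16 * r ≤ R * ρ / 16 := by
    have h1 : r / 2 ^ N ≤ ρ := by
      rw [hρd]
      unfold sc
      apply div_le_div_of_nonneg_left hr.le (by positivity)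
      exact pow_le_pow_right₀ (by norm_num) (by omega)
    have h2 : R / 2 ^ N / 16 * r = R * (r / 2 ^ N) / 16 := by ring
    rw [h2]
    have h3 : R * (r / 2 ^ N) ≤ R * ρ := mul_le_mul_of_nonneg_left h1 hR0.le
    linarith
  have hh0 : 0 < R / 2 ^ N / 16 * r := by positivity
  have hRρ : 0 < R * ρ := by positivity
  intro z hz n' i j
  have hz1 : z ∈ ball y (R * ρ / 16) := ball_subset_ball hhr hz
  have hz2 : z ∈ ball b (7 / 8 * ρ₀) := by
    apply hball
    apply ball_subset_ball _ hz1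
    have h1 : R * ρ ≤ 1 * ρ := mul_le_mul_of_nonneg_right hR1 hρ.le
    have h2 : 8 * ρ ≤ a * ρ := mul_le_mul_of_nonneg_right ha8 hρ.le
    linarith only [h1, h2, hρ]
  have h1 := key z hz1 n' i j
  rw [om_cutG hG hζG u t hz2 n' i j] at h1
  rw [SQ_eq]
  refine (show SS n' (cur i j (u t)) z ≤ _ from h1).trans ?_
  have hc0 : 0 < c := by linarith
  apply pow_le_pow_left₀ (by positivity)
  apply div_le_div_of_nonneg_left (by positivity) (by positivity)
  apply pow_le_pow_left₀ hh0.le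
  linarith

end Pool.Agent.Q85.VL
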