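import Pool.Agent.Q85.VL.Defs
import Pool.Agent.Q151.CC.Double

/-!
Project VL, part VL-13: mollification of a function which increases along the arcs (helper36).
-/

set_option autoImplicit false

open MeasureTheory Set Metric Filter Topology
open scoped ContDiff NNReal
open H459R3.NS Pool.Agent.W268.NS Pool.Agent.Q67.VD

namespace Pool.Agent.Q85.VL.Mol

open Pool.Agent.Q85.CC Pool.Agent.Q85.CL Pool.Agent.Q151.CC Pool.Agent.Q85.VL

/-! ### the Euclidean length -/

lemma len_eq (a : V) : len a = ‖(WithLp.toLp 2 a : EuclideanSpace ℝ (Fin 3))‖ := by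
  rw [EuclideanSpace.norm_eq]
  unfold len
  congr 1
  simp only [dotProduct, Real.norm_eq_abs, sq_abs]
  exact Finset.sum_congr rfl fun i _ => (pow_two (a i)).symm

lemma len_nn (a : V) : 0 ≤ len a := Real.sqrt_nonneg _

lemma len_add (a b : V) : len (a + b) ≤ len a + len b := by
  rw [len_eq, len_eq, len_eq, WithLp.toLp_add]
  exact norm_add_le _ _

lemma len_smul (c : ℝ) (a : V) : len (c • a) = |c| * len a := by
  rw [len_eq, len_eq, WithLp.toLp_smul, norm_smul, Real.norm_eq_abs]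

lemma nlen (a : V) : ‖a‖ ≤ len a := by
  unfold len
  rw [pi_norm_le_iff_of_nonneg (Real.sqrt_nonneg _)]
  intro i
  rw [Real.norm_eq_abs]
  apply Real.abs_le_sqrt
  rw [dotProduct, pow_two]
  exact Finset.single_le_sum (f := fun i => a i * a i) (fun j _ => mul_self_nonneg _)
    (Finset.mem_univ i)

lemma len_le (a : V) : len a ≤ 2 * ‖a‖ := by
  unfold len
  rw [Real.sqrt_le_left (by positivity)]
  rw [dotProduct, Fin.sum_univ_three]
  have h : ∀ i, a i * a i ≤ ‖a‖ ^ 2 := fun i => by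
    have h1 := norm_le_pi_norm a i
    rw [Real.norm_eq_abs] at h1
    have h2 : |a i| ^ 2 ≤ ‖a‖ ^ 2 := pow_le_pow_left₀ (abs_nonneg _) h1 2
    rw [sq_abs] at h2
    nlinarith
  have h0 := h 0
  have h1 := h 1
  have h2 := h 2
  nlinarith [sq_nonneg ‖a‖]

/-! ### derivatives -/

lemma fd_le {G : V → ℝ} (hG : ContDiff ℝ 1 G) (hl : ∀ y y', |G y - G y'| ≤ len (y - y')) (y w : V) :
    |fderiv ℝ G y w| ≤ len w := by
  have h1 : HasDerivAt (fun t : ℝ => y + t • w) w 0 := by
    simpa using ((hasDerivAt_id (0 : ℝ)).smul_const w).const_add y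
  have h2 : HasFDerivAt G (fderiv ℝ G y) (y + (0 : ℝ) • w) := by
    rw [zero_smul, add_zero]
    exact (hG.differentiable one_ne_zero y).hasFDerivAt
  have h3 : HasDerivAt (fun t : ℝ => G (y + t • w)) (fderiv ℝ G y w) 0 :=
    h2.comp_hasDerivAt (0 : ℝ) h1
  have h4 := h3.le_of_lip' (len_nn w) (Eventually.of_forall fun t => by
    rw [Real.norm_eq_abs, Real.norm_eq_abs, sub_zero, zero_smul, add_zero]
    refine (hl _ _).trans (le_of_eq ?_)
    rw [add_sub_cancel_left, len_smul, mul_comm])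
  rwa [Real.norm_eq_abs] at h4

lemma fd_ge {G : V → ℝ} (hG : ContDiff ℝ 1 G) {y w : V} {c δ : ℝ} (hδ : 0 < δ)
    (h : ∀ l, 0 < l → l ≤ δ → c * l ≤ G (y + l • w) - G y) : c ≤ fderiv ℝ G y w := by
  have h1 : HasDerivAt (fun t : ℝ => y + t • w) w 0 := by
    simpa using ((hasDerivAt_id (0 : ℝ)).smul_const w).const_add y
  have h2 : HasFDerivAt G (fderiv ℝ G y) (y + (0 : ℝ) • w) := by
    rw [zero_smul, add_zero]
    exact (hG.differentiable one_ne_zero y).hasFDerivAt
  have h3 : HasDerivAt (fun t : ℝ => G (y + t • w)) (fderiv ℝ G y w) 0 :=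
    h2.comp_hasDerivAt (0 : ℝ) h1
  have h4 := h3.tendsto_slope_zero_right
  refine ge_of_tendsto h4 ?_
  have h5 : Ioc (0 : ℝ) δ ∈ 𝓝[>] (0 : ℝ) := Ioc_mem_nhdsGT hδ
  filter_upwards [h5] with l hl
  have h6 := h l hl.1 hl.2
  simp only [zero_add, zero_smul, add_zero, smul_eq_mul]
  rw [inv_mul_eq_div, le_div_iff₀ hl.1]
  exact h6

/-! ### integral curves -/

open ODE in
lemma pl_mem {f : ℝ → V → V} {tmin tmax : ℝ} {t₀ : Icc tmin tmax} {x₀ x : V} {a r L K : ℝ≥0}
    (hf : IsPicardLindelof f t₀ x₀ a r L K) (hx : x ∈ closedBall x₀ r) :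
    ∃ α : ℝ → V, α t₀ = x ∧ ∀ t ∈ Icc tmin tmax, α t ∈ closedBall x₀ a ∧
      HasDerivWithinAt α (f t (α t)) (Icc tmin tmax) t := by
  obtain ⟨α, hα⟩ := FunSpace.exists_isFixedPt_next hf hx
  refine ⟨α.compProj, by rw [FunSpace.compProj_val, ← hα, FunSpace.next_apply₀], fun t ht ↦
    ⟨α.compProj_mem_closedBall hf.mul_max_le, ?_⟩⟩
  apply hasDerivWithinAt_picard_Icc t₀.2 hf.continuousOn_uncurry
    α.continuous_compProj.continuousOn (fun _ ht' ↦ α.compProj_mem_closedBall hf.mul_max_le)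
    x ht |>.congr_of_mem _ ht
  intro t' ht'
  nth_rw 1 [← hα]
  rw [FunSpace.compProj_of_mem ht', FunSpace.next_apply]

/-- the unit field -/
noncomputable def un (θ : V → ℝ) (v : V → V) (y : V) : V :=
  (len (θ y • vort v y))⁻¹ • (θ y • vort v y)

lemma len_th {θ : V → ℝ} (hθ : ∀ y, θ y = 1 ∨ θ y = -1) (v : V → V) (y : V) :
    len (θ y • vort v y) = om v y := by
  rw [len_smul]
  rcases hθ y with h | h <;> rw [h] <;> simp [om]

lemma len_un {θ : V → ℝ} (hθ : ∀ y, θ y = 1 ∨ θ y = -1) {v : V → V} {y : V} (h : 0 < om v y) :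
    len (un θ v y) = 1 := by
  unfold un
  rw [len_smul, len_th hθ, abs_of_nonneg (inv_nonneg.2 h.le), inv_mul_cancel₀ h.ne']

lemma un_smul {θ : V → ℝ} (hθ : ∀ y, θ y = 1 ∨ θ y = -1) {v : V → V} {y : V} (h : 0 < om v y) :
    om v y • un θ v y = θ y • vort v y := by
  unfold un
  rw [len_th hθ, smul_smul, mul_inv_cancel₀ h.ne', one_smul]

lemma vort_c1 {v : V → V} (hv : SM v) : ContDiff ℝ 1 (vort v) := by
  rw [contDiff_pi]
  have h := sw_df hv 0 0
  have e : sw v 0 0 = vort v := by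
    funext y i
    simp [sw]
  rw [e] at h
  exact h.smooth

lemma un_c1 {θ : V → ℝ} (hθ : ∀ y, θ y = 1 ∨ θ y = -1) {v : V → V} (hv : SM v) {C : Set V} {y : V}
    (hC : ∀ p ∈ C, 0 < om v p ∧ θ p = θ y) : ContDiffOn ℝ 1 (un θ v) C := by
  have h1 : ContDiffOn ℝ 1 (fun p => (√(vort v p ⬝ᵥ vort v p))⁻¹ • (θ y • vort v p)) C := by
    intro p hp
    have h2 : ContDiff ℝ 1 (fun p => vort v p ⬝ᵥ vort v p) := by
      simp only [dotProduct]
      exact ContDiff.sum fun i _ =>
        (contDiff_pi.1 (vort_c1 hv) i).mul (contDiff_pi.1 (vort_c1 hv) i)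
    have h3 : 0 < om v p := (hC p hp).1
    unfold om len at h3
    have h4 : vort v p ⬝ᵥ vort v p ≠ 0 := (Real.sqrt_pos.1 h3).ne'
    have h5 : ContDiffAt ℝ 1 (fun p => (√(vort v p ⬝ᵥ vort v p))⁻¹) p :=
      (h2.contDiffAt.sqrt h4).inv h3.ne'
    have h6 : ContDiffAt ℝ 1 (fun p => θ y • vort v p) p :=
      ((vort_c1 hv).const_smul (θ y)).contDiffAt
    exact (h5.smul h6).contDiffWithinAt
  refine h1.congr fun p hp => ?_
  unfold un
  rw [len_th hθ, (hC p hp).2]
  rfl

/-- the arc which starts at `y'` -/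
lemma arc {θ : V → ℝ} (hθ : ∀ y, θ y = 1 ∨ θ y = -1) {v : V → V} (hv : SM v) {D : Set V} {y : V}
    {δ η : ℝ}
    (hC : ∀ p ∈ closedBall y (2 * δ), 0 < om v p ∧ θ p = θ y ∧ p ∈ D ∧ ‖un θ v p - un θ v y‖ ≤ η)
    {y' : V} (hy' : y' ∈ closedBall y δ) {l : ℝ} (hl : 0 < l) (hlδ : l ≤ δ) :
    ∃ q, Arc (fun y => θ y • vort v y) D y' q l ∧ ‖q - (y' + l • un θ v y)‖ ≤ η * l := by
  have hδ : 0 < δ := hl.trans_le hlδ
  obtain ⟨K, hK⟩ := (un_c1 hθ hv (C := closedBall y (2 * δ)) (y := y)
    fun p hp => ⟨(hC p hp).1, (hC p hp).2.1⟩).exists_lipschitzOnWith one_ne_zero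
    (convex_closedBall _ _) (isCompact_closedBall _ _)
  have hsub : closedBall y' δ ⊆ closedBall y (2 * δ) := by
    intro p hp
    rw [mem_closedBall] at hp hy' ⊢
    linarith [dist_triangle p y' y]
  have hpl : IsPicardLindelof (fun _ => un θ v) (tmin := 0) (tmax := l) ⟨0, by simp [hl.le]⟩ y'
      ⟨δ, hδ.le⟩ 0 1 K := by
    refine IsPicardLindelof.of_time_independent (fun p hp => ?_) (hK.mono hsub) ?_
    · have h1 := nlen (un θ v p)
      rw [len_un hθ (hC p (hsub hp)).1] at h1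
      simpa using h1
    · simp only [NNReal.coe_one, sub_zero, one_mul, NNReal.coe_zero, sub_self]
      exact max_le hlδ hδ.le
  obtain ⟨γ, h0, hγ⟩ := pl_mem hpl (mem_closedBall_self le_rfl)
  refine ⟨γ l, ⟨hl, γ, h0, rfl, fun s hs => ⟨(hC _ (hsub (hγ s hs).1)).2.2.1, (hγ s hs).2⟩⟩, ?_⟩
  have hd : ∀ s ∈ Icc (0 : ℝ) l, HasDerivWithinAt (fun s => γ s - s • un θ v y)
      (un θ v (γ s) - un θ v y) (Icc 0 l) s := fun s hs => by
    have h1 := (hγ s hs).2
    have h2 : HasDerivWithinAt (fun s : ℝ => s • un θ v y) (un θ v y) (Icc 0 l) s := by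
      simpa using ((hasDerivWithinAt_id s (Icc 0 l)).smul_const (un θ v y))
    exact h1.sub h2
  have h3 := (convex_Icc (0 : ℝ) l).norm_image_sub_le_of_norm_hasDerivWithin_le hd
    (fun s hs => (hC _ (hsub (hγ s hs).1)).2.2.2) (left_mem_Icc.2 hl.le) (right_mem_Icc.2 hl.le)
  have h0' : γ 0 = y' := h0
  rw [h0', zero_smul, sub_zero, sub_zero, Real.norm_of_nonneg hl.le] at h3
  refine (le_of_eq ?_).trans h3
  congr 1
  abel

/-! ### the neighbourhood -/

lemma nb {θ m : V → ℝ} {v : V → V} (hv : SM v) {a : V} {R η : ℝ} (hR : 0 < R) (hη : 0 < η)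
    (hm : Continuous m) (hθ : Orient θ a R (vort v)) :
    ∃ δ : ℝ, 0 < δ ∧ ∀ y, ‖y - a‖ ≤ R / 2 → m y + 1 ≤ om v y → 0 ≤ m y →
      ∀ p ∈ closedBall y (2 * δ), 0 < om v p ∧ θ p = θ y ∧
        p ∈ {y | ‖y - a‖ ≤ R ∧ m y < om v y} ∧ ‖un θ v p - un θ v y‖ ≤ η := by
  have hc1 : Continuous (om v) := om_cont hv
  have hc2 : Continuous (vort v) := vort_cont hv
  have hF : Continuous fun p => (om v p, m p, vort v p) := hc1.prodMk (hm.prodMk hc2)
  have hu := (isCompact_closedBall a R).uniformContinuousOn_of_continuous hF.continuousOn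
  rw [Metric.uniformContinuousOn_iff] at hu
  obtain ⟨δ₀, hδ₀, hu⟩ := hu (min (1 / 4) (η / 2)) (by positivity)
  refine ⟨min (δ₀ / 4) (R / 4), by positivity, fun y hy hom hm0 p hp => ?_⟩
  have key : ∀ p ∈ closedBall y (2 * min (δ₀ / 4) (R / 4)), p ∈ closedBall a R ∧
      |om v p - om v y| < min (1 / 4) (η / 2) ∧ |m p - m y| < min (1 / 4) (η / 2) ∧
      ‖vort v p - vort v y‖ < min (1 / 4) (η / 2) := by
    intro p hp
    rw [mem_closedBall] at hp
    have h1 : dist p y ≤ R / 2 := hp.trans (by linarith [min_le_right (δ₀ / 4) (R / 4)])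
    have h2 : dist p y < δ₀ := hp.trans_lt (by linarith [min_le_left (δ₀ / 4) (R / 4)])
    have h3 : dist y a ≤ R / 2 := by rwa [dist_eq_norm]
    have h4 : p ∈ closedBall a R := by
      rw [mem_closedBall]
      linarith [dist_triangle p y a]
    have h5 : y ∈ closedBall a R := by
      rw [mem_closedBall]
      linarith
    have h6 := hu p h4 y h5 h2
    simp only [Prod.dist_eq, max_lt_iff] at h6
    refine ⟨h4, ?_, ?_, ?_⟩
    · rw [← Real.dist_eq]; exact h6.1
    · rw [← Real.dist_eq]; exact h6.2.1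
    · rw [← dist_eq_norm]; exact h6.2.2
  have hpos : ∀ p ∈ closedBall y (2 * min (δ₀ / 4) (R / 4)), m p < om v p ∧ 1 / 2 < om v p := by
    intro p hp
    obtain ⟨-, h1, h2, -⟩ := key p hp
    have h3 := min_le_left (1 / 4 : ℝ) (η / 2)
    rw [abs_lt] at h1 h2
    constructor <;> linarith [h1.1, h2.2]
  have hth : θ p = θ y := by
    have hcon : ContinuousOn θ (closedBall y (2 * min (δ₀ / 4) (R / 4))) := by
      refine hθ.2.mono fun q hq => ⟨?_, fun h0 => ?_⟩
      · have := (key q hq).1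
        rwa [mem_closedBall, dist_eq_norm] at this
      · have h1 := (hpos q hq).2
        unfold om len at h1
        rw [h0] at h1
        simp at h1
        linarith
    have hpre : IsPreconnected (θ '' closedBall y (2 * min (δ₀ / 4) (R / 4))) :=
      ((convex_closedBall y _).isPreconnected).image θ hcon
    have ho := hpre.ordConnected
    have hy' : y ∈ closedBall y (2 * min (δ₀ / 4) (R / 4)) :=
      mem_closedBall_self (by positivity)
    have no0 : (0 : ℝ) ∉ θ '' closedBall y (2 * min (δ₀ / 4) (R / 4)) := by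
      rintro ⟨q, -, hq⟩
      rcases hθ.1 q with h | h <;> rw [h] at hq <;> norm_num at hq
    rcases hθ.1 p with h1 | h1 <;> rcases hθ.1 y with h2 | h2
    · rw [h1, h2]
    · exfalso
      apply no0
      exact ho.out ⟨y, hy', h2⟩ ⟨p, hp, h1⟩ ⟨by norm_num, by norm_num⟩
    · exfalso
      apply no0
      exact ho.out ⟨p, hp, h1⟩ ⟨y, hy', h2⟩ ⟨by norm_num, by norm_num⟩
    · rw [h1, h2]
  obtain ⟨ha, h1, h2, h3⟩ := key p hp
  obtain ⟨h4, h5⟩ := hpos p hp
  refine ⟨by linarith, hth, ⟨?_, h4⟩, ?_⟩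
  · rwa [mem_closedBall, dist_eq_norm] at ha
  · have hy1 : 1 ≤ om v y := by linarith
    have e : un θ v p - un θ v y = θ y • ((om v y)⁻¹ • (vort v p - vort v y)
        + ((om v p)⁻¹ - (om v y)⁻¹) • vort v p) := by
      unfold un
      rw [len_th hθ.1, len_th hθ.1, hth]
      simp only [smul_sub, smul_add, sub_smul, smul_smul]
      rw [mul_comm (θ y) (om v y)⁻¹, mul_comm (θ y) (om v p)⁻¹]
      abel
    have hη2 := min_le_right (1 / 4 : ℝ) (η / 2)
    have n1 : ‖θ y‖ = 1 := by rcases hθ.1 y with h | h <;> rw [h] <;> simp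
    have n2 : ‖(om v y)⁻¹ • (vort v p - vort v y)‖ ≤ η / 2 := by
      rw [norm_smul, norm_inv, Real.norm_of_nonneg (by linarith)]
      have : (om v y)⁻¹ ≤ 1 := inv_le_one_of_one_le₀ hy1
      have h0 : 0 ≤ (om v y)⁻¹ := by positivity
      nlinarith [norm_nonneg (vort v p - vort v y)]
    have n3 : ‖((om v p)⁻¹ - (om v y)⁻¹) • vort v p‖ ≤ η / 2 := by
      have hp0 : 0 < om v p := by linarith
      have e1 : (om v p)⁻¹ - (om v y)⁻¹ = (om v y - om v p) / (om v p * om v y) := by
        field_simp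
      rw [norm_smul, e1, norm_div, Real.norm_eq_abs, Real.norm_of_nonneg (by positivity),
        abs_sub_comm]
      have h6 : ‖vort v p‖ ≤ om v p := nlen _
      have h7 : |om v p - om v y| / (om v p * om v y) * ‖vort v p‖ ≤ |om v p - om v y| := by
        rw [div_mul_eq_mul_div, div_le_iff₀ (by positivity)]
        have h8 : ‖vort v p‖ ≤ om v p * om v y := by nlinarith
        exact mul_le_mul_of_nonneg_left h8 (abs_nonneg _)
      linarith
    rw [e, norm_smul, n1, one_mul]
    linarith [norm_add_le ((om v y)⁻¹ • (vort v p - vort v y))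
      (((om v p)⁻¹ - (om v y)⁻¹) • vort v p)]

/-! ### mollification -/

/-- the mollified function -/
noncomputable def ml (φ : ContDiffBump (0 : V)) (g : V → ℝ) (y : V) : ℝ :=
  ∫ t, φ.normed volume t * g (y - t)

lemma g_cont {g : V → ℝ} (hl : ∀ y y', |g y - g y'| ≤ len (y - y')) : Continuous g := by
  have h : LipschitzWith 2 g := by
    refine LipschitzWith.of_dist_le_mul fun x y => ?_
    rw [Real.dist_eq, dist_eq_norm]
    exact (hl x y).trans (len_le _)
  exact h.continuous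

lemma ml_c1 (φ : ContDiffBump (0 : V)) {g : V → ℝ} (hg : Continuous g) :
    ContDiff ℝ 1 (ml φ g) := by
  have h := HasCompactSupport.contDiff_convolution_left (n := 1) (ContinuousLinearMap.mul ℝ ℝ)
    (μ := (volume : Measure V)) (φ.hasCompactSupport_normed (μ := (volume : Measure V)))
    (φ.contDiff_normed) hg.locallyIntegrable
  have e : ml φ g = convolution (φ.normed volume) g (ContinuousLinearMap.mul ℝ ℝ) volume := by
    funext y
    rfl
  rw [e]
  exact_mod_cast h

lemma ml_int (φ : ContDiffBump (0 : V)) {g : V → ℝ} (hg : Continuous g) (y : V) :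
    Integrable fun t => φ.normed volume t * g (y - t) := by
  refine Continuous.integrable_of_hasCompactSupport ?_ ?_
  · exact φ.continuous_normed.mul (hg.comp (continuous_const.sub continuous_id))
  · exact (φ.hasCompactSupport_normed (μ := (volume : Measure V))).mul_right

lemma ml_sub (φ : ContDiffBump (0 : V)) {g : V → ℝ} (hg : Continuous g) (y y' : V) :
    ml φ g y - ml φ g y' = ∫ t, φ.normed volume t * (g (y - t) - g (y' - t)) := by
  unfold ml
  rw [← integral_sub (ml_int φ hg y) (ml_int φ hg y')]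
  simp only [mul_sub]

lemma ml_cst (φ : ContDiffBump (0 : V)) (c : ℝ) :
    ∫ t, φ.normed (volume : Measure V) t * c = c := by
  rw [integral_mul_const, φ.integral_normed, one_mul]

lemma ml_lip (φ : ContDiffBump (0 : V)) {g : V → ℝ} (hl : ∀ y y', |g y - g y'| ≤ len (y - y'))
    (y y' : V) : |ml φ g y - ml φ g y'| ≤ len (y - y') := by
  rw [ml_sub φ (g_cont hl), ← Real.norm_eq_abs]
  calc ‖∫ t, φ.normed volume t * (g (y - t) - g (y' - t))‖
      ≤ ∫ t, φ.normed volume t * len (y - y') := by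
        refine norm_integral_le_of_norm_le ?_ (Eventually.of_forall fun t => ?_)
        · exact φ.integrable_normed.mul_const _
        · rw [norm_mul, Real.norm_of_nonneg (φ.nonneg_normed t), Real.norm_eq_abs]
          refine mul_le_mul_of_nonneg_left ?_ (φ.nonneg_normed t)
          have := hl (y - t) (y' - t)
          rwa [sub_sub_sub_cancel_right] at this
    _ = len (y - y') := ml_cst φ _

lemma ml_low (φ : ContDiffBump (0 : V)) {g : V → ℝ} (hg : Continuous g) {y y' : V} {c : ℝ}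
    (h : ∀ t, ‖t‖ < φ.rOut → c ≤ g (y - t) - g (y' - t)) : c ≤ ml φ g y - ml φ g y' := by
  rw [ml_sub φ hg]
  calc c = ∫ t, φ.normed (volume : Measure V) t * c := (ml_cst φ c).symm
    _ ≤ _ := by
      refine integral_mono (φ.integrable_normed.mul_const _) ?_ fun t => ?_
      · simp only [mul_sub]
        exact (ml_int φ hg y).sub (ml_int φ hg y')
      · by_cases ht : ‖t‖ < φ.rOut
        · exact mul_le_mul_of_nonneg_left (h t ht) (φ.nonneg_normed t)
        · have h0 : φ.normed volume t = 0 := by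
            by_contra hne
            have h1 : t ∈ Function.support (φ.normed (volume : Measure V)) := hne
            rw [φ.support_normed_eq, Metric.mem_ball, dist_zero_right] at h1
            exact ht h1
          simp [h0]

end Pool.Agent.Q85.VL.Mol

namespace Pool.Agent.Q85.VL

open Pool.Agent.Q85.CC Pool.Agent.Q85.CL Pool.Agent.Q151.CC Pool.Agent.Q85.VL.Mol

theorem t_Mol : StmMol := by
  intro v θ m g a R ε hv hR hε hε1 hm hm0 hθ hl harc
  obtain ⟨δ, hδ, hnb⟩ := nb (η := ε / 8) hv hR (by positivity) hm hθ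
  have hg := g_cont hl
  let φ : ContDiffBump (0 : V) := ⟨δ / 2, δ, by positivity, by linarith⟩
  refine ⟨ml φ g, ml_c1 φ hg, ml_lip φ hl, fun y hy => ?_⟩
  have hd := fd_le (ml_c1 φ hg) (ml_lip φ hl) y (θ y • vort v y)
  rw [len_th hθ.1, abs_le] at hd
  have hom : 0 ≤ om v y := len_nn _
  rcases le_total (om v y) (m y + 1) with hc | hc
  · have h0 := hm0 y
    nlinarith [hd.1]
  · have hC := hnb y hy hc (hm0 y)
    have hpos : 0 < om v y := by linarith [hm0 y]
    have h1 : 3 / 4 * ε ≤ fderiv ℝ (ml φ g) y (un θ v y) := by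
      refine fd_ge (ml_c1 φ hg) hδ fun l hl0 hlδ => ml_low φ hg fun t ht => ?_
      have ht' : y - t ∈ closedBall y δ := by
        rw [mem_closedBall, dist_eq_norm, sub_sub_cancel_left, norm_neg]
        exact ht.le
      obtain ⟨q, hq, hq2⟩ := arc hθ.1 hv hC ht' hl0 hlδ
      have h2 := harc _ _ _ hq
      have h3 := hl (y + l • un θ v y - t) q
      have h4 : len (y + l • un θ v y - t - q) ≤ 2 * (ε / 8 * l) := by
        refine (len_le _).trans ?_
        have e : y + l • un θ v y - t - q = -(q - (y - t + l • un θ v y)) := by abel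
        rw [e, norm_neg]
        linarith
      rw [abs_le] at h3
      nlinarith [h3.1]
    have h2 : fderiv ℝ (ml φ g) y (θ y • vort v y)
        = om v y * fderiv ℝ (ml φ g) y (un θ v y) := by
      rw [← un_smul hθ.1 hpos, map_smul, smul_eq_mul]
    rw [h2]
    have h3 := hm0 y
    have h4 : om v y * (3 / 4 * ε) ≤ om v y * fderiv ℝ (ml φ g) y (un θ v y) :=
      mul_le_mul_of_nonneg_left h1 hom
    nlinarith [mul_nonneg hom hε.le]

end Pool.Agent.Q85.VL
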