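import Pool.Agent.Helper24.VL.Sc

/-!
Project VL: the flux leaves a cube (VL-5).
-/

set_option autoImplicit false

open MeasureTheory Set Metric Filter Topology
open scoped ContDiff
open H459R3.NS Pool.Agent.W268.NS Pool.Agent.Q67.VD

namespace Pool.Agent.Q85.VL

open Pool.Agent.Q85.CC Pool.Agent.Q85.CL Pool.Agent.Q151.CC

/-- The cut-off function of one variable. -/
noncomputable def cu (a w t : ℝ) : ℝ := 1 - stp ((t - a) / (2 * w)) - stp ((-t - a) / (2 * w))

noncomputable def cu' (a w t : ℝ) : ℝ :=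
  (stp' ((-t - a) / (2 * w)) - stp' ((t - a) / (2 * w))) / (2 * w)

section
variable {a w : ℝ}

lemma cu_der (t : ℝ) : HasDerivAt (cu a w) (cu' a w t) t := by
  have h1 : HasDerivAt (fun t : ℝ => (t - a) / (2 * w)) (1 / (2 * w)) t :=
    ((hasDerivAt_id t).sub_const a).div_const _
  have h2 : HasDerivAt (fun t : ℝ => (-t - a) / (2 * w)) (-1 / (2 * w)) t :=
    ((hasDerivAt_neg t).sub_const a).div_const _
  have h3 := (stp_der ((t - a) / (2 * w))).comp t h1
  have h4 := (stp_der ((-t - a) / (2 * w))).comp t h2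
  have h5 := (h3.const_sub 1).sub h4
  refine h5.congr_deriv ?_
  unfold cu'
  ring

lemma cu_zero (ha : 0 < a) (hw : 0 < w) {t : ℝ} (ht : a + 2 * w ≤ |t|) : cu a w t = 0 := by
  unfold cu
  rcases le_total 0 t with h | h
  · rw [abs_of_nonneg h] at ht
    rw [stp_one ((le_div_iff₀ (by positivity)).2 (by linarith)),
      stp_zero (div_nonpos_of_nonpos_of_nonneg (by linarith) (by positivity))]
    norm_num
  · rw [abs_of_nonpos h] at ht
    rw [stp_zero (div_nonpos_of_nonpos_of_nonneg (by linarith) (by positivity)),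
      stp_one ((le_div_iff₀ (by positivity)).2 (by linarith))]
    norm_num

lemma cu_one (hw : 0 < w) {t : ℝ} (ht : |t| ≤ a) : cu a w t = 1 := by
  unfold cu
  have h := abs_le.1 ht
  rw [stp_zero (div_nonpos_of_nonpos_of_nonneg (by linarith) (by positivity)),
    stp_zero (div_nonpos_of_nonpos_of_nonneg (by linarith) (by positivity))]
  norm_num

lemma cu_mem (ha : 0 < a) (hw : 0 < w) (t : ℝ) : 0 ≤ cu a w t ∧ cu a w t ≤ 1 := by
  unfold cu
  have h1 := stp_nonneg ((t - a) / (2 * w))
  have h2 := stp_nonneg ((-t - a) / (2 * w))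
  have h3 := stp_le_one ((t - a) / (2 * w))
  have h4 := stp_le_one ((-t - a) / (2 * w))
  refine ⟨?_, by linarith⟩
  rcases le_total 0 t with h | h
  · rw [stp_zero (s := (-t - a) / (2 * w))
      (div_nonpos_of_nonpos_of_nonneg (by linarith) (by positivity))]
    linarith
  · rw [stp_zero (s := (t - a) / (2 * w))
      (div_nonpos_of_nonpos_of_nonneg (by linarith) (by positivity))]
    linarith

lemma cu'_le (ha : 0 < a) (hw : 0 < w) (t : ℝ) : |cu' a w t| ≤ 3 / (4 * w) := by
  unfold cu'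
  rw [abs_div, abs_of_pos (by positivity : 0 < 2 * w), div_le_div_iff₀ (by positivity)
    (by positivity)]
  have h1 := stp'_nonneg ((t - a) / (2 * w))
  have h2 := stp'_nonneg ((-t - a) / (2 * w))
  have h3 := stp'_le ((t - a) / (2 * w))
  have h4 := stp'_le ((-t - a) / (2 * w))
  have h5 : |stp' ((-t - a) / (2 * w)) - stp' ((t - a) / (2 * w))| ≤ 3 / 2 := by
    rw [abs_le]
    constructor <;> linarith
  nlinarith

end

/-- The cut-off function of the cube. -/
noncomputable def cq (x : V) (a w : ℝ) (y : V) : ℝ :=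
  cu a w (y 0 - x 0) * cu a w (y 1 - x 1) * cu a w (y 2 - x 2)

section
variable {x : V} {a w : ℝ}

lemma cuy_fd (x : V) (a w : ℝ) (i : Fin 3) (y : V) :
    HasFDerivAt (fun y : V => cu a w (y i - x i))
      (cu' a w (y i - x i) • (ContinuousLinearMap.proj (R := ℝ) (φ := fun _ : Fin 3 => ℝ) i)) y := by
  have h1 : HasFDerivAt (fun y : V => y i - x i)
      (ContinuousLinearMap.proj (R := ℝ) (φ := fun _ : Fin 3 => ℝ) i) y :=
    (ContinuousLinearMap.proj (R := ℝ) (φ := fun _ : Fin 3 => ℝ) i).hasFDerivAt.sub_const (x i)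
  exact (cu_der (a := a) (w := w) (y i - x i)).comp_hasFDerivAt y h1

lemma cq_c1 (x : V) (a w : ℝ) : ContDiff ℝ 1 (cq x a w) := by
  have h0 : ContDiff ℝ 1 (cu a w) := by
    unfold cu
    have h1 : ContDiff ℝ 1 fun t : ℝ => (t - a) / (2 * w) := by fun_prop
    have h2 : ContDiff ℝ 1 fun t : ℝ => (-t - a) / (2 * w) := by fun_prop
    exact (contDiff_const.sub (stp_c1.comp h1)).sub (stp_c1.comp h2)
  have h1 : ∀ i : Fin 3, ContDiff ℝ 1 fun y : V => cu a w (y i - x i) := by
    intro i
    exact h0.comp (by fun_prop)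
  show ContDiff ℝ 1 fun y : V => cu a w (y 0 - x 0) * cu a w (y 1 - x 1) * cu a w (y 2 - x 2)
  exact ((h1 0).mul (h1 1)).mul (h1 2)

lemma sum_abs_le (n : V) : |n 0| + |n 1| + |n 2| ≤ 7 / 4 * len n := by
  have h1 := ln_sq n
  simp only [dotProduct, Fin.sum_univ_three] at h1
  refine abs_le_of_sq_le_sq' ?_ (mul_nonneg (by norm_num) (ln_nonneg n)) |>.2
  have e0 := abs_mul_abs_self (n 0)
  have e1 := abs_mul_abs_self (n 1)
  have e2 := abs_mul_abs_self (n 2)
  nlinarith [sq_nonneg (|n 0| - |n 1|), sq_nonneg (|n 1| - |n 2|), sq_nonneg (|n 0| - |n 2|)]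

lemma cq_fd (ha : 0 < a) (hw : 0 < w) (y n : V) : |fderiv ℝ (cq x a w) y n| ≤ 2 / w * len n := by
  have h0 := cuy_fd x a w 0 y
  have h1 := cuy_fd x a w 1 y
  have h2 := cuy_fd x a w 2 y
  have h3 : HasFDerivAt (cq x a w) _ y := (h0.fun_mul h1).fun_mul h2
  rw [h3.fderiv]
  show |cu a w (y 0 - x 0) * cu a w (y 1 - x 1) * (cu' a w (y 2 - x 2) * n 2)
    + cu a w (y 2 - x 2) * (cu a w (y 0 - x 0) * (cu' a w (y 1 - x 1) * n 1)
      + cu a w (y 1 - x 1) * (cu' a w (y 0 - x 0) * n 0))| ≤ _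
  have hc : ∀ i, |cu a w (y i - x i)| ≤ 1 := fun i => by
    rw [abs_of_nonneg (cu_mem ha hw _).1]
    exact (cu_mem ha hw _).2
  have hd : ∀ i, |cu' a w (y i - x i) * n i| ≤ 3 / (4 * w) * |n i| := fun i => by
    rw [abs_mul]
    exact mul_le_mul_of_nonneg_right (cu'_le ha hw _) (abs_nonneg _)
  have hp : ∀ (p q s : ℝ), |p| ≤ 1 → |q| ≤ 1 → |p * q * s| ≤ |s| := fun p q s h1 h2 => by
    rw [abs_mul, abs_mul]
    have h3 : |p| * |q| ≤ 1 := by
      have := mul_le_mul h1 h2 (abs_nonneg q) zero_le_one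
      linarith
    exact mul_le_of_le_one_left (abs_nonneg _) h3
  have e1 := (hp _ _ (cu' a w (y 2 - x 2) * n 2) (hc 0) (hc 1)).trans (hd 2)
  have e2 := (hp _ _ (cu' a w (y 1 - x 1) * n 1) (hc 2) (hc 0)).trans (hd 1)
  have e3 := (hp _ _ (cu' a w (y 0 - x 0) * n 0) (hc 2) (hc 1)).trans (hd 0)
  have e4 := sum_abs_le n
  have hw' : 0 < 3 / (4 * w) := by positivity
  have e5 := mul_le_mul_of_nonneg_left e4 hw'.le
  have e6 : 3 / (4 * w) * (7 / 4 * len n) ≤ 2 / w * len n := by
    have : 3 / (4 * w) * (7 / 4) ≤ 2 / w := by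
      rw [div_mul_eq_mul_div, div_le_div_iff₀ (by positivity) hw]
      nlinarith
    calc 3 / (4 * w) * (7 / 4 * len n) = 3 / (4 * w) * (7 / 4) * len n := by ring
      _ ≤ _ := mul_le_mul_of_nonneg_right this (ln_nonneg n)
  rw [abs_le] at e1 e2 e3 ⊢
  constructor <;> nlinarith

lemma cq_mem (ha : 0 < a) (hw : 0 < w) (y : V) : 0 ≤ cq x a w y ∧ cq x a w y ≤ 1 := by
  obtain ⟨a0, b0⟩ := cu_mem ha hw (y 0 - x 0)
  obtain ⟨a1, b1⟩ := cu_mem ha hw (y 1 - x 1)
  obtain ⟨a2, b2⟩ := cu_mem ha hw (y 2 - x 2)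
  unfold cq
  exact ⟨mul_nonneg (mul_nonneg a0 a1) a2, mul_le_one₀ (mul_le_one₀ b0 a1 b1) a2 b2⟩

lemma cq_one (hw : 0 < w) {y : V} (hy : ‖y - x‖ ≤ a) : cq x a w y = 1 := by
  have h : ∀ i, |y i - x i| ≤ a := fun i => by
    rw [← Real.norm_eq_abs]
    exact (norm_le_pi_norm (y - x) i).trans hy
  unfold cq
  rw [cu_one hw (h 0), cu_one hw (h 1), cu_one hw (h 2)]
  norm_num

lemma cq_zero (ha : 0 < a) (hw : 0 < w) {y : V} (hy : a + 2 * w ≤ ‖y - x‖) : cq x a w y = 0 := by
  by_contra hc
  unfold cq at hc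
  have h2 := right_ne_zero_of_mul hc
  have h1 := right_ne_zero_of_mul (left_ne_zero_of_mul hc)
  have h0 := left_ne_zero_of_mul (left_ne_zero_of_mul hc)
  have key : ∀ i, cu a w (y i - x i) ≠ 0 → |y i - x i| < a + 2 * w := fun i hi => by
    by_contra hcc
    exact hi (cu_zero ha hw (not_lt.1 hcc))
  have hlt : ‖y - x‖ < a + 2 * w := by
    rw [pi_norm_lt_iff (by linarith)]
    intro i
    rw [Real.norm_eq_abs]
    fin_cases i
    · exact key 0 h0
    · exact key 1 h1
    · exact key 2 h2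
  linarith

/-- The derivative vanishes outside of the shell. -/
lemma cq_shell (ha : 0 < a) (hw : 0 < w) {y : V} (hy : y ∉ Shell x (a + w) w) (n : V) :
    fderiv ℝ (cq x a w) y n = 0 := by
  have hy' : w < |‖y - x‖ - (a + w)| := not_le.1 hy
  have hc : Continuous fun z : V => ‖z - x‖ := (continuous_id.sub continuous_const).norm
  rcases lt_abs.1 hy' with h | h
  · have hev : cq x a w =ᶠ[𝓝 y] fun _ => 0 := by
      have : ∀ᶠ z in 𝓝 y, a + 2 * w < ‖z - x‖ := hc.continuousAt.eventually (lt_mem_nhds (by linarith))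
      filter_upwards [this] with z hz
      exact cq_zero ha hw hz.le
    rw [hev.fderiv_eq]
    simp
  · have hev : cq x a w =ᶠ[𝓝 y] fun _ => 1 := by
      have : ∀ᶠ z in 𝓝 y, ‖z - x‖ < a := hc.continuousAt.eventually (gt_mem_nhds (by linarith))
      filter_upwards [this] with z hz
      exact cq_one hw hz.le
    rw [hev.fderiv_eq]
    simp

end

/-- VL-5. -/
theorem t_FC : StmFC := by
  intro κ ρ R r s w x f m W g hκ hκ1 hρ h hr hrs hw hws hsR
  have hs : 0 < s := hr.trans_le hrs
  have hrR : r ≤ R := by linarith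
  obtain ⟨a, had⟩ : ∃ a, a = s - w := ⟨_, rfl⟩
  have ha : 0 < a := by rw [had]; linarith
  have hsa : s = a + w := by rw [had]; ring
  have hsub : closedBall x (s + w) ⊆ closedBall x R := closedBall_subset_closedBall hsR
  obtain ⟨F, hFd⟩ : ∃ F : V → ℝ, F = fun y => cq x a w y * PS κ ρ g x r y := ⟨_, rfl⟩
  have hχ := cq_c1 x a w
  have hP := PS_c1 (κ := κ) (x := x) hρ h.gs r
  have hF : ContDiff ℝ 1 F := by
    rw [hFd]
    exact hχ.mul hP
  have hsup : ∀ y, F y ≠ 0 → ‖y - x‖ ≤ s + w := by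
    intro y hy
    rw [hFd] at hy
    have h1 : cq x a w y ≠ 0 := left_ne_zero_of_mul hy
    by_contra hc
    exact h1 (cq_zero ha hw (by linarith [not_le.1 hc]))
  have hFfd : ∀ y, fderiv ℝ F y (W y) = cq x a w y *
      (stp' ((uu κ ρ g x y - κ * r / 64) / (κ * r / 64)) / (κ * r / 64) *
        fderiv ℝ (uu κ ρ g x) y (W y))
      + PS κ ρ g x r y * fderiv ℝ (cq x a w) y (W y) := by
    intro y
    rw [hFd, mul_fd hχ hP, PS_fd hρ h.gs]
  have hu := (uu_c1 (κ := κ) (x := x) hρ h.gs).continuous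
  have hmsS : MeasurableSet (Shell x s w ∩ {y | 0 < uu κ ρ g x y}) := by
    refine MeasurableSet.inter ?_ (isOpen_lt continuous_const hu).measurableSet
    exact (isClosed_le ((continuous_id.sub continuous_const).norm.sub continuous_const).abs
      continuous_const).measurableSet
  have hSsub : Shell x s w ∩ {y | 0 < uu κ ρ g x y} ⊆ closedBall x R := by
    rintro y ⟨hy, -⟩
    have h1 := abs_le.1 (show |‖y - x‖ - s| ≤ w from hy)
    rw [mem_closedBall, dist_eq_norm]
    linarith
  have hmain := mas h.wd (P := pr κ ρ g x W m r)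
    (Q := fun y => (closedBall x (s + w)).indicator (fun y => 256 / (κ * r) * m y) y
      + (Shell x s w ∩ {y | 0 < uu κ ρ g x y}).indicator (fun y => 2 / w * f y) y)
    hF hsR hsup (cint (h.pr_cont hρ r) x R)
    ((indc_int h.mc _ x R isClosed_closedBall.measurableSet).add (indc_int h.fc _ x R hmsS)) ?_
  · rw [add_ind _ (indc_int h.mc _ x R isClosed_closedBall.measurableSet) h.fc hmsS hSsub,
      ind_ball hsub, integral_const_mul, add_comm] at hmain
    exact hmain
  · intro y hy
    rw [hFfd]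
    have hf0 := h.f0 hy
    have hm0 := h.m0 y
    have hs0 : 0 ≤ stp' ((uu κ ρ g x y - κ * r / 64) / (κ * r / 64)) / (κ * r / 64) :=
      div_nonneg (stp'_nonneg _) (by positivity)
    have hs1 : stp' ((uu κ ρ g x y - κ * r / 64) / (κ * r / 64)) / (κ * r / 64)
        ≤ 256 / (κ * r) := by
      rw [div_le_div_iff₀ (by positivity) (by positivity)]
      have h1 := stp'_le ((uu κ ρ g x y - κ * r / 64) / (κ * r / 64))
      have h2 : 0 < κ * r := by positivity
      nlinarith
    have hD := h.u_nn hκ hρ hy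
    obtain ⟨hχ0, hχ1⟩ := cq_mem (x := x) ha hw y
    -- the part of the shell
    have e2 : -((Shell x s w ∩ {y | 0 < uu κ ρ g x y}).indicator (fun y => 2 / w * f y) y)
        ≤ PS κ ρ g x r y * fderiv ℝ (cq x a w) y (W y) := by
      by_cases hP0 : PS κ ρ g x r y = 0
      · rw [hP0, zero_mul, neg_nonpos]
        exact indicator_apply_nonneg fun _ => mul_nonneg (by positivity) hf0
      · by_cases hyS : y ∈ Shell x s w
        · have hu0 : 0 < uu κ ρ g x y := by
            unfold PS at hP0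
            exact lt_trans (by positivity) (sPS_mem (by positivity) hP0)
          rw [indicator_of_mem (show y ∈ Shell x s w ∩ {y | 0 < uu κ ρ g x y} from ⟨hyS, hu0⟩)]
          have h1 := abs_le.1 (cq_fd (x := x) ha hw y (W y))
          have h2 : 2 / w * len (W y) ≤ 2 / w * f y :=
            mul_le_mul_of_nonneg_left (h.up y hy) (by positivity)
          have h3 : 0 ≤ PS κ ρ g x r y := stp_nonneg _
          have h4 : PS κ ρ g x r y ≤ 1 := stp_le_one _
          have h5 : 0 ≤ 2 / w * f y := mul_nonneg (by positivity) hf0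
          nlinarith [h1.1]
        · rw [cq_shell ha hw (by rw [← hsa]; exact hyS), mul_zero, neg_nonpos]
          exact indicator_apply_nonneg fun _ => mul_nonneg (by positivity) hf0
    -- the density
    have e1 : pr κ ρ g x W m r y ≤ (closedBall x (s + w)).indicator
        (fun y => 256 / (κ * r) * m y) y + cq x a w y *
      (stp' ((uu κ ρ g x y - κ * r / 64) / (κ * r / 64)) / (κ * r / 64) *
        fderiv ℝ (uu κ ρ g x) y (W y)) := by
      by_cases hys : y ∈ closedBall x (s + w)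
      · rw [indicator_of_mem hys]
        have hTχ : TT κ ρ g x r y * (stp' ((uu κ ρ g x y - κ * r / 64) / (κ * r / 64)) /
            (κ * r / 64) * (fderiv ℝ (uu κ ρ g x) y (W y) + m y))
            ≤ cq x a w y * (stp' ((uu κ ρ g x y - κ * r / 64) / (κ * r / 64)) /
            (κ * r / 64) * (fderiv ℝ (uu κ ρ g x) y (W y) + m y)) := by
          by_cases hpr : pr κ ρ g x W m r y = 0
          · have : TT κ ρ g x r y * (stp' ((uu κ ρ g x y - κ * r / 64) / (κ * r / 64)) /
              (κ * r / 64) * (fderiv ℝ (uu κ ρ g x) y (W y) + m y)) = 0 := hpr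
            rw [this]
            exact mul_nonneg hχ0 (mul_nonneg hs0 hD)
          · have h1 := (pr_supp hκ hr hpr).2.2.2
            have h2 := norm_le_ds x ρ y
            rw [cq_one hw (show ‖y - x‖ ≤ a by linarith)]
            exact mul_le_mul_of_nonneg_right (stp_le_one _) (mul_nonneg hs0 hD)
        refine le_trans (le_of_eq rfl) (hTχ.trans ?_)
        have h3 : cq x a w y * (stp' ((uu κ ρ g x y - κ * r / 64) / (κ * r / 64)) /
            (κ * r / 64)) * m y ≤ 256 / (κ * r) * m y := by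
          refine mul_le_mul_of_nonneg_right ?_ hm0
          calc _ ≤ 1 * (256 / (κ * r)) := mul_le_mul hχ1 hs1 hs0 zero_le_one
            _ = _ := one_mul _
        nlinarith
      · rw [indicator_of_notMem hys]
        have hy2 : y ∉ closedBall x r := fun h0 => hys
          (closedBall_subset_closedBall (by linarith) h0)
        rw [pr_ball hκ hr hy2]
        rw [mem_closedBall, dist_eq_norm, not_le] at hys
        rw [cq_zero ha hw (by linarith)]
        norm_num
    linarith

end Pool.Agent.Q85.VL
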