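import Pool.Agent.Helper24.VL.Sc

/-!
Project VL: two families of curves (VL-6).
-/

set_option autoImplicit false

open MeasureTheory Set Metric Filter Topology
open scoped ContDiff
open H459R3.NS Pool.Agent.W268.NS Pool.Agent.Q67.VD

namespace Pool.Agent.Q85.VL

open Pool.Agent.Q85.CC Pool.Agent.Q85.CL Pool.Agent.Q151.CC

/-- The inequality at one point. -/
lemma tf_alg {T T' s s' D E N M p p' τ τ₂ C G L : ℝ} (hTG : 0 ≤ (T - T' - G) * s')
    (hT1 : T ≤ 1) (hT0 : 0 ≤ T) (hG : 0 ≤ G)
    (hs : 0 ≤ s) (hs' : 0 ≤ s') (hD : 0 ≤ D + M) (hE : 0 ≤ E + M) (hM : 0 ≤ M)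
    (hL : L ≤ N + M) (hp : 0 ≤ p) (hp1 : p ≤ 1) (hp'0 : 0 ≤ p') (hp' : p' ≤ 1) (hτ : 0 ≤ τ)
    (hτ₂ : 0 ≤ τ₂) (hC : s' + τ + τ₂ ≤ C) :
    (1 - p') * (τ₂ * L) ≤ T * (s * (D + M)) - T' * (s' * (D + M)) + C * M
      + ((T * (s' * D - s * D) + p * (τ * E)) + (G * (-(s' * D)) + (1 - p') * (τ₂ * N))) := by
  have h1 : 0 ≤ (T - T' - G) * s' * (D + M) := mul_nonneg hTG hD
  have h2 : 0 ≤ T * (s * M) := mul_nonneg hT0 (mul_nonneg hs hM)
  have h3 : 0 ≤ p * (τ * (E + M)) := mul_nonneg hp (mul_nonneg hτ hE)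
  have h4 : 0 ≤ (1 - T) * (s' * M) := mul_nonneg (sub_nonneg.2 hT1) (mul_nonneg hs' hM)
  have h4' : 0 ≤ G * (s' * M) := mul_nonneg hG (mul_nonneg hs' hM)
  have h5 : 0 ≤ (1 - p) * (τ * M) := mul_nonneg (sub_nonneg.2 hp1) (mul_nonneg hτ hM)
  have h6 : 0 ≤ (C - (s' + τ + τ₂)) * M := mul_nonneg (sub_nonneg.2 hC) hM
  have h7 : 0 ≤ (1 - p') * (τ₂ * (N + M - L)) :=
    mul_nonneg (sub_nonneg.2 hp') (mul_nonneg hτ₂ (sub_nonneg.2 hL))
  have h8 : 0 ≤ p' * (τ₂ * M) := mul_nonneg hp'0 (mul_nonneg hτ₂ hM)
  nlinarith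

set_option maxHeartbeats 1600000 in
/-- VL-6. -/
theorem t_TF : StmTF := by
  intro κ ρ R r s x z f m W g hκ hκ1 hρ h hr hrR hρr hsr hsr' hz huz
  obtain ⟨b, hb⟩ : ∃ b, b = κ / 65536 * r := ⟨_, rfl⟩
  have hb0 : 0 < b := by rw [hb]; positivity
  have hκr : κ * r = 65536 * b := by rw [hb]; ring
  obtain ⟨q, hq⟩ : ∃ q, q = κ / 524288 * r := ⟨_, rfl⟩
  have hqb : q = b / 8 := by rw [hq, hb]; ring
  have hq0 : 0 < q := by rw [hqb]; positivity
  obtain ⟨r', hr'd⟩ : ∃ r', r' = r / 256 := ⟨_, rfl⟩
  have hr' : 0 < r' := by rw [hr'd]; positivity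
  have hκr' : κ * r' = 256 * b := by rw [hr'd]; linarith
  rw [← hq, ← hr'd]
  rw [show 4 * (κ / 65536) * r = 4 * b by rw [hb]; ring] at huz
  have hrr' : r' ≤ r / 2 := by rw [hr'd]; linarith
  have hrr : r' ≤ r := by linarith
  have hκr1 : κ * r ≤ r := mul_le_of_le_one_left hr.le hκ1
  have hqr : q ≤ r / 524288 := by
    rw [hqb]
    linarith
  have hsub : closedBall x r ⊆ closedBall x R := closedBall_subset_closedBall hrR
  have hzr : closedBall z q ⊆ closedBall x r := by
    refine closedBall_subset_closedBall' ?_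
    rw [dist_eq_norm, hz]
    linarith
  have hT := TT_c1 (κ := κ) (x := x) hρ h.gs r
  have hP := PS_c1 (κ := κ) (x := x) hρ h.gs r
  have hP' := PS_c1 (κ := κ) (x := x) hρ h.gs r'
  have hvc := ww_c1 (κ := κ) (x := z) hq0 h.gs
  have hG := st_c1 hvc b (3 * b)
  obtain ⟨F, hFd⟩ : ∃ F : V → ℝ, F = fun y => TT κ ρ g x r y * (PS κ ρ g x r' y - PS κ ρ g x r y)
    + stp ((ww κ q g z y + b) / (3 * b)) * (1 - PS κ ρ g x r' y) := ⟨_, rfl⟩
  have hF : ContDiff ℝ 1 F := by
    rw [hFd]
    exact (hT.mul (hP'.sub hP)).add (hG.mul (contDiff_const.sub hP'))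
  have hFfd : ∀ y, fderiv ℝ F y (W y) = (TT κ ρ g x r y *
      (stp' ((uu κ ρ g x y - κ * r' / 64) / (κ * r' / 64)) / (κ * r' / 64) *
        fderiv ℝ (uu κ ρ g x) y (W y)
      - stp' ((uu κ ρ g x y - κ * r / 64) / (κ * r / 64)) / (κ * r / 64) *
        fderiv ℝ (uu κ ρ g x) y (W y))
      + (PS κ ρ g x r' y - PS κ ρ g x r y) *
        (stp' ((ww κ ρ g x y + κ * r / 8) / (κ * r / 16)) / (κ * r / 16) *
          fderiv ℝ (ww κ ρ g x) y (W y)))
      + (stp ((ww κ q g z y + b) / (3 * b)) *
        (-(stp' ((uu κ ρ g x y - κ * r' / 64) / (κ * r' / 64)) / (κ * r' / 64) *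
          fderiv ℝ (uu κ ρ g x) y (W y)))
        + (1 - PS κ ρ g x r' y) * (stp' ((ww κ q g z y + b) / (3 * b)) / (3 * b) *
          fderiv ℝ (ww κ q g z) y (W y))) := by
    intro y
    rw [hFd, add_fd (hT.mul (hP'.sub hP)) (hG.mul (contDiff_const.sub hP')),
      mul_fd hT (hP'.sub hP), sub_fd hP' hP, PS_fd hρ h.gs, PS_fd hρ h.gs, TT_fd hρ h.gs,
      mul_fd hG (contDiff_const.sub hP'), sub_fd contDiff_const hP', PS_fd hρ h.gs, st_fd hvc]
    simp
  -- geometry
  have hgeo : ∀ y, uu κ ρ g x y < 8 * b → -b < ww κ q g z y → ds z q y < 52 / 65536 * r := by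
    intro y hu hw
    have h1 := (abs_le.1 (ds_lip x (ρ := ρ) y z)).2
    have h2 := ln_le_ds z q y
    have h3 : κ * (ds x ρ y - ds x ρ z) ≤ κ * ds z q y :=
      mul_le_mul_of_nonneg_left (h1.trans h2) hκ.le
    have h4 : κ * ds z q y < κ * (52 / 65536 * r) := by
      unfold uu at hu huz
      unfold ww at hw
      have : κ * (52 / 65536 * r) = 52 * b := by linarith
      rw [this]
      linarith
    exact lt_of_mul_lt_mul_left h4 hκ.le
  have hnear : ∀ y, ds z q y < 52 / 65536 * r → ‖y - x‖ ≤ r / 16 ∧ 972 / 65536 * r ≤ ‖y - x‖ ∧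
      ds x ρ y ≤ r / 8 := by
    intro y hy
    have h1 := norm_le_ds z q y
    have h2 : ‖y - x‖ ≤ ‖y - z‖ + ‖z - x‖ := by
      have e1 : y - x = (y - z) + (z - x) := by abel
      rw [e1]
      exact norm_add_le _ _
    have h3 : ‖z - x‖ ≤ ‖y - z‖ + ‖y - x‖ := by
      have e1 : z - x = (y - x) - (y - z) := by abel
      rw [e1]
      linarith [norm_sub_le (y - x) (y - z)]
    rw [hz] at h2 h3
    refine ⟨by linarith, by linarith, ?_⟩
    have h4 := ds_le x hρ.le y
    have h5 := ln_sub_le y z x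
    have h6 := ln_le_ds z q y
    have h7 := ln_le_norm (hz.le.trans hsr')
    linarith
  have hsup : ∀ y, F y ≠ 0 → ‖y - x‖ ≤ r := by
    intro y hy
    rw [hFd] at hy
    by_cases h1 : TT κ ρ g x r y * (PS κ ρ g x r' y - PS κ ρ g x r y) = 0
    · have h2 : stp ((ww κ q g z y + b) / (3 * b)) * (1 - PS κ ρ g x r' y) ≠ 0 := by
        intro h0
        apply hy
        show TT κ ρ g x r y * (PS κ ρ g x r' y - PS κ ρ g x r y)
          + stp ((ww κ q g z y + b) / (3 * b)) * (1 - PS κ ρ g x r' y) = 0
        rw [h1, h0, add_zero]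
      have h3 := sTT_mem (by positivity) (left_ne_zero_of_mul h2)
      have h4 : PS κ ρ g x r' y ≠ 1 := fun h0 => right_ne_zero_of_mul h2 (by rw [h0, sub_self])
      unfold PS at h4
      have h5 := sPS_lt (by positivity) h4
      exact (hnear y (hgeo y (by linarith) h3)).1.trans (by linarith)
    · have h2 := PS_ne hκ hr hr' hrr (right_ne_zero_of_mul h1)
      have h3 := left_ne_zero_of_mul h1
      unfold TT at h3
      have h4 := ds_lt hκ h2 (sTT_mem (by positivity) h3)
      exact (norm_le_ds x ρ y).trans (by linarith)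
  -- the integral inequality
  have hi1 : IntegrableOn (fun y => pr κ ρ g x W m r y - pr κ ρ g x W m r' y)
      (closedBall x R) := (cint (h.pr_cont hρ r) x R).sub (cint (h.pr_cont hρ r') x R)
  have hmain := mas h.wd (P := (closedBall z q).indicator (fun y => 512 / r * f y))
    (Q := fun y => pr κ ρ g x W m r y - pr κ ρ g x W m r' y + (closedBall x r).indicator
      (fun y => 8 / b * m y) y) hF hrR hsup
    (indc_int h.fc _ x R isClosed_closedBall.measurableSet)
    (hi1.add (indc_int h.mc _ x R isClosed_closedBall.measurableSet)) ?_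
  · rw [add_ind _ hi1 h.mc isClosed_closedBall.measurableSet hsub, ind_ball (hzr.trans hsub),
      integral_const_mul, integral_sub (cint (h.pr_cont hρ r) x R) (cint (h.pr_cont hρ r') x R)]
      at hmain
    have h1 : r / 512 * (512 / r * ∫ y in closedBall z q, f y) ≤ r / 512 *
        ((∫ y in closedBall x R, pr κ ρ g x W m r y) - (∫ y in closedBall x R,
          pr κ ρ g x W m r' y) + 8 / b * ∫ y in closedBall x r, m y) :=
      mul_le_mul_of_nonneg_left hmain (by positivity)
    have e1 : r / 512 * (512 / r * ∫ y in closedBall z q, f y) = ∫ y in closedBall z q, f y := by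
      field_simp
    have e2 : r / 512 * (8 / b) = 1024 / κ := by
      rw [hb]
      field_simp
      norm_num
    rw [e1, mul_add, ← mul_assoc, e2] at h1
    exact h1
  · intro y hy
    rw [hFfd]
    have hPP : 0 ≤ PS κ ρ g x r' y - PS κ ρ g x r y := sub_nonneg.2 (PS_mono hκ hr hr' hrr y)
    have hP'0 : 0 ≤ PS κ ρ g x r' y := stp_nonneg _
    have hP'1 : PS κ ρ g x r' y ≤ 1 := stp_le_one _
    have hPP1 : PS κ ρ g x r' y - PS κ ρ g x r y ≤ 1 := by
      have h2 : 0 ≤ PS κ ρ g x r y := stp_nonneg _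
      linarith
    have hG0 : 0 ≤ stp ((ww κ q g z y + b) / (3 * b)) := stp_nonneg _
    have hG1 : stp ((ww κ q g z y + b) / (3 * b)) ≤ 1 := stp_le_one _
    have hL0 : 0 ≤ κ / 4 * f y := mul_nonneg (by positivity) (h.f0 hy)
    have hτ₂ : 0 ≤ stp' ((ww κ q g z y + b) / (3 * b)) / (3 * b) :=
      div_nonneg (stp'_nonneg _) (by positivity)
    by_cases hy' : y ∈ closedBall x r
    · rw [indicator_of_mem hy']
      have hTG : 0 ≤ (TT κ ρ g x r y - TT κ ρ g x r' y - stp ((ww κ q g z y + b) / (3 * b))) *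
          (stp' ((uu κ ρ g x y - κ * r' / 64) / (κ * r' / 64)) / (κ * r' / 64)) := by
        by_cases hs0 : stp' ((uu κ ρ g x y - κ * r' / 64) / (κ * r' / 64)) = 0
        · rw [hs0, zero_div, mul_zero]
        · refine mul_nonneg ?_ (div_nonneg (stp'_nonneg _) (by positivity))
          obtain ⟨hu1, hu2⟩ := sps_mem (by positivity) hs0
          by_cases hG0 : stp ((ww κ q g z y + b) / (3 * b)) = 0
          · rw [hG0, sub_zero]
            exact sub_nonneg.2 (TT_mono hκ hr hr' hrr' y)
          · have h3 := sTT_mem (by positivity) hG0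
            obtain ⟨h4, h5, h6⟩ := hnear y (hgeo y (by linarith) h3)
            have h7 := uu_ww (κ := κ) (ρ := ρ) (g := g) (x := x) y
            have h8 := norm_le_ds x ρ y
            have h9 : κ * (972 / 65536 * r) ≤ κ * ds x ρ y :=
              mul_le_mul_of_nonneg_left (h5.trans h8) hκ.le
            have h10 : κ * ds x ρ y ≤ κ * (r / 8) := mul_le_mul_of_nonneg_left h6 hκ.le
            have hT' : TT κ ρ g x r' y = 0 := by
              unfold TT
              refine stp_zero (div_nonpos_of_nonpos_of_nonneg ?_ (by positivity))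
              linarith
            have hT1 : TT κ ρ g x r y = 1 := by
              unfold TT
              refine sTT_one (by positivity) ?_
              linarith
            rw [hT', hT1]
            linarith
      have hC : stp' ((uu κ ρ g x y - κ * r' / 64) / (κ * r' / 64)) / (κ * r' / 64)
          + stp' ((ww κ ρ g x y + κ * r / 8) / (κ * r / 16)) / (κ * r / 16)
          + stp' ((ww κ q g z y + b) / (3 * b)) / (3 * b) ≤ 8 / b := by
        have h1 : stp' ((uu κ ρ g x y - κ * r' / 64) / (κ * r' / 64)) / (κ * r' / 64) ≤ 1 / b := by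
          rw [div_le_div_iff₀ (by positivity) hb0, hκr']
          have h1 := stp'_le ((uu κ ρ g x y - 256 * b / 64) / (256 * b / 64))
          nlinarith
        have h2 : stp' ((ww κ ρ g x y + κ * r / 8) / (κ * r / 16)) / (κ * r / 16) ≤ 1 / b := by
          rw [div_le_div_iff₀ (by positivity) hb0, hκr]
          have h1 := stp'_le ((ww κ ρ g x y + 65536 * b / 8) / (65536 * b / 16))
          nlinarith
        have h3 : stp' ((ww κ q g z y + b) / (3 * b)) / (3 * b) ≤ 1 / b := by
          rw [div_le_div_iff₀ (by positivity) hb0]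
          have h1 := stp'_le ((ww κ q g z y + b) / (3 * b))
          nlinarith
        have h4 : 1 / b + 1 / b + 1 / b ≤ 8 / b := by
          rw [← add_div, ← add_div]
          exact div_le_div_of_nonneg_right (by norm_num) hb0.le
        linarith
      refine le_trans ?_ (tf_alg (L := κ / 4 * f y) hTG (stp_le_one _) (stp_nonneg _) hG0
        (div_nonneg (stp'_nonneg _) (by positivity)) (div_nonneg (stp'_nonneg _) (by positivity))
        (h.u_nn hκ hρ hy) ((mul_nonneg (by positivity) (h.f0 hy)).trans (h.w_lo hκ hρ hy)) (h.m0 y)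
        (h.w_lo' hκ z hq0 hy) hPP hPP1 hP'0 hP'1 (div_nonneg (stp'_nonneg _) (by positivity)) hτ₂
        hC)
      by_cases hyz : y ∈ closedBall z q
      · rw [indicator_of_mem hyz]
        rw [mem_closedBall, dist_eq_norm] at hyz
        have hln := ln_le_norm hyz
        have hg := abs_le.1 ((h.lip y z).trans hln)
        have hd1 := ds_le_two z y hyz
        have hd2 := le_ds z (ρ := q) y
        have hκd1 : κ * ds z q y ≤ ds z q y := mul_le_of_le_one_left (ds_nonneg _ _ _) hκ1
        have hκd0 : 0 ≤ κ * ds z q y := mul_nonneg hκ.le (ds_nonneg _ _ _)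
        have hdd := (abs_le.1 (ds_lip x (ρ := ρ) y z))
        have hdd1 : κ * (ds x ρ z - ds x ρ y) ≤ 7 / 4 * q := by
          have h1 : ds x ρ z - ds x ρ y ≤ 7 / 4 * q := by linarith [hdd.1]
          have h2 : κ * (ds x ρ z - ds x ρ y) ≤ κ * (7 / 4 * q) :=
            mul_le_mul_of_nonneg_left h1 hκ.le
          have h3 : κ * (7 / 4 * q) ≤ 7 / 4 * q := mul_le_of_le_one_left (by positivity) hκ1
          linarith
        have hp : PS κ ρ g x r' y = 0 := by
          unfold PS
          refine stp_zero (div_nonpos_of_nonpos_of_nonneg ?_ (by positivity))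
          unfold uu at huz ⊢
          linarith [hg.2]
        rw [hp, sub_zero, one_mul]
        have hw1 : -(13 / 4 * q) ≤ ww κ q g z y := by
          unfold ww
          linarith [hg.1]
        have hw2 : ww κ q g z y ≤ 7 / 4 * q := by
          unfold ww
          linarith [hg.2]
        have hσ1 : 1 / 6 ≤ (ww κ q g z y + b) / (3 * b) := by
          rw [le_div_iff₀ (by positivity)]
          linarith
        have hσ2 : (ww κ q g z y + b) / (3 * b) ≤ 1 / 2 := by
          rw [div_le_iff₀ (by positivity)]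
          linarith
        obtain ⟨σ, hσ⟩ : ∃ σ, σ = (ww κ q g z y + b) / (3 * b) := ⟨_, rfl⟩
        rw [← hσ] at hσ1 hσ2 ⊢
        rw [stp'_eq (by linarith) (by linarith)]
        have h3 : 5 / 36 ≤ σ * (1 - σ) := by nlinarith
        have h4 : 512 / r ≤ 6 * σ * (1 - σ) / (3 * b) * (κ / 4) := by
          have e1 : 6 * σ * (1 - σ) / (3 * b) * (κ / 4) = 32768 * (σ * (1 - σ)) / r := by
            rw [hb]
            field_simp
            ring
          rw [e1]
          exact div_le_div_of_nonneg_right (by linarith) hr.le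
        have h5 := mul_le_mul_of_nonneg_right h4 (h.f0 hy)
        linarith
      · rw [indicator_of_notMem hyz]
        exact mul_nonneg (sub_nonneg.2 hP'1) (mul_nonneg hτ₂ hL0)
    · have hyz : y ∉ closedBall z q := fun h0 => hy' (hzr h0)
      have hy2 : y ∉ closedBall x r' := fun h0 => hy' (closedBall_subset_closedBall hrr h0)
      rw [indicator_of_notMem hy', indicator_of_notMem hyz, pr_ball hκ hr hy',
        pr_ball hκ hr' hy2]
      have hout : ∀ {u' : Prop}, (uu κ ρ g x y < κ * r / 32) → (-(κ * r / 8) < ww κ ρ g x y) →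
          u' := by
        intro u' h1 h2
        have h3 := ds_lt hκ h1 h2
        have h4 := norm_le_ds x ρ y
        rw [mem_closedBall, dist_eq_norm] at hy'
        exact absurd (by linarith) hy'
      have hout2 : ∀ {u' : Prop}, (uu κ ρ g x y < 8 * b) → (-b < ww κ q g z y) →
          u' := by
        intro u' h1 h2
        have h3 := (hnear y (hgeo y h1 h2)).1
        rw [mem_closedBall, dist_eq_norm] at hy'
        exact absurd (by linarith) hy'
      have e1 : TT κ ρ g x r y *
          (stp' ((uu κ ρ g x y - κ * r' / 64) / (κ * r' / 64)) / (κ * r' / 64) *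
            fderiv ℝ (uu κ ρ g x) y (W y)
          - stp' ((uu κ ρ g x y - κ * r / 64) / (κ * r / 64)) / (κ * r / 64) *
            fderiv ℝ (uu κ ρ g x) y (W y)) = 0 := by
        by_cases hT0 : TT κ ρ g x r y = 0
        · rw [hT0, zero_mul]
        · unfold TT at hT0
          have h1 := sTT_mem (by positivity) hT0
          have h2 : stp' ((uu κ ρ g x y - κ * r' / 64) / (κ * r' / 64)) = 0 := by
            by_contra hc
            have h3 := (sps_mem (by positivity) hc).2
            exact hout (by linarith) h1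
          have h3 : stp' ((uu κ ρ g x y - κ * r / 64) / (κ * r / 64)) = 0 := by
            by_contra hc
            have h3 := (sps_mem (by positivity) hc).2
            exact hout (by linarith) h1
          rw [h2, h3]
          ring
      have e2 : (PS κ ρ g x r' y - PS κ ρ g x r y) *
          (stp' ((ww κ ρ g x y + κ * r / 8) / (κ * r / 16)) / (κ * r / 16) *
            fderiv ℝ (ww κ ρ g x) y (W y)) = 0 := by
        by_cases hP0 : PS κ ρ g x r' y - PS κ ρ g x r y = 0
        · rw [hP0, zero_mul]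
        · have h1 := PS_ne hκ hr hr' hrr hP0
          have h2 : stp' ((ww κ ρ g x y + κ * r / 8) / (κ * r / 16)) = 0 := by
            by_contra hc
            exact hout h1 (sTT'_mem (by positivity) hc)
          rw [h2]
          ring
      have e3 : stp ((ww κ q g z y + b) / (3 * b)) *
          (-(stp' ((uu κ ρ g x y - κ * r' / 64) / (κ * r' / 64)) / (κ * r' / 64) *
            fderiv ℝ (uu κ ρ g x) y (W y))) = 0 := by
        by_cases hG0 : stp ((ww κ q g z y + b) / (3 * b)) = 0
        · rw [hG0, zero_mul]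
        · have h1 := sTT_mem (by positivity) hG0
          have h2 : stp' ((uu κ ρ g x y - κ * r' / 64) / (κ * r' / 64)) = 0 := by
            by_contra hc
            have h3 := (sps_mem (by positivity) hc).2
            exact hout2 (by linarith) h1
          rw [h2]
          ring
      have e4 : (1 - PS κ ρ g x r' y) * (stp' ((ww κ q g z y + b) / (3 * b)) / (3 * b) *
          fderiv ℝ (ww κ q g z) y (W y)) = 0 := by
        by_cases hP0 : PS κ ρ g x r' y = 1
        · rw [hP0]
          ring
        · unfold PS at hP0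
          have h1 := sPS_lt (by positivity) hP0
          have h2 : stp' ((ww κ q g z y + b) / (3 * b)) = 0 := by
            by_contra hc
            exact hout2 (by linarith) (sTT'_mem (by positivity) hc)
          rw [h2]
          ring
      rw [e1, e2, e3, e4]
      norm_num

end Pool.Agent.Q85.VL
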