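import Pool.Agent.Helper24.VL.Mor
import Pool.Agent.Helper24.VL.Sc3
import Pool.Agent.Helper24.VL.Sc4

/-!
Project VL: the pinching lemma (VL-8).
-/

set_option autoImplicit false

open MeasureTheory Set Metric Filter Topology
open scoped ContDiff
open H459R3.NS Pool.Agent.W268.NS Pool.Agent.Q67.VD

namespace Pool.Agent.Q85.VL

open Pool.Agent.Q85.CC Pool.Agent.Q85.CL Pool.Agent.Q151.CC

section
variable {κ ρ R : ℝ} {x : V} {f m : V → ℝ} {W : V → V} {g : V → ℝ}

/-- The reversed field. -/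
lemma LF.rev (h : LF κ R x f m W g) :
    LF κ R x f m (fun y => -W y) (fun y => -g y) := by
  have hfd : ∀ y, fderiv ℝ (fun y => -g y) y = -fderiv ℝ g y := fun y => fderiv_fun_neg
  refine ⟨⟨h.wd.cont.neg, fun F hF hts => ?_⟩, h.fc, h.mc, h.m0, fun y hy => ?_, h.gs.neg,
    fun y z => ?_, fun y hy => ?_⟩
  · have h1 := h.wd.div F hF hts
    simp only [map_neg]
    rw [integral_neg, h1, neg_zero]
  · rw [ln_neg]
    exact h.up y hy
  · have h1 := h.lip z y
    rw [ln_sub_comm] at h1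
    have e1 : -g y - -g z = g z - g y := by ring
    rw [e1]
    exact h1
  · rw [hfd]
    have h1 := h.lo y hy
    simpa using h1

/-- A point of the surface of the cube, from points of the thin shells. -/
lemma surf {x : V} {s : ℝ} (hs : 0 < s) {φ : V → ℝ} (hφ : Continuous φ)
    (h : ∀ w, 0 < w → w ≤ s / 4 → ∃ y ∈ Shell x s w, 0 ≤ φ y) : ∃ y, ‖y - x‖ = s ∧ 0 ≤ φ y := by
  have hw : ∀ n : ℕ, 0 < s / 4 / ((n : ℝ) + 1) ∧ s / 4 / ((n : ℝ) + 1) ≤ s / 4 := fun n => by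
    have hn : (0 : ℝ) < (n : ℝ) + 1 := by positivity
    exact ⟨by positivity, div_le_self (by positivity) (by linarith [n.cast_nonneg (α := ℝ)])⟩
  choose y hy1 hy2 using fun n : ℕ => h _ (hw n).1 (hw n).2
  have hmem : ∀ n, y n ∈ closedBall x (2 * s) := fun n => by
    have h1 := abs_le.1 (show |‖y n - x‖ - s| ≤ _ from hy1 n)
    rw [mem_closedBall, dist_eq_norm]
    linarith [(hw n).2]
  obtain ⟨z, -, φ', hφ', hz⟩ := (isCompact_closedBall x (2 * s)).tendsto_subseq hmem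
  refine ⟨z, ?_, ?_⟩
  · have h1 : Tendsto (fun n => ‖(y ∘ φ') n - x‖) atTop (𝓝 ‖z - x‖) := (hz.sub_const x).norm
    have h2 : Tendsto (fun n : ℕ => s / 4 / ((n : ℝ) + 1)) atTop (𝓝 0) := by
      have h3 := (tendsto_one_div_add_atTop_nhds_zero_nat (𝕜 := ℝ)).const_mul (s / 4)
      rw [mul_zero] at h3
      refine h3.congr fun n => ?_
      ring
    have h3 : Tendsto (fun n => ‖(y ∘ φ') n - x‖) atTop (𝓝 s) := by
      rw [tendsto_iff_norm_sub_tendsto_zero]
      refine squeeze_zero (fun n => norm_nonneg _) (fun n => ?_) (h2.comp hφ'.tendsto_atTop)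
      rw [Real.norm_eq_abs]
      exact hy1 (φ' n)
    exact tendsto_nhds_unique h1 h3
  · have h1 : Tendsto (fun n => φ ((y ∘ φ') n)) atTop (𝓝 (φ z)) := (hφ.tendsto z).comp hz
    exact ge_of_tendsto' h1 fun n => hy2 (φ' n)

/-- The lower bound of the fluxes at all the scales above the concentration. -/
lemma low (h : LF κ R x f m W g) (hκ : 0 < κ) (hκ1 : κ ≤ 1) (hρ : 0 < ρ) {R₀ μ η : ℝ}
    (hR₀ : 0 < R₀) (hR₀R : R₀ ≤ R) (hη : 0 < η) (hK : KS R₀ x m μ)
    (hμ : μ ≤ κ ^ 2 / 2 ^ 48 * η) (hc : η * ρ ≤ ∫ y in closedBall x ρ, f y) (i : ℕ)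
    (hi : 128 / κ * ρ ≤ (1 / 256 : ℝ) ^ i * R₀) :
    κ / 2 ^ 25 * η ≤ AA κ ρ R g x W m ((1 / 256 : ℝ) ^ i * R₀) := by
  obtain ⟨n, hin, hn1, hn2⟩ := sc_ex hR₀ (by positivity : 0 < 128 / κ * ρ) i hi
  have hc1 := ch_le h hκ hκ1 hρ hR₀ hR₀R i n hin
  have hs := mul_le_mul_of_nonneg_left (hK.ico hR₀ h.m0 i n) (by positivity : 0 ≤ 65536 / κ)
  have hm1 := hK.term hR₀ h.m0 n
  have hLB := t_LB κ ρ R ((1 / 256 : ℝ) ^ n * R₀) x f m W g hκ hκ1 hρ h hn1
    ((sc_le n hR₀).trans hR₀R)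
  obtain ⟨q, hq⟩ : ∃ q, q = (1 / 256 : ℝ) ^ n * R₀ := ⟨_, rfl⟩
  rw [← hq] at hn1 hn2 hc1 hm1 hLB
  have hq0 : 0 < q := by rw [hq]; exact sc_pos n hR₀
  -- the flux at the scale q
  have hqκ : κ * q ≤ 32768 * ρ := by
    have h1 := mul_le_mul_of_nonneg_left hn2 hκ.le
    have e1 : κ * (256 * (128 / κ * ρ)) = 32768 * ρ := by
      field_simp
      norm_num
    linarith
  have hμ0 := hK.nn
  have h1 : 2 * κ * ρ * (η * ρ) ≤ (κ * q / 8) ^ 2 * AA κ ρ R g x W m q
      + κ * q / 4 * (μ * q) := by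
    have h2 := mul_le_mul_of_nonneg_left hc (by positivity : 0 ≤ 2 * κ * ρ)
    have h3 := mul_le_mul_of_nonneg_left hm1 (by positivity : 0 ≤ κ * q / 4)
    linarith
  -- divide by (κ q)²
  have h2 : 2 * κ * η * (κ * q) ^ 2 ≤ 2 * κ * η * (32768 * ρ) ^ 2 :=
    mul_le_mul_of_nonneg_left (pow_le_pow_left₀ (by positivity) hqκ 2) (by positivity)
  have h3 : 2 * κ * η * (κ * q) ^ 2 ≤ 32768 ^ 2 * ((κ * q / 8) ^ 2 * AA κ ρ R g x W m q
      + κ * q / 4 * (μ * q)) := by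
    have h4 := mul_le_mul_of_nonneg_left h1 (by norm_num : (0 : ℝ) ≤ 32768 ^ 2)
    linarith
  have h4 : (κ * q) ^ 2 * (2 * κ * η) ≤ (κ * q) ^ 2 *
      (32768 ^ 2 * (AA κ ρ R g x W m q / 64 + μ / (4 * κ))) := by
    have e1 : (κ * q) ^ 2 * (32768 ^ 2 * (AA κ ρ R g x W m q / 64 + μ / (4 * κ)))
        = 32768 ^ 2 * ((κ * q / 8) ^ 2 * AA κ ρ R g x W m q + κ * q / 4 * (μ * q)) := by
      field_simp
      ring
    rw [e1]
    linarith
  have h5 := le_of_mul_le_mul_left h4 (by positivity)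
  -- the small remainder
  have h6 : μ / κ ≤ κ / 2 ^ 48 * η := by
    rw [div_le_iff₀ hκ]
    refine hμ.trans (le_of_eq ?_)
    ring
  have e2 : μ / (4 * κ) = μ / κ / 4 := by
    field_simp
  have e3 : 65536 / κ * μ = 65536 * (μ / κ) := by ring
  rw [e2] at h5
  rw [e3] at hs
  have hκη : 0 < κ * η := by positivity
  have h7 : κ / 2 ^ 48 * η = κ * η / 2 ^ 48 := by ring
  have h8 : κ / 2 ^ 25 * η = κ * η / 2 ^ 25 := by ring
  rw [h7] at h6
  rw [h8]
  norm_num at h5 h6 ⊢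
  linarith

/-- The flux through the shell. -/
lemma shell_lo (h : LF κ R x f m W g) (hκ : 0 < κ) (hκ1 : κ ≤ 1) (hρ : 0 < ρ) {r η μ s w : ℝ}
    (hr : 0 < r) (hrR : r ≤ R) (hη : 0 < η) (hμ : μ ≤ κ ^ 2 / 2 ^ 48 * η)
    (hm : ∫ y in closedBall x r, m y ≤ μ * r)
    (hA : κ / 2 ^ 25 * η ≤ AA κ ρ R g x W m (r / 256)) (hs1 : r / 64 ≤ s) (hs2 : s ≤ r / 32)
    (hw : 0 < w) (hws : w ≤ s / 4) :
    κ / 2 ^ 27 * η * w ≤ ∫ y in Shell x s w ∩ {y | 0 < uu κ ρ g x y}, f y := by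
  have hs0 : 0 < s := lt_of_lt_of_le (by positivity) hs1
  have h1 := t_FC κ ρ R (r / 256) s w x f m W g hκ hκ1 hρ h (by positivity) (by linarith) hw hws
    (by linarith)
  have h2 : ∫ y in closedBall x (s + w), m y ≤ μ * r :=
    (setIntegral_mono_set (cint h.mc x r) (Eventually.of_forall h.m0)
      (closedBall_subset_closedBall (by linarith)).eventuallyLE).trans hm
  have h3 : 256 / (κ * (r / 256)) * ∫ y in closedBall x (s + w), m y ≤ 65536 * (μ / κ) := by
    have h4 := mul_le_mul_of_nonneg_left h2 (by positivity : 0 ≤ 256 / (κ * (r / 256)))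
    refine h4.trans (le_of_eq ?_)
    field_simp
    norm_num
    ring
  have h6 : μ / κ ≤ κ / 2 ^ 48 * η := by
    rw [div_le_iff₀ hκ]
    refine hμ.trans (le_of_eq ?_)
    ring
  obtain ⟨J, hJ⟩ : ∃ J, J = ∫ y in Shell x s w ∩ {y | 0 < uu κ ρ g x y}, f y := ⟨_, rfl⟩
  rw [← hJ] at h1 ⊢
  have h7 : κ / 2 ^ 48 * η = κ * η / 2 ^ 48 := by ring
  have h8 : κ / 2 ^ 25 * η = κ * η / 2 ^ 25 := by ring
  rw [h7] at h6
  rw [h8] at hA
  have hκη : 0 < κ * η := by positivity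
  have h9 : κ * η / 2 ^ 26 ≤ 2 / w * J := by
    norm_num at hA h6 ⊢
    linarith
  have h10 := mul_le_mul_of_nonneg_left h9 (by positivity : 0 ≤ w / 2)
  have e1 : w / 2 * (2 / w * J) = J := by field_simp
  have e2 : w / 2 * (κ * η / 2 ^ 26) = κ / 2 ^ 27 * η * w := by ring
  rw [e1, e2] at h10
  exact h10

lemma rank_V : 1 < Module.rank ℝ V := by
  have : Module.rank ℝ V = 3 := by
    show Module.rank ℝ (Fin 3 → ℝ) = 3
    rw [rank_fin_fun]
    norm_num
  rw [this]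
  norm_num

end

/-- VL-8. -/
theorem t_PinV : StmPinV := by
  intro κ hκ hκ1
  refine ⟨κ / 524288, κ ^ 2 / 2 ^ 60, by positivity, by linarith, by positivity, ?_, ?_⟩
  · rw [div_le_one (by positivity)]
    have : κ ^ 2 ≤ 1 := pow_le_one₀ hκ.le hκ1
    linarith
  intro K η τ hK hη hη1 hτ hτ1
  obtain ⟨N₀, hN₀⟩ := exists_nat_gt ((4 * K + 4) / (κ * τ))
  obtain ⟨N₁, hN₁⟩ := exists_pow_lt_of_lt_one (by positivity : 0 < κ / 512)
    (by norm_num : (1 / 256 : ℝ) < 1)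
  refine ⟨N₀ + N₁, fun R ρ x f m W g hR h hf hKS hρ hρR hc => ?_⟩
  obtain ⟨μ, hμd⟩ : ∃ μ, μ = 4 * (κ ^ 2 / 2 ^ 60 * η * τ) := ⟨_, rfl⟩
  have hR4 : 0 < R / 4 := by positivity
  have hR4R : R / 4 ≤ R := by linarith
  have hK4 : KS (R / 4) x m μ := by
    rw [hμd]
    exact hKS.quarter hR h.mc h.m0
  have hκ2 : 0 < κ ^ 2 := by positivity
  have hκη : 0 < κ ^ 2 * η := by positivity
  have hητ : κ ^ 2 * η * τ ≤ κ ^ 2 * η := mul_le_of_le_one_right hκη.le hτ1
  have hμ48 : μ ≤ κ ^ 2 / 2 ^ 48 * η := by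
    have e1 : μ = 4 * (κ ^ 2 * η * τ) / 2 ^ 60 := by rw [hμd]; ring
    have e2 : κ ^ 2 / 2 ^ 48 * η = κ ^ 2 * η / 2 ^ 48 := by ring
    rw [e1, e2]
    norm_num
    linarith
  -- the scales above the concentration
  have hsc : ∀ i ≤ N₀, 128 / κ * ρ ≤ (1 / 256 : ℝ) ^ i * (R / 4) := by
    intro i hi
    have h1 : (1 / 256 : ℝ) ^ N₀ ≤ (1 / 256 : ℝ) ^ i :=
      pow_le_pow_of_le_one (by norm_num) (by norm_num) hi
    have h2 : 128 / κ * ρ ≤ 128 / κ * ((1 / 256) ^ (N₀ + N₁) * R) :=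
      mul_le_mul_of_nonneg_left hρR (by positivity)
    have h3 : 128 / κ * ((1 / 256) ^ (N₀ + N₁) * R)
        = 128 / κ * (1 / 256 : ℝ) ^ N₁ * ((1 / 256 : ℝ) ^ N₀ * R) := by
      rw [pow_add]
      ring
    have h4 : 128 / κ * (1 / 256 : ℝ) ^ N₁ ≤ 1 / 4 := by
      have h5 := mul_le_mul_of_nonneg_left hN₁.le (by positivity : 0 ≤ 128 / κ)
      have e1 : 128 / κ * (κ / 512) = 1 / 4 := by
        field_simp
        norm_num
      linarith
    have h6 := mul_le_mul_of_nonneg_right h4 (by positivity : 0 ≤ (1 / 256 : ℝ) ^ N₀ * R)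
    have h7 := mul_le_mul_of_nonneg_right h1 hR4.le
    linarith
  -- the pigeonhole
  obtain ⟨k, hk, hdiff⟩ : ∃ k < N₀, AA κ ρ R g x W m ((1 / 256 : ℝ) ^ k * (R / 4))
      - AA κ ρ R g x W m ((1 / 256 : ℝ) ^ (k + 1) * (R / 4)) ≤ 256 * τ := by
    by_contra hcon
    push Not at hcon
    have h1 : ∑ k ∈ Finset.range N₀, (256 * τ) ≤ ∑ k ∈ Finset.range N₀,
        (AA κ ρ R g x W m ((1 / 256 : ℝ) ^ k * (R / 4))
          - AA κ ρ R g x W m ((1 / 256 : ℝ) ^ (k + 1) * (R / 4))) :=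
      Finset.sum_le_sum fun k hk => (hcon k (Finset.mem_range.1 hk)).le
    rw [Finset.sum_range_sub' (fun k => AA κ ρ R g x W m ((1 / 256 : ℝ) ^ k * (R / 4))),
      Finset.sum_const, Finset.card_range, nsmul_eq_mul, pow_zero, one_mul] at h1
    have h2 := h.AA_nn hκ hρ (sc_pos N₀ hR4)
    have h3 := top_le h hκ hκ1 hρ hR4 hR4R hK4
    have h4 : (∫ y in closedBall x (R / 4), f y) / (R / 4) ≤ 4 * K := by
      rw [div_le_iff₀ hR4]
      have h5 : ∫ y in closedBall x (R / 4), f y ≤ ∫ y in closedBall x R, f y := by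
        refine setIntegral_mono_set (cint h.fc x R) ?_
          (closedBall_subset_closedBall hR4R).eventuallyLE
        refine (ae_restrict_iff' isClosed_closedBall.measurableSet).2 (Eventually.of_forall
          fun y hy => h.f0 hy)
      linarith
    have h5 : μ ≤ 4 := by
      have h6 : κ ^ 2 ≤ 1 := pow_le_one₀ hκ.le hκ1
      have h7 : κ ^ 2 * η ≤ 1 := mul_le_one₀ h6 hη.le hη1
      have e1 : μ = 4 * (κ ^ 2 * η * τ) / 2 ^ 60 := by rw [hμd]; ring
      rw [e1, div_le_iff₀ (by positivity)]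
      linarith
    have h6 : 256 / κ * ((∫ y in closedBall x (R / 4), f y) / (R / 4) + μ)
        ≤ 256 / κ * (4 * K + 4) := mul_le_mul_of_nonneg_left (by linarith) (by positivity)
    rw [div_lt_iff₀ (by positivity)] at hN₀
    have h7 : 256 / κ * (4 * K + 4) < N₀ * (256 * τ) := by
      rw [div_mul_eq_mul_div, div_lt_iff₀ hκ]
      linarith
    linarith
  refine ⟨k, by omega, fun s hs1 hs2 => ?_⟩
  obtain ⟨r, hrd⟩ : ∃ r, r = (1 / 256 : ℝ) ^ k * (R / 4) := ⟨_, rfl⟩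
  have hm := hK4.term hR4 h.m0 k
  have hρr := hsc k hk.le
  have hlow := low h hκ hκ1 hρ hR4 hR4R hη hK4 hμ48 hc (k + 1) (hsc (k + 1) hk)
  have hlow' := low h.rev hκ hκ1 hρ hR4 hR4R hη hK4 hμ48 hc (k + 1) (hsc (k + 1) hk)
  rw [sc_succ] at hlow hlow' hdiff
  rw [← hrd] at hm hρr hlow hlow' hdiff hs1 hs2 ⊢
  have hr : 0 < r := by rw [hrd]; exact sc_pos k hR4
  have hrR : r ≤ R := by rw [hrd]; exact (sc_le k hR4).trans hR4R
  have hs0 : 0 < s := lt_of_lt_of_le (by positivity) hs1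
  have hρr' : ρ ≤ r / 64 := by
    have h1 := mul_le_mul_of_nonneg_left hρr hκ.le
    have e1 : κ * (128 / κ * ρ) = 128 * ρ := by field_simp
    have h2 : κ * r ≤ r := mul_le_of_le_one_left hr.le hκ1
    linarith
  have hsh := fun w hw hws => shell_lo h hκ hκ1 hρ hr hrR hη hμ48 hm hlow hs1 hs2 (w := w) hw hws
  have hsh' := fun w hw hws =>
    shell_lo h.rev hκ hκ1 hρ hr hrR hη hμ48 hm hlow' hs1 hs2 (w := w) hw hws
  have hpos : ∀ w : ℝ, 0 < w → 0 < κ / 2 ^ 27 * η * w := fun w hw => by positivity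
  refine ⟨?_, fun w hw hws => ?_⟩
  · -- the point z
    obtain ⟨y₁, hy₁, hu₁⟩ := surf hs0 (uu_c1 (κ := κ) (x := x) hρ h.gs).continuous
      (fun w hw hws => by
        by_contra hcon
        push Not at hcon
        have h1 := hsh w hw hws
        have h2 : Shell x s w ∩ {y | 0 < uu κ ρ g x y} = ∅ := by
          rw [eq_empty_iff_forall_notMem]
          rintro y ⟨hy1, hy2⟩
          exact absurd (show 0 < uu κ ρ g x y from hy2) (not_lt.2 (hcon y hy1).le)
        rw [h2, setIntegral_empty] at h1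
        linarith [hpos w hw])
    obtain ⟨y₂, hy₂, hu₂⟩ := surf hs0 (uu_c1 (κ := κ) (x := x) hρ h.rev.gs).continuous
      (fun w hw hws => by
        by_contra hcon
        push Not at hcon
        have h1 := hsh' w hw hws
        have h2 : Shell x s w ∩ {y | 0 < uu κ ρ (fun y => -g y) x y} = ∅ := by
          rw [eq_empty_iff_forall_notMem]
          rintro y ⟨hy1, hy2⟩
          exact absurd (show 0 < uu κ ρ (fun y => -g y) x y from hy2) (not_lt.2 (hcon y hy1).le)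
        rw [h2, setIntegral_empty] at h1
        linarith [hpos w hw])
    have hu₂' : uu κ ρ g x y₂ ≤ -(4 * (κ / 65536) * r) := by
      have h1 := norm_le_ds x ρ y₂
      rw [hy₂] at h1
      have h2 : κ * (r / 64) ≤ κ * ds x ρ y₂ := mul_le_mul_of_nonneg_left (hs1.trans h1) hκ.le
      have h3 : 0 < κ * r := by positivity
      unfold uu at hu₂ ⊢
      linarith
    have hu₁' : -(4 * (κ / 65536) * r) ≤ uu κ ρ g x y₁ := by
      have h3 : 0 < κ * r := by positivity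
      linarith
    obtain ⟨z, hz, huz⟩ := (isPreconnected_sphere rank_V x s).intermediate_value
      (show y₂ ∈ sphere x s by rw [mem_sphere_iff_norm]; exact hy₂)
      (show y₁ ∈ sphere x s by rw [mem_sphere_iff_norm]; exact hy₁)
      (uu_c1 (κ := κ) (x := x) hρ h.gs).continuous.continuousOn ⟨hu₂', hu₁'⟩
    rw [mem_sphere_iff_norm] at hz
    refine ⟨z, hz, ?_⟩
    have h1 := t_TF κ ρ R r s x z f m W g hκ hκ1 hρ h hr hrR hρr' hs1 hs2 hz huz
    refine h1.trans ?_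
    have h2 := mul_le_mul_of_nonneg_left hdiff (by positivity : 0 ≤ r / 512)
    have h3 := mul_le_mul_of_nonneg_left hm (by positivity : 0 ≤ 1024 / κ)
    have h4 : 1024 / κ * (μ * r) ≤ τ * r / 2 := by
      have e1 : 1024 / κ * (μ * r) = 4096 * (κ * η) * τ * r / 2 ^ 60 := by
        rw [hμd]
        field_simp
        norm_num
      rw [e1]
      have h5 : κ * η ≤ 1 := mul_le_one₀ hκ1 hη.le hη1
      have h6 : κ * η * (τ * r) ≤ 1 * (τ * r) :=
        mul_le_mul_of_nonneg_right h5 (by positivity)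
      have h7 : 0 < τ * r := by positivity
      norm_num
      linarith
    linarith
  · refine le_trans ?_ ((hsh w hw hws).trans ?_)
    · have h1 : κ ^ 2 / 2 ^ 60 ≤ κ / 2 ^ 27 := by
        rw [div_le_div_iff₀ (by positivity) (by positivity)]
        have h2 : κ ^ 2 ≤ κ := by nlinarith
        norm_num
        linarith
      exact mul_le_mul_of_nonneg_right (mul_le_mul_of_nonneg_right h1 hη.le) hw.le
    · have hms : MeasurableSet (Shell x s w) :=
        (isClosed_le ((continuous_id.sub continuous_const).norm.sub continuous_const).abs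
          continuous_const).measurableSet
      have hsub : Shell x s w ⊆ closedBall x R := by
        intro y hy
        have h1 := abs_le.1 (show |‖y - x‖ - s| ≤ w from hy)
        rw [mem_closedBall, dist_eq_norm]
        linarith
      refine setIntegral_mono_set ((cint h.fc x R).mono_set hsub) ?_
        (inter_subset_left).eventuallyLE
      exact (ae_restrict_iff' hms).2 (Eventually.of_forall fun y hy => h.f0 (hsub hy))

end Pool.Agent.Q85.VL
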