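import Pool.Agent.Q85.VL.Defs
import Pool.Agent.Q151.CC.Double

/-!
Project VL, part VL-11: for an orientation `θ` of the vorticity the field `θ ω` is weakly free of
divergence (helper36).
-/

set_option autoImplicit false

open MeasureTheory Set Metric Filter Topology
open scoped ContDiff
open H459R3.NS Pool.Agent.W268.NS Pool.Agent.Q67.VD

namespace Pool.Agent.Q85.VL.WdP

open Pool.Agent.Q85.CC Pool.Agent.Q85.CL Pool.Agent.Q151.CC Pool.Agent.Q85.VL

/-- the smooth step -/
noncomputable def st (t : ℝ) : ℝ := Real.smoothTransition t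

lemma st_c1 : ContDiff ℝ 1 st := Real.smoothTransition.contDiff (n := 1)

lemma st_bd : ∃ B : ℝ, 0 ≤ B ∧ ∀ t, |deriv st t| ≤ B := by
  have hc : Continuous (deriv st) := st_c1.continuous_deriv_one
  obtain ⟨B, hB⟩ := ((isCompact_Icc (a := (0 : ℝ)) (b := 1)).image hc).isBounded.exists_norm_le
  refine ⟨max B 0, le_max_right _ _, fun t => ?_⟩
  by_cases ht : t ∈ Icc (0 : ℝ) 1
  · exact (hB _ (mem_image_of_mem _ ht)).trans (le_max_left _ _)
  · have h0 : deriv st t = 0 := by
      rw [mem_Icc, not_and_or, not_le, not_le] at ht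
      rcases ht with ht | ht
      · have h1 : st =ᶠ[𝓝 t] fun _ => 0 := by
          filter_upwards [Iio_mem_nhds ht] with s hs
          exact Real.smoothTransition.zero_of_nonpos (le_of_lt hs)
        rw [h1.deriv_eq, deriv_const]
      · have h1 : st =ᶠ[𝓝 t] fun _ => 1 := by
          filter_upwards [Ioi_mem_nhds ht] with s hs
          exact Real.smoothTransition.one_of_one_le (le_of_lt hs)
        rw [h1.deriv_eq, deriv_const]
    rw [h0, abs_zero]
    exact le_max_right _ _

lemma st_zero {t : ℝ} (h : deriv st t ≠ 0) : 0 ≤ t ∧ t ≤ 1 := by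
  by_contra hc
  rw [not_and_or, not_le, not_le] at hc
  apply h
  rcases hc with ht | ht
  · have h1 : st =ᶠ[𝓝 t] fun _ => 0 := by
      filter_upwards [Iio_mem_nhds ht] with s hs
      exact Real.smoothTransition.zero_of_nonpos (le_of_lt hs)
    rw [h1.deriv_eq, deriv_const]
  · have h1 : st =ᶠ[𝓝 t] fun _ => 1 := by
      filter_upwards [Ioi_mem_nhds ht] with s hs
      exact Real.smoothTransition.one_of_one_le (le_of_lt hs)
    rw [h1.deriv_eq, deriv_const]

/-- the square of the length -/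
noncomputable def Q (w : V → V) (y : V) : ℝ := w y ⬝ᵥ w y

/-- the cut-off function -/
noncomputable def ch (w : V → V) (n : ℕ) (y : V) : ℝ := st (n * Q w y - 1)

variable {w : V → V}

lemma Q_c1 (hw : ∀ i, ContDiff ℝ 1 fun y => w y i) : ContDiff ℝ 1 (Q w) := by
  unfold Q
  simp only [dotProduct]
  exact ContDiff.sum fun i _ => (hw i).mul (hw i)

lemma Q_nn (w : V → V) (y : V) : 0 ≤ Q w y := by
  unfold Q
  simp only [dotProduct]
  exact Finset.sum_nonneg fun i _ => mul_self_nonneg _

lemma norm_sq_le (w : V → V) (y : V) : ‖w y‖ ^ 2 ≤ Q w y := by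
  have h := norm_le_len (w y)
  have h1 : ‖w y‖ ^ 2 ≤ √(w y ⬝ᵥ w y) ^ 2 := pow_le_pow_left₀ (norm_nonneg _) h 2
  have h2 : √(w y ⬝ᵥ w y) ^ 2 = Q w y := Real.sq_sqrt (Q_nn w y)
  rwa [h2] at h1

lemma Q_pos {y : V} (h : w y ≠ 0) : 0 < Q w y := by
  have h1 := norm_sq_le w y
  have h2 : 0 < ‖w y‖ := norm_pos_iff.2 h
  nlinarith

lemma ch_c1 (hw : ∀ i, ContDiff ℝ 1 fun y => w y i) (n : ℕ) : ContDiff ℝ 1 (ch w n) :=
  st_c1.comp ((contDiff_const.mul (Q_c1 hw)).sub contDiff_const)

/-- the bound of the derivative -/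
noncomputable def cb (w : V → V) (y : V) : ℝ := 2 * ∑ i, ‖fderiv ℝ (fun y => w y i) y‖

lemma cb_cont (hw : ∀ i, ContDiff ℝ 1 fun y => w y i) : Continuous (cb w) :=
  continuous_const.mul (continuous_finsetSum _ fun i _ =>
    ((hw i).continuous_fderiv one_ne_zero).norm)

lemma Q_fd (hw : ∀ i, ContDiff ℝ 1 fun y => w y i) (y h : V) (hh : ‖h‖ ≤ ‖w y‖) :
    |fderiv ℝ (Q w) y h| ≤ cb w y * Q w y := by
  have h1 : ∀ i ∈ Finset.univ, HasFDerivAt (fun y => w y i * w y i)
      (w y i • fderiv ℝ (fun y => w y i) y + w y i • fderiv ℝ (fun y => w y i) y) y := fun i _ => by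
    have := ((hw i).differentiable one_ne_zero y).hasFDerivAt
    exact this.mul this
  have h2 : HasFDerivAt (Q w) (∑ i, (w y i • fderiv ℝ (fun y => w y i) y
      + w y i • fderiv ℝ (fun y => w y i) y)) y := HasFDerivAt.fun_sum h1
  rw [h2.fderiv, _root_.sum_apply]
  refine (Finset.abs_sum_le_sum_abs _ _).trans ?_
  unfold cb
  rw [mul_assoc, Finset.sum_mul, Finset.mul_sum]
  refine Finset.sum_le_sum fun i _ => ?_
  rw [add_apply, smul_apply, smul_eq_mul, ← two_mul, abs_mul, abs_of_pos (zero_lt_two' ℝ), abs_mul]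
  have h3 : |w y i| ≤ ‖w y‖ := by
    have := norm_le_pi_norm (w y) i
    rwa [Real.norm_eq_abs] at this
  have h4 : |fderiv ℝ (fun y => w y i) y h| ≤ ‖fderiv ℝ (fun y => w y i) y‖ * ‖w y‖ := by
    rw [← Real.norm_eq_abs]
    exact (ContinuousLinearMap.le_opNorm _ _).trans
      (mul_le_mul_of_nonneg_left hh (norm_nonneg _))
  have h5 := norm_sq_le w y
  have h6 : |w y i| * |fderiv ℝ (fun y => w y i) y h|
      ≤ ‖w y‖ * (‖fderiv ℝ (fun y => w y i) y‖ * ‖w y‖) :=
    mul_le_mul h3 h4 (abs_nonneg _) (norm_nonneg _)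
  have h7 : ‖fderiv ℝ (fun y => w y i) y‖ * ‖w y‖ ^ 2 ≤ ‖fderiv ℝ (fun y => w y i) y‖ * Q w y :=
    mul_le_mul_of_nonneg_left h5 (norm_nonneg _)
  nlinarith

lemma ch_fd (hw : ∀ i, ContDiff ℝ 1 fun y => w y i) (n : ℕ) (y h : V) :
    fderiv ℝ (ch w n) y h = deriv st (n * Q w y - 1) * (n * fderiv ℝ (Q w) y h) := by
  have h1 := ((Q_c1 hw).differentiable one_ne_zero y).hasFDerivAt
  have h2 : HasFDerivAt (fun y => (n : ℝ) * Q w y - 1) ((n : ℝ) • fderiv ℝ (Q w) y) y :=
    (h1.const_mul (n : ℝ)).sub_const 1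
  have h3 := (st_c1.differentiable one_ne_zero (n * Q w y - 1)).hasDerivAt
  have h4 : HasFDerivAt (ch w n) _ y := h3.comp_hasFDerivAt y h2
  rw [h4.fderiv]
  simp only [smul_apply, smul_eq_mul]

variable {θ : V → ℝ} {a : V} {R : ℝ}

/-- the orientation, extended from the cube -/
noncomputable def Tt (θ : V → ℝ) (a : V) (R : ℝ) (y : V) : ℝ := θ (clp a R y)

/-- the oriented field, extended from the cube -/
noncomputable def Wf (θ : V → ℝ) (a : V) (R : ℝ) (w : V → V) (y : V) : V :=
  Tt θ a R y • w (clp a R y)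

lemma Tt_ev (hR : 0 ≤ R) (hw : Continuous w) (hθ : Orient θ a R w) {y : V}
    (hy : w (clp a R y) ≠ 0) : ∀ᶠ y' in 𝓝 y, Tt θ a R y' = Tt θ a R y := by
  have hmem : ∀ y, ‖clp a R y - a‖ ≤ R := fun y => by
    have := clp_mem hR a y
    rwa [mem_closedBall, dist_eq_norm] at this
  have hev : ∀ᶠ y' in 𝓝 y, w (clp a R y') ≠ 0 :=
    (hw.comp (clp_cont a R)).continuousAt.eventually_ne hy
  have h1 : Tendsto (clp a R) (𝓝 y) (𝓝[{y | ‖y - a‖ ≤ R ∧ w y ≠ 0}] (clp a R y)) :=
    tendsto_nhdsWithin_iff.2 ⟨(clp_cont a R).continuousAt, by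
      filter_upwards [hev] with y' h' using ⟨hmem y', h'⟩⟩
  have h2 : Tendsto (Tt θ a R) (𝓝 y) (𝓝 (Tt θ a R y)) := (hθ.2 _ ⟨hmem y, hy⟩).tendsto.comp h1
  have h3 := (Metric.tendsto_nhds.1 h2) 1 one_pos
  filter_upwards [h3] with y' h'
  rw [Real.dist_eq, abs_lt] at h'
  unfold Tt at h' ⊢
  rcases hθ.1 (clp a R y') with e1 | e1 <;> rcases hθ.1 (clp a R y) with e2 | e2 <;>
    rw [e1, e2] at h' ⊢
  · norm_num at h'
  · norm_num at h'

lemma Tt_abs (hθ : Orient θ a R w) (y : V) : |Tt θ a R y| = 1 := by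
  unfold Tt
  rcases hθ.1 (clp a R y) with e1 | e1 <;> rw [e1] <;> simp

lemma Wf_norm (hθ : Orient θ a R w) (y : V) : ‖Wf θ a R w y‖ = ‖w (clp a R y)‖ := by
  unfold Wf
  rw [norm_smul, Real.norm_eq_abs, Tt_abs hθ, one_mul]

lemma Wf_cont (hR : 0 ≤ R) (hw : Continuous w) (hθ : Orient θ a R w) :
    Continuous (Wf θ a R w) := by
  rw [continuous_iff_continuousAt]
  intro y
  by_cases hy : w (clp a R y) = 0
  · have h0 : Wf θ a R w y = 0 := by
      unfold Wf
      rw [hy, smul_zero]
    unfold ContinuousAt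
    rw [h0, tendsto_zero_iff_norm_tendsto_zero]
    simp_rw [Wf_norm hθ]
    have h1 : Continuous fun y => ‖w (clp a R y)‖ := (hw.comp (clp_cont a R)).norm
    have h2 := h1.tendsto y
    rwa [hy, norm_zero] at h2
  · have h1 : Wf θ a R w =ᶠ[𝓝 y] fun y' => Tt θ a R y • w (clp a R y') := by
      filter_upwards [Tt_ev hR hw hθ hy] with y' h'
      unfold Wf
      rw [h']
    have h3 : Continuous fun y' => w (clp a R y') := hw.comp (clp_cont a R)
    have h2 : Continuous fun y' => Tt θ a R y • w (clp a R y') := h3.const_smul (Tt θ a R y)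
    exact h2.continuousAt.congr h1.symm

lemma Wf_eq (hR : 0 ≤ R) {y : V} (hy : y ∈ closedBall a R) : Wf θ a R w y = θ y • w y := by
  unfold Wf Tt
  rw [clp_eq hR hy]

lemma Fn_c1 (hR : 0 ≤ R) (hw : ∀ i, ContDiff ℝ 1 fun y => w y i) (hθ : Orient θ a R w) {F : V → ℝ}
    (hF : ContDiff ℝ 1 F) (hts : tsupport F ⊆ closedBall a R) (n : ℕ) :
    ContDiff ℝ 1 fun y => F y * (Tt θ a R y * ch w n y) := by
  have hwc : Continuous w := continuous_pi fun i => (hw i).continuous
  rw [contDiff_iff_contDiffAt]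
  intro y
  by_cases hy : y ∈ tsupport F
  · have hyb := hts hy
    have he : clp a R y = y := clp_eq hR hyb
    by_cases h0 : w y = 0
    · have hQ : (n : ℝ) * Q w y - 1 < 0 := by
        have : Q w y = 0 := by
          unfold Q
          rw [h0]
          simp
        rw [this]
        norm_num
      have hQc : Continuous fun y => (n : ℝ) * Q w y - 1 :=
        (continuous_const.mul (Q_c1 hw).continuous).sub continuous_const
      have h1 : (fun y => F y * (Tt θ a R y * ch w n y)) =ᶠ[𝓝 y] fun _ => 0 := by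
        filter_upwards [hQc.continuousAt.eventually (Iio_mem_nhds hQ)] with y' h'
        have : ch w n y' = 0 := Real.smoothTransition.zero_of_nonpos (le_of_lt h')
        rw [this, mul_zero, mul_zero]
      exact contDiffAt_const.congr_of_eventuallyEq h1
    · have h1 : (fun y => F y * (Tt θ a R y * ch w n y)) =ᶠ[𝓝 y]
          fun y' => F y' * (Tt θ a R y * ch w n y') := by
        filter_upwards [Tt_ev hR hwc hθ (by rwa [he])] with y' h'
        rw [h']
      exact ((hF.mul (contDiff_const.mul (ch_c1 hw n))).contDiffAt).congr_of_eventuallyEq h1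
  · have h1 : (fun y => F y * (Tt θ a R y * ch w n y)) =ᶠ[𝓝 y] fun _ => 0 := by
      filter_upwards [notMem_tsupport_iff_eventuallyEq.1 hy] with y' h'
      rw [h']
      simp
    exact contDiffAt_const.congr_of_eventuallyEq h1

lemma Fn_fd (hR : 0 ≤ R) (hw : ∀ i, ContDiff ℝ 1 fun y => w y i) (hθ : Orient θ a R w) {F : V → ℝ}
    (hF : ContDiff ℝ 1 F) (n : ℕ) {y : V} (hy : y ∈ closedBall a R) :
    fderiv ℝ (fun y => F y * (Tt θ a R y * ch w n y)) y (w y)
      = ch w n y * fderiv ℝ F y (Wf θ a R w y) + F y * fderiv ℝ (ch w n) y (Wf θ a R w y) := by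
  have hwc : Continuous w := continuous_pi fun i => (hw i).continuous
  have he : clp a R y = y := clp_eq hR hy
  by_cases h0 : w y = 0
  · have : Wf θ a R w y = 0 := by rw [Wf_eq hR hy, h0, smul_zero]
    rw [this, h0]
    simp
  · have h1 : (fun y => F y * (Tt θ a R y * ch w n y)) =ᶠ[𝓝 y]
        fun y' => F y' * (Tt θ a R y * ch w n y') := by
      filter_upwards [Tt_ev hR hwc hθ (by rwa [he])] with y' h'
      rw [h']
    have a1 := (hF.differentiable one_ne_zero y).hasFDerivAt
    have a2 := ((ch_c1 hw n).differentiable one_ne_zero y).hasFDerivAt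
    have a3 : HasFDerivAt (fun y' => F y' * (Tt θ a R y * ch w n y')) _ y :=
      a1.fun_mul (a2.const_mul (Tt θ a R y))
    rw [h1.fderiv_eq, a3.fderiv, Wf_eq hR hy]
    have e : Tt θ a R y = θ y := by
      unfold Tt
      rw [he]
    rw [e]
    simp only [add_apply, smul_apply, smul_eq_mul, map_smul]
    ring

lemma Wf_wd (hR : 0 ≤ R) (hw : DF w) (hθ : Orient θ a R w) : WD R a (Wf θ a R w) := by
  have hwc : Continuous w := hw.cont
  have hW := Wf_cont hR hwc hθ
  refine ⟨hW, fun F hF hts => ?_⟩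
  have hwd := hw.wd R a
  have hws := hw.smooth
  have cF : Continuous fun y => fderiv ℝ F y (Wf θ a R w y) :=
    (hF.continuous_fderiv one_ne_zero).clm_apply hW
  have cC : ∀ n, Continuous fun y => fderiv ℝ (ch w n) y (Wf θ a R w y) := fun n =>
    ((ch_c1 hws n).continuous_fderiv one_ne_zero).clm_apply hW
  have hms : MeasurableSet (closedBall a R) := isClosed_closedBall.measurableSet
  obtain ⟨B, hB0, hB⟩ := st_bd
  have hI : ∀ n, ∫ y in closedBall a R, ch w n y * fderiv ℝ F y (Wf θ a R w y)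
      = -∫ y in closedBall a R, F y * fderiv ℝ (ch w n) y (Wf θ a R w y) := by
    intro n
    have h1 := hwd.div _ (Fn_c1 hR hws hθ hF hts n) ((tsupport_mul_subset_left).trans hts)
    have h2 : ∫ y in closedBall a R, fderiv ℝ (fun y => F y * (Tt θ a R y * ch w n y)) y (w y)
        = ∫ y in closedBall a R, (ch w n y * fderiv ℝ F y (Wf θ a R w y)
          + F y * fderiv ℝ (ch w n) y (Wf θ a R w y)) :=
      setIntegral_congr_fun hms fun y hy => Fn_fd hR hws hθ hF n hy
    have i1 : Integrable (fun y => ch w n y * fderiv ℝ F y (Wf θ a R w y))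
        (volume.restrict (closedBall a R)) := int_cont ((ch_c1 hws n).continuous.mul cF) a R
    have i2 : Integrable (fun y => F y * fderiv ℝ (ch w n) y (Wf θ a R w y))
        (volume.restrict (closedBall a R)) := int_cont (hF.continuous.mul (cC n)) a R
    rw [h2, integral_add i1 i2] at h1
    linarith
  have hQb : ∀ n : ℕ, ∀ y ∈ closedBall a R,
      |fderiv ℝ (ch w n) y (Wf θ a R w y)| ≤ B * (2 * cb w y) := by
    intro n y hy
    have he : clp a R y = y := clp_eq hR hy
    have hcb : 0 ≤ cb w y := by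
      unfold cb
      positivity
    rw [ch_fd hws]
    by_cases h0 : deriv st (n * Q w y - 1) = 0
    · rw [h0, zero_mul, abs_zero]
      positivity
    · have h1 := st_zero h0
      rw [abs_mul, abs_mul, Nat.abs_cast]
      have h2 := Q_fd hws y (Wf θ a R w y) (by rw [Wf_norm hθ, he])
      have h3 : (n : ℝ) * |fderiv ℝ (Q w) y (Wf θ a R w y)| ≤ 2 * cb w y := by
        calc (n : ℝ) * |fderiv ℝ (Q w) y (Wf θ a R w y)| ≤ n * (cb w y * Q w y) :=
              mul_le_mul_of_nonneg_left h2 (Nat.cast_nonneg n)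
          _ = cb w y * (n * Q w y) := by ring
          _ ≤ cb w y * 2 := mul_le_mul_of_nonneg_left (by linarith [h1.2]) hcb
          _ = _ := mul_comm _ _
      exact mul_le_mul (hB _) h3 (by positivity) hB0
  have hL : Tendsto (fun n => ∫ y in closedBall a R,
      ch w n y * fderiv ℝ F y (Wf θ a R w y)) atTop
      (𝓝 (∫ y in closedBall a R, fderiv ℝ F y (Wf θ a R w y))) := by
    refine tendsto_integral_of_dominated_convergence (fun y => |fderiv ℝ F y (Wf θ a R w y)|)
      (fun n => ((ch_c1 hws n).continuous.mul cF).aestronglyMeasurable) (int_cont cF.abs a R)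
      (fun n => Eventually.of_forall fun y => ?_) ?_
    · rw [Real.norm_eq_abs, abs_mul]
      refine mul_le_of_le_one_left (abs_nonneg _) ?_
      have h0 : 0 ≤ ch w n y := Real.smoothTransition.nonneg _
      rw [abs_of_nonneg h0]
      exact Real.smoothTransition.le_one _
    · refine (ae_restrict_iff' hms).2 (Eventually.of_forall fun y hy => ?_)
      by_cases h0 : w y = 0
      · have : Wf θ a R w y = 0 := by rw [Wf_eq hR hy, h0, smul_zero]
        simp [this]
      · have hQ := Q_pos h0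
        refine tendsto_const_nhds.congr' ?_
        obtain ⟨N, hN⟩ := exists_nat_gt (2 / Q w y)
        filter_upwards [eventually_ge_atTop N] with n hn
        have h1 : (2 : ℝ) ≤ n * Q w y := by
          rw [div_lt_iff₀ hQ] at hN
          have : (N : ℝ) ≤ n := by exact_mod_cast hn
          nlinarith
        have h2 : ch w n y = 1 := Real.smoothTransition.one_of_one_le (by linarith)
        rw [h2, one_mul]
  have hJ : Tendsto (fun n => ∫ y in closedBall a R,
      F y * fderiv ℝ (ch w n) y (Wf θ a R w y)) atTop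
      (𝓝 (∫ y in closedBall a R, (0 : ℝ))) := by
    refine tendsto_integral_of_dominated_convergence
      (fun y => |F y| * (B * (2 * cb w y)))
      (fun n => (hF.continuous.mul (cC n)).aestronglyMeasurable)
      (int_cont (hF.continuous.abs.mul
        (continuous_const.mul (continuous_const.mul (cb_cont hws)))) a R) (fun n => ?_) ?_
    · refine (ae_restrict_iff' hms).2 (Eventually.of_forall fun y hy => ?_)
      rw [Real.norm_eq_abs, abs_mul]
      exact mul_le_mul_of_nonneg_left (hQb n y hy) (abs_nonneg _)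
    · refine (ae_restrict_iff' hms).2 (Eventually.of_forall fun y hy => ?_)
      by_cases h0 : w y = 0
      · have : Wf θ a R w y = 0 := by rw [Wf_eq hR hy, h0, smul_zero]
        simp [this]
      · have hQ := Q_pos h0
        refine tendsto_const_nhds.congr' ?_
        obtain ⟨N, hN⟩ := exists_nat_gt (3 / Q w y)
        filter_upwards [eventually_ge_atTop N] with n hn
        have h1 : (3 : ℝ) ≤ n * Q w y := by
          rw [div_lt_iff₀ hQ] at hN
          have : (N : ℝ) ≤ n := by exact_mod_cast hn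
          nlinarith
        rw [ch_fd hws]
        have h2 : deriv st (n * Q w y - 1) = 0 := by
          by_contra hc
          have := (st_zero hc).2
          linarith
        rw [h2, zero_mul, mul_zero]
  rw [integral_zero] at hJ
  have h3 : Tendsto (fun n => ∫ y in closedBall a R,
      ch w n y * fderiv ℝ F y (Wf θ a R w y)) atTop (𝓝 (-0)) := by
    simp_rw [hI]
    exact hJ.neg
  rw [neg_zero] at h3
  exact tendsto_nhds_unique hL h3

end Pool.Agent.Q85.VL.WdP

namespace Pool.Agent.Q85.VL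

open Pool.Agent.Q85.CC Pool.Agent.Q85.CL Pool.Agent.Q151.CC Pool.Agent.Q85.VL.WdP

theorem t_Wd : StmWd := by
  intro v θ a R hv hR hθ
  refine ⟨Wf θ a R (vort v), Wf_wd hR.le (vort_df hv) hθ, fun y hy => ?_⟩
  exact Wf_eq hR.le (by rwa [mem_closedBall, dist_eq_norm])

end Pool.Agent.Q85.VL
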