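import Pool.Agent.Q85.VL.Fin
import Pool.Agent.Q85.VL.Cor
import Pool.Agent.Helper24.VL.Pin
import Pool.Agent.Helper24.VL.AnaS
import Pool.Agent.Helper24.VL.Wd
import Pool.Agent.Helper24.VL.G
import Pool.Agent.Helper24.VL.Mol
import Pool.Agent.Helper24.VL.GoodS
import Pool.Agent.Q85.CL.All
import Pool.Agent.Q284.CL.Dom

/-!
Project VL: all the parts together.
-/

set_option autoImplicit false

open MeasureTheory Set Metric Filter Topology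
open H459R3.NS Pool.Agent.W268.NS Pool.Agent.Q67.VD

namespace Pool.Agent.Q85.VL

open Pool.Agent.Q85.CC Pool.Agent.Q85.CL

theorem t_Lyap : StmLyap :=
  lyap Pool.Agent.Q284.CL.velL stmEnL stmEnS Pool.Agent.Q95.CL.regK Pool.Agent.Q81.CL.l1L
    t_GoodS t_AnaS t_MorV t_PinV ks

/-- Chains of vortex arcs at a singular point. -/
theorem chains {ν T E : ℝ} {Ω : Set V} {u : ℝ → V → V} {p : ℝ → V → ℝ} (hν : 0 < ν)
    (h : DSl ν T E Ω u p) {a : V} (ha : a ∈ Ω) (hs : Sing T u a) {T₀ ε R : ℝ} {m : ℝ → V → ℝ}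
    (hT0 : 0 ≤ T₀) (hT₀ : T₀ < T) (hε : 0 < ε) (hR : 0 < R)
    (hmc : ∀ t ∈ Ioo T₀ T, Continuous (m t)) (hm0 : ∀ t ∈ Ioo T₀ T, ∀ y, 0 ≤ m t y)
    (hK : Kato T₀ T a R m) :
    ∃ t ∈ Ioo T₀ T, ∀ θ : V → ℝ, Orient θ a R (vort (u t)) →
      Chained (fun y => θ y • vort (u t) y) {y | ‖y - a‖ ≤ R ∧ m t y < om (u t) y} ε :=
  chain_D t_Lyap t_Wd t_G t_Mol Pool.Agent.Q284.CL.dom hν h ha hs hT0 hT₀ hε hR hmc hm0 hK

end Pool.Agent.Q85.VL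

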