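import Pool.Agent.Q85.VL.Defs

/-!
Project VL: the smooth step and the smooth distance (VL-1).
-/

set_option autoImplicit false

open MeasureTheory Set Metric Filter Topology
open scoped ContDiff
open H459R3.NS Pool.Agent.W268.NS Pool.Agent.Q67.VD

namespace Pool.Agent.Q85.VL

/-! ### The Euclidean length -/

lemma ln_nonneg (a : V) : 0 ≤ len a := Real.sqrt_nonneg _

lemma ln_eq (a : V) : len a = ‖(WithLp.toLp 2 a : EuclideanSpace ℝ (Fin 3))‖ := by
  rw [EuclideanSpace.norm_eq, len]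
  congr 1
  simp only [dotProduct, Real.norm_eq_abs, sq_abs]
  exact Finset.sum_congr rfl fun i _ => (sq _).symm

lemma ln_add_le (a b : V) : len (a + b) ≤ len a + len b := by
  rw [ln_eq, ln_eq, ln_eq, WithLp.toLp_add]
  exact norm_add_le _ _

lemma ln_smul (c : ℝ) (a : V) : len (c • a) = |c| * len a := by
  rw [ln_eq, ln_eq, WithLp.toLp_smul, norm_smul, Real.norm_eq_abs]

lemma ln_neg (a : V) : len (-a) = len a := by
  rw [ln_eq, ln_eq, WithLp.toLp_neg, norm_neg]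

lemma ln_sub_comm (a b : V) : len (a - b) = len (b - a) := by
  rw [← ln_neg, neg_sub]

lemma ln_zero : len (0 : V) = 0 := by
  rw [ln_eq, WithLp.toLp_zero, norm_zero]

lemma ln_sub_le (a b c : V) : len (a - c) ≤ len (a - b) + len (b - c) := by
  have h : a - c = (a - b) + (b - c) := by abel
  rw [h]
  exact ln_add_le _ _

lemma ln_sq (a : V) : len a ^ 2 = a ⬝ᵥ a := by
  unfold len
  rw [Real.sq_sqrt]
  exact Finset.sum_nonneg fun i _ => mul_self_nonneg _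

lemma dot_nn' (a : V) : 0 ≤ a ⬝ᵥ a := Finset.sum_nonneg fun _ _ => mul_self_nonneg _

lemma norm_le_ln (a : V) : ‖a‖ ≤ len a := by
  rw [pi_norm_le_iff_of_nonneg (ln_nonneg a)]
  intro i
  rw [Real.norm_eq_abs]
  refine Real.abs_le_sqrt ?_
  rw [dotProduct, Fin.sum_univ_three]
  fin_cases i <;> simp only [Fin.zero_eta, Fin.mk_one, Fin.reduceFinMk] <;>
    nlinarith [mul_self_nonneg (a 0), mul_self_nonneg (a 1), mul_self_nonneg (a 2)]

lemma ln_cont : Continuous len := by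
  unfold len
  exact Real.continuous_sqrt.comp (by fun_prop)

lemma dot_le_of_norm {a : V} {s : ℝ} (h : ‖a‖ ≤ s) : a ⬝ᵥ a ≤ 3 * s ^ 2 := by
  have hs : 0 ≤ s := (norm_nonneg a).trans h
  have h1 : ∀ i, a i * a i ≤ s ^ 2 := by
    intro i
    have h2 : |a i| ≤ s := by
      rw [← Real.norm_eq_abs]
      exact (norm_le_pi_norm a i).trans h
    nlinarith [abs_mul_abs_self (a i), abs_nonneg (a i)]
  simp only [dotProduct, Fin.sum_univ_three]
  linarith [h1 0, h1 1, h1 2]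

/-- `√3 < 7 / 4`. -/
lemma ln_le_norm {a : V} {s : ℝ} (h : ‖a‖ ≤ s) : len a ≤ 7 / 4 * s := by
  have hs : 0 ≤ s := (norm_nonneg a).trans h
  have h1 := dot_le_of_norm h
  rw [← ln_sq] at h1
  have h2 : len a ^ 2 ≤ (7 / 4 * s) ^ 2 := by nlinarith [sq_nonneg s]
  exact abs_le_of_sq_le_sq' h2 (by positivity) |>.2

/-- A function with Lipschitz constant one. -/
lemma lip_fderiv {φ : V → ℝ} (hl : ∀ y z, |φ y - φ z| ≤ len (y - z)) {y : V}
    (hd : DifferentiableAt ℝ φ y) (n : V) : |fderiv ℝ φ y n| ≤ len n := by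
  have h1 : HasDerivAt (fun t : ℝ => φ (y + t • n)) (fderiv ℝ φ y n) 0 := by
    have h2 : HasDerivAt (fun t : ℝ => y + t • n) n 0 := by
      simpa using ((hasDerivAt_id (0 : ℝ)).smul_const n).const_add y
    have h3 : HasFDerivAt φ (fderiv ℝ φ y) (y + (0 : ℝ) • n) := by
      simpa using hd.hasFDerivAt
    exact h3.comp_hasDerivAt 0 h2
  have h4 := h1.tendsto_slope_zero.abs
  refine le_of_tendsto h4 ?_
  filter_upwards [self_mem_nhdsWithin] with t ht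
  have ht' : 0 < |t| := abs_pos.2 ht
  rw [smul_eq_mul, abs_mul, abs_inv, inv_mul_le_iff₀ ht']
  refine (hl _ _).trans (le_of_eq ?_)
  rw [← ln_smul]
  congr 1
  simp

/-! ### The smooth step -/

lemma clp_cases (s : ℝ) : (s ≤ 0 ∧ max 0 (min 1 s) = 0) ∨ (0 ≤ s ∧ s ≤ 1 ∧ max 0 (min 1 s) = s) ∨
    (1 ≤ s ∧ max 0 (min 1 s) = 1) := by
  rcases le_total s 0 with h | h
  · left
    exact ⟨h, by rw [min_eq_right (by linarith), max_eq_left h]⟩
  · rcases le_total s 1 with h1 | h1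
    · right; left
      exact ⟨h, h1, by rw [min_eq_right h1, max_eq_right h]⟩
    · right; right
      exact ⟨h1, by rw [min_eq_left h1, max_eq_right zero_le_one]⟩

lemma clp_mem (s : ℝ) : 0 ≤ max 0 (min 1 s) ∧ max 0 (min 1 s) ≤ 1 :=
  ⟨le_max_left _ _, max_le zero_le_one (min_le_left _ _)⟩

lemma stp_nonneg (s : ℝ) : 0 ≤ stp s := by
  obtain ⟨h0, h1⟩ := clp_mem s
  unfold stp
  nlinarith [mul_nonneg (sq_nonneg (max 0 (min 1 s))) (sub_nonneg.2 h1)]

lemma stp_le_one (s : ℝ) : stp s ≤ 1 := by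
  obtain ⟨h0, h1⟩ := clp_mem s
  unfold stp
  nlinarith [mul_nonneg (sq_nonneg (max 0 (min 1 s) - 1)) (by linarith : 0 ≤ 1 + 2 * max 0 (min 1 s))]

lemma stp'_nonneg (s : ℝ) : 0 ≤ stp' s := by
  obtain ⟨h0, h1⟩ := clp_mem s
  unfold stp'
  exact mul_nonneg (mul_nonneg (by norm_num) h0) (by linarith)

lemma stp'_le (s : ℝ) : stp' s ≤ 3 / 2 := by
  unfold stp'
  nlinarith [sq_nonneg (2 * max 0 (min 1 s) - 1)]

lemma stp_zero {s : ℝ} (h : s ≤ 0) : stp s = 0 := by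
  unfold stp
  rw [min_eq_right (by linarith), max_eq_left h]
  norm_num

lemma stp_one {s : ℝ} (h : 1 ≤ s) : stp s = 1 := by
  unfold stp
  rw [min_eq_left h, max_eq_right zero_le_one]
  norm_num

lemma stp_pos_of {s : ℝ} (h : stp s ≠ 0) : 0 < s := by
  by_contra hc
  exact h (stp_zero (not_lt.1 hc))

lemma stp_lt_of {s : ℝ} (h : stp s ≠ 1) : s < 1 := by
  by_contra hc
  exact h (stp_one (not_lt.1 hc))

lemma stp'_zero {s : ℝ} (h : s ≤ 0) : stp' s = 0 := by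
  unfold stp'
  rw [min_eq_right (by linarith), max_eq_left h]
  norm_num

lemma stp'_zero' {s : ℝ} (h : 1 ≤ s) : stp' s = 0 := by
  unfold stp'
  rw [min_eq_left h, max_eq_right zero_le_one]
  norm_num

lemma stp'_mem {s : ℝ} (h : stp' s ≠ 0) : 0 < s ∧ s < 1 := by
  constructor
  · by_contra hc
    exact h (stp'_zero (not_lt.1 hc))
  · by_contra hc
    exact h (stp'_zero' (not_lt.1 hc))

lemma stp'_eq {s : ℝ} (h0 : 0 ≤ s) (h1 : s ≤ 1) : stp' s = 6 * s * (1 - s) := by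
  unfold stp'
  rw [min_eq_right h1, max_eq_right h0]

lemma stp_mono : Monotone stp := by
  intro s t hst
  obtain ⟨h0, h1⟩ := clp_mem s
  obtain ⟨h2, h3⟩ := clp_mem t
  have h4 : max 0 (min 1 s) ≤ max 0 (min 1 t) := max_le_max le_rfl (min_le_min le_rfl hst)
  unfold stp
  set c := max 0 (min 1 s)
  set d := max 0 (min 1 t)
  have h5 : 0 ≤ 3 * (d + c) - 2 * (d ^ 2 + d * c + c ^ 2) := by
    nlinarith [mul_nonneg h2 (sub_nonneg.2 h3), mul_nonneg h0 (sub_nonneg.2 h1),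
      mul_nonneg h0 (sub_nonneg.2 h3), mul_nonneg h2 (sub_nonneg.2 h1)]
  nlinarith [mul_nonneg (sub_nonneg.2 h4) h5]

lemma stp_quad (s t : ℝ) : |stp t - stp s - stp' s * (t - s)| ≤ 9 * (t - s) ^ 2 := by
  unfold stp stp'
  rw [abs_le]
  rcases clp_cases s with ⟨hs, es⟩ | ⟨hs, hs1, es⟩ | ⟨hs, es⟩ <;>
  rcases clp_cases t with ⟨ht, et⟩ | ⟨ht, ht1, et⟩ | ⟨ht, et⟩ <;> rw [es, et]
  · constructor <;> nlinarith [sq_nonneg (t - s)]
  · constructor
    · nlinarith [sq_nonneg (t - s), mul_nonneg (sq_nonneg t) (sub_nonneg.2 ht1)]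
    · nlinarith [sq_nonneg (t - s), mul_nonneg (sq_nonneg t) ht, mul_nonneg ht (neg_nonneg.2 hs)]
  · constructor <;> nlinarith [sq_nonneg (t - s)]
  · constructor
    · nlinarith [sq_nonneg (t - s), mul_nonneg hs (neg_nonneg.2 ht), mul_nonneg hs (sub_nonneg.2 hs1),
        mul_nonneg (sq_nonneg s) hs, mul_nonneg (mul_nonneg hs (sub_nonneg.2 hs1)) (neg_nonneg.2 ht)]
    · nlinarith [sq_nonneg (t - s), mul_nonneg hs (neg_nonneg.2 ht), mul_nonneg hs (sub_nonneg.2 hs1),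
        mul_nonneg (sq_nonneg s) hs, mul_nonneg (mul_nonneg hs (sub_nonneg.2 hs1)) (neg_nonneg.2 ht)]
  · have e : 3 * t ^ 2 - 2 * t ^ 3 - (3 * s ^ 2 - 2 * s ^ 3) - 6 * s * (1 - s) * (t - s)
        = (t - s) ^ 2 * (3 - 2 * t - 4 * s) := by ring
    rw [e]
    constructor <;> nlinarith [sq_nonneg (t - s), mul_nonneg (sq_nonneg (t - s)) hs,
      mul_nonneg (sq_nonneg (t - s)) ht, mul_nonneg (sq_nonneg (t - s)) (sub_nonneg.2 hs1),
      mul_nonneg (sq_nonneg (t - s)) (sub_nonneg.2 ht1)]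
  · have h1 : 0 ≤ 1 - s := sub_nonneg.2 hs1
    have h2 : 1 - s ≤ t - s := by linarith
    have e : 3 * (1 : ℝ) ^ 2 - 2 * 1 ^ 3 - (3 * s ^ 2 - 2 * s ^ 3) - 6 * s * (1 - s) * (t - s)
        = (1 - s) ^ 2 * (1 + 2 * s) - 6 * s * (1 - s) * (t - s) := by ring
    rw [e]
    have h3 : (1 - s) ^ 2 ≤ (t - s) ^ 2 := pow_le_pow_left₀ h1 h2 2
    have h4 : (1 - s) * (t - s) ≤ (t - s) ^ 2 := by nlinarith
    have h5 : 0 ≤ (1 - s) * (t - s) := mul_nonneg h1 (h1.trans h2)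
    constructor
    · nlinarith [mul_nonneg hs h5, mul_nonneg (sub_nonneg.2 hs1) h5, sq_nonneg (1 - s),
        mul_nonneg hs (sq_nonneg (1 - s))]
    · nlinarith [mul_nonneg hs h5, mul_nonneg (sub_nonneg.2 hs1) h5, sq_nonneg (1 - s),
        mul_nonneg hs (sq_nonneg (1 - s)), mul_nonneg (sub_nonneg.2 hs1) (sq_nonneg (1 - s))]
  · constructor <;> nlinarith [sq_nonneg (t - s)]
  · have h1 : 0 ≤ 1 - t := sub_nonneg.2 ht1
    have h2 : 1 - t ≤ s - t := by linarith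
    have h3 : (1 - t) ^ 2 ≤ (s - t) ^ 2 := pow_le_pow_left₀ h1 h2 2
    have e : 3 * t ^ 2 - 2 * t ^ 3 - (3 * 1 ^ 2 - 2 * 1 ^ 3) - 6 * 1 * (1 - 1) * (t - s)
        = - ((1 - t) ^ 2 * (1 + 2 * t)) := by ring
    rw [e]
    constructor <;> nlinarith [mul_nonneg ht (sq_nonneg (1 - t)), mul_nonneg h1 (sq_nonneg (1 - t)),
      sq_nonneg (1 - t)]
  · constructor <;> nlinarith [sq_nonneg (t - s)]

lemma stp_der (s : ℝ) : HasDerivAt stp (stp' s) s := by
  rw [hasDerivAt_iff_isLittleO]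
  have h : (fun t => stp t - stp s - (t - s) • stp' s) =O[𝓝 s] fun t => (t - s) ^ 2 := by
    refine Asymptotics.IsBigO.of_bound 9 (Eventually.of_forall fun t => ?_)
    rw [Real.norm_eq_abs, Real.norm_eq_abs, abs_of_nonneg (sq_nonneg (t - s)), smul_eq_mul,
      mul_comm (t - s)]
    exact stp_quad s t
  refine h.trans_isLittleO ?_
  have h2 : (fun t : ℝ => (t - s) ^ 2) = fun t => (t - s) * (t - s) := by
    funext t; ring
  rw [h2]
  have h3 : (fun t : ℝ => t - s) =o[𝓝 s] fun _ => (1 : ℝ) := by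
    rw [Asymptotics.isLittleO_one_iff]
    have : Tendsto (fun t : ℝ => t - s) (𝓝 s) (𝓝 (s - s)) := tendsto_id.sub_const s
    simpa using this
  simpa using h3.mul_isBigO (Asymptotics.isBigO_refl (fun t : ℝ => t - s) (𝓝 s))

lemma stp'_cont : Continuous stp' := by
  unfold stp'
  fun_prop

lemma stp_c1 : ContDiff ℝ 1 stp := by
  rw [contDiff_one_iff_deriv]
  refine ⟨fun s => (stp_der s).differentiableAt, ?_⟩
  have : deriv stp = stp' := funext fun s => (stp_der s).deriv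
  rw [this]
  exact stp'_cont

lemma stp_comp_c1 {φ : V → ℝ} (h : ContDiff ℝ 1 φ) : ContDiff ℝ 1 fun y => stp (φ y) :=
  stp_c1.comp h

lemma stp_comp_fd {φ : V → ℝ} (h : ContDiff ℝ 1 φ) (y n : V) :
    fderiv ℝ (fun y => stp (φ y)) y n = stp' (φ y) * fderiv ℝ φ y n := by
  have h1 := (h.differentiable one_ne_zero y).hasFDerivAt
  have h2 := (stp_der (φ y)).comp_hasFDerivAt y h1
  have h3 : fderiv ℝ (fun y => stp (φ y)) y = stp' (φ y) • fderiv ℝ φ y := h2.fderiv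
  rw [h3]
  rfl

/-! ### The smooth distance -/

lemma ds_eq (x : V) (ρ : ℝ) (y : V) : ds x ρ y = √(len (y - x) ^ 2 + ρ ^ 2) := by
  unfold ds
  rw [ln_sq]

lemma ds_sq (x : V) (ρ : ℝ) (y : V) : ds x ρ y ^ 2 = len (y - x) ^ 2 + ρ ^ 2 := by
  rw [ds_eq, Real.sq_sqrt (by positivity)]

lemma ds_nonneg (x : V) (ρ : ℝ) (y : V) : 0 ≤ ds x ρ y := Real.sqrt_nonneg _

lemma ds_smooth (x : V) {ρ : ℝ} (hρ : 0 < ρ) : ContDiff ℝ ∞ (ds x ρ) := by
  unfold ds
  refine ContDiff.sqrt ?_ fun y => ?_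
  · have : (fun y : V => (y - x) ⬝ᵥ (y - x) + ρ ^ 2) = fun y : V => (y 0 - x 0) * (y 0 - x 0)
        + (y 1 - x 1) * (y 1 - x 1) + (y 2 - x 2) * (y 2 - x 2) + ρ ^ 2 := by
      funext y
      simp [dotProduct, Fin.sum_univ_three]
    rw [this]
    fun_prop
  · have := dot_nn' (y - x)
    positivity

lemma ln_le_ds (x : V) (ρ : ℝ) (y : V) : len (y - x) ≤ ds x ρ y := by
  refine abs_le_of_sq_le_sq' ?_ (ds_nonneg _ _ _) |>.2
  rw [ds_sq]
  nlinarith [sq_nonneg ρ]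

lemma le_ds (x : V) {ρ : ℝ} (y : V) : ρ ≤ ds x ρ y := by
  refine abs_le_of_sq_le_sq' ?_ (ds_nonneg _ _ _) |>.2
  rw [ds_sq]
  nlinarith [sq_nonneg (len (y - x))]

lemma ds_le (x : V) {ρ : ℝ} (hρ : 0 ≤ ρ) (y : V) : ds x ρ y ≤ len (y - x) + ρ := by
  have h := ln_nonneg (y - x)
  refine abs_le_of_sq_le_sq' ?_ (by positivity) |>.2
  rw [ds_sq]
  nlinarith [mul_nonneg h hρ]

lemma norm_le_ds (x : V) (ρ : ℝ) (y : V) : ‖y - x‖ ≤ ds x ρ y :=
  (norm_le_ln _).trans (ln_le_ds _ _ _)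

lemma ds_le_two (x : V) {ρ : ℝ} (y : V) (h : ‖y - x‖ ≤ ρ) : ds x ρ y ≤ 2 * ρ := by
  have hρ : 0 ≤ ρ := (norm_nonneg _).trans h
  have h1 := dot_le_of_norm h
  rw [← ln_sq] at h1
  refine abs_le_of_sq_le_sq' ?_ (by positivity) |>.2
  rw [ds_sq]
  nlinarith

lemma ds_lip (x : V) {ρ : ℝ} (y z : V) : |ds x ρ y - ds x ρ z| ≤ len (y - z) := by
  have key : ∀ y z : V, ds x ρ y ≤ ds x ρ z + len (y - z) := by
    intro y z
    have h1 := ln_nonneg (y - z)
    have h2 := ln_nonneg (z - x)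
    have h3 := ln_sub_le y z x
    have h5 := ln_le_ds x ρ z
    have h6 := ds_nonneg x ρ z
    have h0 := ln_nonneg (y - x)
    refine abs_le_of_sq_le_sq' ?_ (by positivity) |>.2
    have h4 := ds_sq x ρ z
    rw [ds_sq]
    have h7 : len (y - x) ^ 2 ≤ (len (y - z) + len (z - x)) ^ 2 := pow_le_pow_left₀ h0 h3 2
    nlinarith [mul_nonneg h1 (sub_nonneg.2 h5)]
  rw [abs_le]
  constructor
  · have := key z y
    rw [ln_sub_comm] at this
    linarith
  · linarith [key y z]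

lemma ds_fd (x : V) {ρ : ℝ} (hρ : 0 < ρ) (y n : V) : |fderiv ℝ (ds x ρ) y n| ≤ len n :=
  lip_fderiv (fun y z => ds_lip x y z)
    ((ds_smooth x hρ).differentiable (by simp) y) n

theorem t_Bas : StmBas := by
  refine ⟨stp_der, stp_c1, stp'_cont, stp_mono, fun s => ⟨stp_nonneg s, stp_le_one s,
    stp'_nonneg s, (stp'_le s).trans (by norm_num)⟩, fun s => stp_zero, fun s => stp_one,
    fun s => stp'_mem, fun s => stp_pos_of, fun s => stp_lt_of, fun x ρ hρ => ?_⟩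
  exact ⟨ds_smooth x hρ, ln_le_ds x ρ, fun y => le_ds x y, ds_le x hρ.le, norm_le_ds x ρ,
    fun y => ds_le_two x y, fun y z => ds_lip x y z, ds_fd x hρ⟩

end Pool.Agent.Q85.VL
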