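import Pool.Agent.Q85.VL.Assem
import Pool.Agent.Helper24.VL.Pin

/-!
Project VL: the local theorem for fields which are comparable with the vorticity in size.
(The proof of `assemV2` is the one of `assemV` of `Pool.Agent.Q85.VL.Assem` by helper85.)
-/

set_option autoImplicit false

open MeasureTheory Set Metric Filter Topology
open scoped ContDiff
open H459R3.NS Pool.Agent.W268.NS Pool.Agent.Q67.VD

namespace Pool.Agent.Q85.VL

open Pool.Agent.Q85.CC Pool.Agent.Q85.CL Pool.Agent.Q151.CC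

/-- The outcome of the pinching argument. -/
def Pin3 (T₀ T : ℝ) (a : V) (ρ₀ : ℝ) (u : ℝ → V → V) : Prop :=
  ∃ b c : ℝ, 0 < b ∧ 0 < c ∧ c ≤ 1 ∧
    ∀ η τ w₁ : ℝ, 0 < η → η ≤ 1 → 0 < τ → τ ≤ 1 → 0 < w₁ → w₁ ≤ 1 → ∃ (N : ℕ) (S₀ : ℝ), 0 < S₀ ∧
      ∀ t ∈ Ioo T₀ T, ∀ x ∈ closedBall a (ρ₀ / 2), ∀ S ρ : ℝ, 0 < S → S ≤ S₀ → 0 < ρ →
        ρ ≤ (1 / 256) ^ N * S → η * ρ ≤ ∫ y in closedBall x ρ, om (u t) y →
        ∃ k < N, ∀ s : ℝ, (1 / 256) ^ k * (S / 4) / 64 ≤ s → s ≤ (1 / 256) ^ k * (S / 4) / 32 →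
          (∃ z, ‖z - x‖ = s ∧ ∫ y in closedBall z (b * ((1 / 256) ^ k * (S / 4))), om (u t) y
            ≤ τ * ((1 / 256) ^ k * (S / 4))) ∧
          ∀ w : ℝ, w₁ * ((1 / 256) ^ k * (S / 4)) ≤ w → w ≤ s / 4 →
            c * η * w ≤ ∫ y in Shell x s w, om (u t) y

set_option maxHeartbeats 1600000 in
theorem assemV2 (hVel : StmVelL) (hEn : StmEnL) (hEnS : StmEnS) (hReg : Pool.Agent.Q95.CL.StmRegK)
    (hGood : StmGoodS) (hAna : StmAnaS) {T E : ℝ} {O : Set V} {u : ℝ → V → V} {p : ℝ → V → ℝ}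
    (hT : 0 < T) (hu : LSl T E O u p) {T₀ K ρ₀ : ℝ} {a : V} (hT₀ : 0 ≤ T₀) (hT₀T : T₀ < T)
    (hK : 0 < K) (hρ₀ : 0 < ρ₀) (hO : closedBall a ρ₀ ⊆ O)
    (hMor : ∀ t ∈ Ioo T₀ T, MorB K a ρ₀ (om (u t))) (hP : Pin3 T₀ T a ρ₀ u) :
    ∃ B δ : ℝ, 0 < δ ∧ ∀ t ∈ Ioo (T - δ) T, 0 < t → ∀ x ∈ closedBall a δ, ‖u t x‖ ≤ B := by
  obtain ⟨CV, hCV, hVel⟩ := hVel
  obtain ⟨cG, hcG, hGood⟩ := hGood
  by_contra hcon
  have hIoo : ∀ t ∈ Ioo T₀ T, t ∈ Ioo 0 T := fun t ht => ⟨hT₀.trans_lt ht.1, ht.2⟩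
  have hE0 : 0 ≤ E := by
    have h1 : (T₀ + T) / 2 ∈ Ioo 0 T := ⟨by linarith, by linarith⟩
    exact (integral_nonneg fun y => nsq_nnL _ _).trans (hu.en _ h1)
  -- the dissipation
  obtain ⟨C₁, r₁, hC₁, hr₁, hdis⟩ := hEn T E O u p hT hu T₀ K ρ₀ a hT₀ hT₀T hK hρ₀ hO hMor
  -- the mollified velocity
  obtain ⟨KV, hKVd⟩ : ∃ KV, KV = CV * (K + √(E / ρ₀ ^ 3)) := ⟨_, rfl⟩
  have hKV : 0 ≤ KV := by rw [hKVd]; positivity
  have hmol : ∀ τ ∈ Ioo T₀ T, ∀ y, ‖y - a‖ ≤ ρ₀ / 2 → ∀ ρ, 0 < ρ → ρ ≤ ρ₀ / 4 → ρ ≤ 1 →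
      ‖W221.NS.mol ρ u τ y‖ ≤ KV / ρ := by
    intro τ hτ y hy ρ hρ hρR hρ1
    have hτI := hIoo τ hτ
    rw [pi_norm_le_iff_of_nonneg (by positivity)]
    intro i
    have h1 := (hVel (u τ) a K ρ₀ ρ (slice_u hu.toLEq hτI)
      (fun x hx => hu.divfree τ hτI x (hO (ball_subset_closedBall hx))) hK.le hρ hρR
      (hMor τ hτ) y hy i).2
    rw [Real.norm_eq_abs]
    refine h1.trans ?_
    rw [hKVd, mul_div_assoc]
    refine mul_le_mul_of_nonneg_left ?_ hCV.le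
    rw [add_div]
    have henb : ∫ z in closedBall a ρ₀, W221.NS.nsq (u τ) z ≤ E :=
      (setIntegral_mono_set (hu.en_int τ hτI) (Eventually.of_forall fun y => nsq_nnL _ _)
        hO.eventuallyLE).trans (hu.en τ hτI)
    have h2 : √((∫ z in closedBall a ρ₀, W221.NS.nsq (u τ) z) / ρ₀ ^ 3) ≤ √(E / ρ₀ ^ 3) :=
      Real.sqrt_le_sqrt (div_le_div_of_nonneg_right henb (by positivity))
    have h3 : √(E / ρ₀ ^ 3) ≤ √(E / ρ₀ ^ 3) / ρ := by
      rw [le_div_iff₀ hρ]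
      exact mul_le_of_le_one_right (Real.sqrt_nonneg _) hρ1
    linarith
  obtain ⟨ε, hε, hReg⟩ := hReg KV hKV
  obtain ⟨cS, hcS, hSmall⟩ := hEnS ε hε
  -- the constants of the parts
  obtain ⟨b, cP, hb, hcP, hcP1, hPin⟩ := hP
  obtain ⟨h, L, hh, hh1, hL, hGood⟩ := hGood KV C₁ hKV hC₁
  obtain ⟨r₀, hr₀, hGood⟩ := hGood T E O u p hT hu a ρ₀ hρ₀ hO
  obtain ⟨η, hηd⟩ : ∃ η, η = min cS 1 := ⟨_, rfl⟩
  have hη : 0 < η := by rw [hηd]; exact lt_min hcS one_pos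
  have hη1 : η ≤ 1 := by rw [hηd]; exact min_le_right _ _
  have hηc : η ≤ cS := by rw [hηd]; exact min_le_left _ _
  obtain ⟨τ, w₀, hτ, hw₀, hw₀h, hAna⟩ := hAna cG h (8 * cP * η) b hcG hh hh1 (by positivity) hb
  obtain ⟨τ', hτ'd⟩ : ∃ τ', τ' = min τ 1 := ⟨_, rfl⟩
  have hτ' : 0 < τ' := by rw [hτ'd]; exact lt_min hτ one_pos
  have hτ'1 : τ' ≤ 1 := by rw [hτ'd]; exact min_le_right _ _
  have hτ'τ : τ' ≤ τ := by rw [hτ'd]; exact min_le_left _ _
  obtain ⟨w₁, hw₁d⟩ : ∃ w₁, w₁ = min w₀ (1 / 256) := ⟨_, rfl⟩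
  have hw₁ : 0 < w₁ := by rw [hw₁d]; exact lt_min hw₀ (by norm_num)
  have hw₁1 : w₁ ≤ 1 := by rw [hw₁d]; exact (min_le_right _ _).trans (by norm_num)
  have hw₁w : w₁ ≤ w₀ := by rw [hw₁d]; exact min_le_left _ _
  have hw₁s : w₁ ≤ 1 / 256 := by rw [hw₁d]; exact min_le_right _ _
  obtain ⟨N, S₀, hS₀, hPin⟩ := hPin η τ' w₁ hη hη1 hτ' hτ'1 hw₁ hw₁1
  -- the large scale
  have hL0 : 0 < L := by linarith
  obtain ⟨S, hSd⟩ : ∃ S, S = min (min S₀ (min (ρ₀ / 4) 1)) (min r₀ (min (r₁ / L)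
    ((T - T₀) / (2 * L)))) := ⟨_, rfl⟩
  have hS : 0 < S := by
    rw [hSd]
    refine lt_min (lt_min hS₀ (lt_min (by positivity) one_pos)) (lt_min hr₀ (lt_min (by positivity)
      ?_))
    exact div_pos (by linarith) (by positivity)
  have hS0 : S ≤ S₀ := by rw [hSd]; exact (min_le_left _ _).trans (min_le_left _ _)
  have hS1 : S ≤ ρ₀ / 4 := by
    rw [hSd]; exact (min_le_left _ _).trans ((min_le_right _ _).trans (min_le_left _ _))
  have hSle1 : S ≤ 1 := by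
    rw [hSd]; exact (min_le_left _ _).trans ((min_le_right _ _).trans (min_le_right _ _))
  have hS2 : S ≤ r₀ := by rw [hSd]; exact (min_le_right _ _).trans (min_le_left _ _)
  have hS3 : S ≤ r₁ / L := by
    rw [hSd]; exact (min_le_right _ _).trans ((min_le_right _ _).trans (min_le_left _ _))
  have hS4 : S ≤ (T - T₀) / (2 * L) := by
    rw [hSd]; exact (min_le_right _ _).trans ((min_le_right _ _).trans (min_le_right _ _))
  -- concentration
  obtain ⟨ρ', hρ'd⟩ : ∃ ρ', ρ' = min ((1 / 256) ^ N * S) (ρ₀ / 4) := ⟨_, rfl⟩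
  have hρ' : 0 < ρ' := by rw [hρ'd]; exact lt_min (by positivity) (by positivity)
  have hρ'1 : ρ' ≤ (1 / 256) ^ N * S := by rw [hρ'd]; exact min_le_left _ _
  have hρ'2 : ρ' ≤ ρ₀ / 4 := by rw [hρ'd]; exact min_le_right _ _
  obtain ⟨T₁, hT₁d⟩ : ∃ T₁, T₁ = max ((T₀ + T) / 2) (T / 2) := ⟨_, rfl⟩
  have hT₁1 : (T₀ + T) / 2 ≤ T₁ := by rw [hT₁d]; exact le_max_left _ _
  have hT₁2 : T / 2 ≤ T₁ := by rw [hT₁d]; exact le_max_right _ _
  have hT₁T : T₁ < T := by rw [hT₁d]; exact max_lt (by linarith) (by linarith)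
  have hex : ∃ t, T₁ < t ∧ t < T ∧ ∃ x ρ, 0 < ρ ∧ ‖x - a‖ + ρ ≤ ρ' ∧
      η * ρ ≤ ∫ y in closedBall x ρ, om (u t) y := by
    by_contra hno
    push Not at hno
    obtain ⟨r₂, hr₂, hsm⟩ := hSmall T E O u p hT hu T₁ ρ' a (by linarith) hT₁T hρ'
      ((closedBall_subset_closedBall (by linarith)).trans hO) (by
        intro t ht x r hr hxr
        have h1 := hno t ht.1 ht.2 x r hr hxr
        rw [abs_omL]
        exact h1.le.trans (mul_le_mul_of_nonneg_right hηc hr.le))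
    obtain ⟨r₃, hr₃d⟩ : ∃ r₃, r₃ = min r₂ (min (ρ₀ / 4) 1) := ⟨_, rfl⟩
    have hr₃ : 0 < r₃ := by rw [hr₃d]; exact lt_min hr₂ (lt_min (by positivity) one_pos)
    have hr₃2 : r₃ ≤ r₂ := by rw [hr₃d]; exact min_le_left _ _
    have hr₃3 : r₃ ≤ ρ₀ / 4 := by rw [hr₃d]; exact (min_le_right _ _).trans (min_le_left _ _)
    have hr₃4 : r₃ ≤ 1 := by rw [hr₃d]; exact (min_le_right _ _).trans (min_le_right _ _)
    obtain ⟨B, δ, hδ, hbd⟩ := hReg T E O u p hT hu ((T₁ + T) / 2) r₃ (ρ' / 2) a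
      (by linarith) (by linarith) hr₃ (by positivity)
      ((closedBall_subset_closedBall (by linarith)).trans hO)
      (fun t ht x hx r hr => hmol t ⟨by linarith [ht.1], ht.2⟩ x (by
        rw [mem_closedBall, dist_eq_norm] at hx
        linarith) r hr.1 (hr.2.trans hr₃3) (hr.2.trans hr₃4))
      (fun t ht x hx r hr => hsm t ht x hx r ⟨hr.1, hr.2.trans hr₃2⟩)
    refine hcon ⟨B, min δ (ρ' / 4), lt_min hδ (by positivity), fun t ht ht0 x hx => ?_⟩
    refine hbd t ⟨?_, ht.2⟩ ht0 x (closedBall_subset_closedBall ?_ hx)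
    · linarith [ht.1, min_le_left δ (ρ' / 4)]
    · linarith [min_le_right δ (ρ' / 4)]
  obtain ⟨t, ht1, ht2, x, ρ, hρ, hxρ, hconc⟩ := hex
  have htT : t ∈ Ioo T₀ T := ⟨by linarith, ht2⟩
  have hxa : ‖x - a‖ ≤ ρ₀ / 4 := by linarith
  have hρρ' : ρ ≤ ρ' := by linarith [norm_nonneg (x - a)]
  have hsm := slice_u hu.toLEq (hIoo t htT)
  -- the cone
  obtain ⟨k, hk, hpin⟩ := hPin t htT x (by
    rw [mem_closedBall, dist_eq_norm]
    linarith) S ρ hS hS0 hρ (hρρ'.trans hρ'1) hconc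
  -- the scale
  obtain ⟨r, hrd⟩ : ∃ r, r = (1 / 256) ^ k * (S / 4) := ⟨_, rfl⟩
  rw [← hrd] at hpin
  have hr : 0 < r := by rw [hrd]; positivity
  have hrS : r ≤ S := by
    rw [hrd]
    have h1 : (1 / 256 : ℝ) ^ k ≤ 1 := pow_le_one₀ (by norm_num) (by norm_num)
    have h2 : (1 / 256) ^ k * (S / 4) ≤ 1 * (S / 4) := mul_le_mul_of_nonneg_right h1 (by positivity)
    linarith
  have hr1 : r ≤ 1 := hrS.trans hSle1
  have hLr : L * r ≤ r₁ := by
    rw [le_div_iff₀ hL0] at hS3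
    have h2 : L * r ≤ L * S := mul_le_mul_of_nonneg_left hrS hL0.le
    linarith
  have hLr2 : L * r ^ 2 ≤ (T - T₀) / 2 := by
    rw [le_div_iff₀ (by positivity)] at hS4
    have h1 : r ^ 2 ≤ r := pow_le_of_le_one hr.le hr1 two_ne_zero
    have h2 : L * r ^ 2 ≤ L * S := mul_le_mul_of_nonneg_left (h1.trans hrS) hL0.le
    linarith
  have hball : ∀ y ∈ closedBall x (ρ₀ / 4), ‖y - a‖ ≤ ρ₀ / 2 := by
    intro y hy
    have h1 : ‖y - a‖ ≤ ‖y - x‖ + ‖x - a‖ := by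
      have e1 : y - a = (y - x) + (x - a) := by abel
      rw [e1]
      exact norm_add_le _ _
    rw [mem_closedBall, dist_eq_norm] at hy
    linarith
  obtain ⟨s, hs, hgd⟩ := hGood t r x hr (hrS.trans hS2) (by linarith) ht2 (by linarith)
    (fun τ hτ y hy ρ hρ => hmol τ ⟨by linarith [hτ.1], hτ.2.trans ht2⟩ y (hball y hy) ρ hρ.1
      (hρ.2.trans (hrS.trans hS1)) (hρ.2.trans hr1))
    (fun y hy ρ hρ => hdis t ⟨by linarith, ht2⟩ y (by
      rw [mem_closedBall, dist_eq_norm]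
      exact hball y hy) ρ ⟨hρ.1, hρ.2.trans hLr⟩)
  -- the shell
  have hs0 : 0 < s := lt_of_lt_of_le (by positivity) hs.1
  obtain ⟨w, hwd⟩ : ∃ w, w = min (w₀ * r) (s / 4) := ⟨_, rfl⟩
  have hw : 0 < w := by rw [hwd]; exact lt_min (by positivity) (by positivity)
  have hw1 : w ≤ w₀ * r := by rw [hwd]; exact min_le_left _ _
  have hw2 : w ≤ s / 4 := by rw [hwd]; exact min_le_right _ _
  obtain ⟨⟨z, hz, hquiet⟩, hflux⟩ := hpin s hs.1 hs.2
  have hw3 : w₁ * r ≤ w := by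
    rw [hwd]
    refine le_min (mul_le_mul_of_nonneg_right hw₁w hr.le) ?_
    have h1 := mul_le_mul_of_nonneg_right hw₁s hr.le
    linarith [hs.1]
  have hflux := hflux w hw3 hw2
  have hsml := hAna (u t) x z r s hsm hr hs.1 hs.2 hgd hz
    (hquiet.trans (mul_le_mul_of_nonneg_right hτ'τ hr.le))
  have hvol := vol_shell x s w hw hw2
  have hfin : volume (Shell x s w) < ⊤ := hvol.trans_lt ENNReal.ofReal_lt_top
  have hint : ∫ y in Shell x s w, om (u t) y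
      ≤ 8 * cP * η / r ^ 2 * (volume (Shell x s w)).toReal := by
    have h1 := norm_setIntegral_le_of_norm_le_const (μ := volume) (s := Shell x s w)
      (f := om (u t)) (C := 8 * cP * η / r ^ 2) hfin
      (fun y hy => by
        rw [Real.norm_eq_abs, abs_of_nonneg (om_nnL _ _)]
        exact hsml y (le_trans hy hw1))
    exact (Real.le_norm_self _).trans h1
  have hvr : (volume (Shell x s w)).toReal ≤ 64 * s ^ 2 * w :=
    ENNReal.toReal_le_of_le_ofReal (by positivity) hvol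
  have hs2 : s ^ 2 ≤ (r / 32) ^ 2 := pow_le_pow_left₀ hs0.le hs.2 2
  have hvr2 : (volume (Shell x s w)).toReal ≤ r ^ 2 * w / 16 := by
    refine hvr.trans ?_
    have h1 : 64 * s ^ 2 * w ≤ 64 * (r / 32) ^ 2 * w := by gcongr
    refine h1.trans (le_of_eq ?_)
    ring
  have hfinal : ∫ y in Shell x s w, om (u t) y ≤ cP * η * w / 2 := by
    refine hint.trans ((mul_le_mul_of_nonneg_left hvr2 (by positivity)).trans (le_of_eq ?_))
    field_simp
    ring
  have hpos : 0 < cP * η * w := by positivity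
  linarith


lemma KS.mono {R μ μ' : ℝ} {x : V} {m : V → ℝ} (h : KS R x m μ) (hμ : μ ≤ μ') : KS R x m μ' :=
  fun n => (h n).trans hμ

lemma meas_shell (x : V) (s w : ℝ) : MeasurableSet (Shell x s w) :=
  (isClosed_le ((continuous_id.sub continuous_const).norm.sub continuous_const).abs
    continuous_const).measurableSet

/-- `f` lies between the vorticity and a multiple of the vorticity plus the remainder. -/
def Btw (C R : ℝ) (a : V) (o f m : V → ℝ) : Prop :=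
  ∀ y ∈ closedBall a R, o y ≤ f y ∧ f y ≤ C * o y + m y

set_option maxHeartbeats 1600000 in
/-- The local theorem for fields which are comparable with the vorticity in size. -/
theorem lyap2 (hVel : StmVelL) (hEn : StmEnL) (hEnS : StmEnS) (hReg : Pool.Agent.Q95.CL.StmRegK)
    (hL1 : StmL1L) (hGood : StmGoodS) (hAna : StmAnaS) {T E : ℝ} {O : Set V} {u : ℝ → V → V}
    {p : ℝ → V → ℝ} (hT : 0 < T) (hu : LSl T E O u p) {T₀ κ₀ C₀ R₀ : ℝ} {a : V} {m : ℝ → V → ℝ}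
    (hT₀ : 0 ≤ T₀) (hT₀T : T₀ < T) (hκ₀ : 0 < κ₀) (hC₀ : 1 ≤ C₀) (hR₀ : 0 < R₀)
    (hO : closedBall a R₀ ⊆ O) (hm : Kato T₀ T a R₀ m)
    (hLF₀ : ∀ t ∈ Ioo T₀ T, ∃ (W : V → V) (g f : V → ℝ), LF κ₀ R₀ a f (m t) W g ∧
      Btw C₀ R₀ a (om (u t)) f (m t)) :
    ∃ B δ : ℝ, 0 < δ ∧ ∀ t ∈ Ioo (T - δ) T, 0 < t → ∀ x ∈ closedBall a δ, ‖u t x‖ ≤ B := by
  obtain ⟨κ, hκd⟩ : ∃ κ, κ = min κ₀ 1 := ⟨_, rfl⟩
  have hκ : 0 < κ := by rw [hκd]; exact lt_min hκ₀ one_pos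
  have hκ1 : κ ≤ 1 := by rw [hκd]; exact min_le_right _ _
  have hκκ : κ ≤ κ₀ := by rw [hκd]; exact min_le_left _ _
  have hC₀0 : 0 < C₀ := by linarith
  obtain ⟨R, hRd⟩ : ∃ R, R = min R₀ 1 := ⟨_, rfl⟩
  have hR : 0 < R := by rw [hRd]; exact lt_min hR₀ one_pos
  have hR1 : R ≤ 1 := by rw [hRd]; exact min_le_right _ _
  have hRR : R ≤ R₀ := by rw [hRd]; exact min_le_left _ _
  obtain ⟨T₁, hT₁⟩ : ∃ T₁, T₁ = (T₀ + T) / 2 := ⟨_, rfl⟩
  have hT₁0 : 0 < T₁ := by rw [hT₁]; linarith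
  have hT₁T : T₁ < T := by rw [hT₁]; linarith
  have hT₀₁ : T₀ < T₁ := by rw [hT₁]; linarith
  have hIoo : ∀ t ∈ Ioo T₁ T, t ∈ Ioo 0 T := fun t ht => ⟨hT₁0.trans ht.1, ht.2⟩
  have hIoo' : ∀ t ∈ Ioo T₁ T, t ∈ Ioo T₀ T := fun t ht => ⟨hT₀₁.trans ht.1, ht.2⟩
  -- the fields around the neighbouring points
  have hLF : ∀ t ∈ Ioo T₁ T, ∀ x S, ‖x - a‖ + S ≤ R →
      ∃ (W : V → V) (g f : V → ℝ), LF κ S x f (m t) W g ∧ Btw C₀ S x (om (u t)) f (m t) := by
    intro t ht x S hS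
    obtain ⟨W, g, f, h, hf⟩ := hLF₀ t (hIoo' t ht)
    refine ⟨W, g, f, h.mono hκκ (by linarith), fun y hy => hf y ?_⟩
    refine closedBall_subset_closedBall' ?_ hy
    rw [dist_eq_norm]
    linarith
  -- the remainder
  have hKm : ∀ μ : ℝ, 0 < μ → ∃ S : ℝ, 0 < S ∧ ∀ t ∈ Ioo T₁ T, ∀ x, ‖x - a‖ ≤ R / 2 →
      ∀ S', 0 < S' → S' ≤ S → KS S' x (m t) μ := by
    intro μ hμ
    obtain ⟨S, hS, hKm⟩ := hm (μ / 2) (by positivity)
    refine ⟨min S (R / 2), lt_min hS (by positivity), fun t ht x hx S' hS' hSS => ?_⟩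
    obtain ⟨W, g, f, h, -⟩ := hLF₀ t (hIoo' t ht)
    have h1 := hKm t (hIoo' t ht) x S' hS' (hSS.trans (min_le_left _ _))
      (by linarith [hSS.trans (min_le_right S (R / 2))])
    have h2 := ks S' x (m t) (μ / 2) hS' h.mc h.m0 h1
    rwa [mul_div_cancel₀ _ (two_ne_zero' ℝ)] at h2
  -- the Morrey bound
  obtain ⟨L, hL, hL1⟩ := hL1 T E O u p hT hu a R T₁ hR
    ((closedBall_subset_closedBall hRR).trans hO) hT₁0 hT₁T
  obtain ⟨S₁, hS₁, hKS₁⟩ := hKm 1 one_pos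
  obtain ⟨C, c, hC, hc, hc1, hMorV⟩ := t_MorV κ hκ hκ1
  obtain ⟨R', hR'd⟩ : ∃ R', R' = min S₁ (R / 4) := ⟨_, rfl⟩
  have hR' : 0 < R' := by rw [hR'd]; exact lt_min hS₁ (by positivity)
  have hR'1 : R' ≤ S₁ := by rw [hR'd]; exact min_le_left _ _
  have hR'2 : R' ≤ R / 4 := by rw [hR'd]; exact min_le_right _ _
  obtain ⟨K, hKd⟩ : ∃ K, K = C * ((C₀ * L + R') / R' + 1) := ⟨_, rfl⟩
  have hK : 0 < K := by rw [hKd]; positivity
  obtain ⟨ρ₀, hρd⟩ : ∃ ρ₀, ρ₀ = c * R' := ⟨_, rfl⟩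
  have hρ₀ : 0 < ρ₀ := by rw [hρd]; positivity
  have hρR : ρ₀ ≤ R' := by
    rw [hρd]
    exact mul_le_of_le_one_left hR'.le hc1
  have hMor : ∀ t ∈ Ioo T₁ T, MorB K a ρ₀ (om (u t)) := by
    intro t ht x r hr hxr
    have hx : ‖x - a‖ ≤ R / 4 := by linarith
    obtain ⟨W, g, f, hW, hf⟩ := hLF t ht x R' (by linarith)
    have hsm := slice_u hu.toLEq (hIoo t ht)
    have hkm := hKS₁ t ht x (by linarith) R' hR' hR'1
    have hrR' : r ≤ c * R' := by rw [← hρd]; linarith [norm_nonneg (x - a)]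
    have hrR'' : r ≤ R' := hrR'.trans (by rw [← hρd]; exact hρR)
    have h1 := hMorV R' 1 x f (m t) W g hR' hW hkm r hr hrR'
    rw [abs_omL]
    have h0 : ∫ y in closedBall x r, om (u t) y ≤ ∫ y in closedBall x r, f y :=
      setIntegral_mono_on (cint (om_contL hsm) x r) (cint hW.fc x r)
        isClosed_closedBall.measurableSet fun y hy =>
          (hf y (closedBall_subset_closedBall hrR'' hy)).1
    refine h0.trans (h1.trans (mul_le_mul_of_nonneg_right ?_ hr.le))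
    have h2 : ∫ y in closedBall x R', om (u t) y ≤ ∫ y in closedBall a (R / 2), om (u t) y := by
      refine setIntegral_mono_set ((om_contL hsm).continuousOn.integrableOn_compact
        (isCompact_closedBall _ _)) (Eventually.of_forall fun y => om_nnL _ _) ?_
      refine (closedBall_subset_closedBall' ?_).eventuallyLE
      rw [dist_eq_norm]
      linarith
    have h3 := h2.trans (hL1 t ⟨ht.1.le, ht.2⟩)
    have h4 : ∫ y in closedBall x R', f y ≤ C₀ * (∫ y in closedBall x R', om (u t) y)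
        + ∫ y in closedBall x R', m t y := by
      have i1 : IntegrableOn (fun y => C₀ * om (u t) y) (closedBall x R') :=
        cint (continuous_const.mul (om_contL hsm)) x R'
      rw [← integral_const_mul, ← integral_add i1 (cint hW.mc x R')]
      exact setIntegral_mono_on (cint hW.fc x R') (i1.add (cint hW.mc x R'))
        isClosed_closedBall.measurableSet fun y hy => (hf y hy).2
    have h5 := hkm.term hR' hW.m0 0
    rw [pow_zero, one_mul, one_mul] at h5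
    have h6 : ∫ y in closedBall x R', f y ≤ C₀ * L + R' := by
      have := mul_le_mul_of_nonneg_left h3 hC₀0.le
      linarith
    rw [hKd]
    have h7 := div_le_div_of_nonneg_right h6 hR'.le
    exact mul_le_mul_of_nonneg_left (by linarith) hC.le
  refine assemV2 hVel hEn hEnS hReg hGood hAna hT hu hT₁0.le hT₁T hK hρ₀
    ((closedBall_subset_closedBall (by linarith)).trans hO) hMor ?_
  -- the pinching argument
  obtain ⟨b, c', hb, hb1, hc', hc'1, hPin⟩ := t_PinV κ hκ hκ1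
  refine ⟨b, c' / (2 * C₀), hb, by positivity, ?_, fun η τ w₁ hη hη1 hτ hτ1 hw₁ hw₁1 => ?_⟩
  · rw [div_le_one (by positivity)]
    linarith
  obtain ⟨N, hPin⟩ := hPin (C₀ * K + 1) η τ (by positivity) hη hη1 hτ hτ1
  obtain ⟨S₂, hS₂, hKS₂⟩ := hKm (min (min (c' * η * τ) (c' * η * w₁ / 8)) 1) (by positivity)
  refine ⟨N, min S₂ (ρ₀ / 2), lt_min hS₂ (by positivity),
    fun t ht x hx S ρ hS hSS hρ hρS hconc => ?_⟩
  have hxa : ‖x - a‖ ≤ ρ₀ / 2 := by
    have := mem_closedBall.1 hx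
    rwa [dist_eq_norm] at this
  have hS2 : S ≤ S₂ := hSS.trans (min_le_left _ _)
  have hS3 : S ≤ ρ₀ / 2 := hSS.trans (min_le_right _ _)
  obtain ⟨W, g, f, hW, hf⟩ := hLF t ht x S (by linarith)
  have hsm := slice_u hu.toLEq (hIoo t ht)
  have h1 := hMor t ht x S hS (by linarith)
  rw [abs_omL] at h1
  have hks := hKS₂ t ht x (by linarith) S hS hS2
  have hks1 : KS S x (m t) (c' * η * τ) := hks.mono ((min_le_left _ _).trans (min_le_left _ _))
  have hks2 : KS S x (m t) (c' * η * w₁ / 8) :=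
    hks.mono ((min_le_left _ _).trans (min_le_right _ _))
  have hks3 : KS S x (m t) 1 := hks.mono (min_le_right _ _)
  have hfK : ∫ y in closedBall x S, f y ≤ (C₀ * K + 1) * S := by
    have i1 : IntegrableOn (fun y => C₀ * om (u t) y) (closedBall x S) :=
      cint (continuous_const.mul (om_contL hsm)) x S
    have h4 : ∫ y in closedBall x S, f y ≤ C₀ * (∫ y in closedBall x S, om (u t) y)
        + ∫ y in closedBall x S, m t y := by
      rw [← integral_const_mul, ← integral_add i1 (cint hW.mc x S)]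
      exact setIntegral_mono_on (cint hW.fc x S) (i1.add (cint hW.mc x S))
        isClosed_closedBall.measurableSet fun y hy => (hf y hy).2
    have h5 := hks3.term hS hW.m0 0
    rw [pow_zero, one_mul, one_mul] at h5
    have h6 := mul_le_mul_of_nonneg_left h1 hC₀0.le
    linarith
  have hρS' : ρ ≤ S := hρS.trans (sc_le N hS)
  have hconc' : η * ρ ≤ ∫ y in closedBall x ρ, f y :=
    hconc.trans (setIntegral_mono_on (cint (om_contL hsm) x ρ) (cint hW.fc x ρ)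
      isClosed_closedBall.measurableSet fun y hy =>
        (hf y (closedBall_subset_closedBall hρS' hy)).1)
  obtain ⟨k, hk, hpin⟩ := hPin S ρ x f (m t) W g hS hW hfK hks1 hρ hρS hconc'
  refine ⟨k, hk, fun s hs1 hs2 => ?_⟩
  obtain ⟨⟨z, hz, hzf⟩, hsh⟩ := hpin s hs1 hs2
  have hmk := hks2.term hS hW.m0 k
  obtain ⟨r, hrd⟩ : ∃ r, r = (1 / 256) ^ k * (S / 4) := ⟨_, rfl⟩
  have hr4 : (1 / 256 : ℝ) ^ k * S = 4 * r := by rw [hrd]; ring
  rw [hr4] at hmk
  rw [← hrd] at hs1 hs2 hzf ⊢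
  have hr : 0 < r := by rw [hrd]; exact sc_pos k (by positivity)
  have hrS : 4 * r ≤ S := by
    rw [← hr4]
    exact sc_le k hS
  have hs0 : 0 < s := lt_of_lt_of_le (by positivity) hs1
  refine ⟨⟨z, hz, ?_⟩, fun w hw1 hw2 => ?_⟩
  · refine le_trans ?_ hzf
    refine setIntegral_mono_on (cint (om_contL hsm) z _) (cint hW.fc z _)
      isClosed_closedBall.measurableSet fun y hy => (hf y ?_).1
    refine closedBall_subset_closedBall' ?_ hy
    rw [dist_eq_norm, hz]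
    have : b * r ≤ r := mul_le_of_le_one_left hr.le hb1
    linarith
  · have hw : 0 < w := lt_of_lt_of_le (by positivity) hw1
    have h2 := hsh w hw hw2
    have hsub : Shell x s w ⊆ closedBall x (4 * r) := by
      intro y hy
      have h1 := abs_le.1 (show |‖y - x‖ - s| ≤ w from hy)
      rw [mem_closedBall, dist_eq_norm]
      linarith
    have hsubS : Shell x s w ⊆ closedBall x S :=
      hsub.trans (closedBall_subset_closedBall hrS)
    have io : IntegrableOn (om (u t)) (Shell x s w) := (cint (om_contL hsm) x S).mono_set hsubS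
    have im : IntegrableOn (m t) (Shell x s w) := (cint hW.mc x S).mono_set hsubS
    have i_f : IntegrableOn f (Shell x s w) := (cint hW.fc x S).mono_set hsubS
    have h3 : ∫ y in Shell x s w, f y ≤ C₀ * (∫ y in Shell x s w, om (u t) y)
        + ∫ y in Shell x s w, m t y := by
      have i1 : IntegrableOn (fun y => C₀ * om (u t) y) (Shell x s w) := io.const_mul C₀
      rw [← integral_const_mul, ← integral_add i1 im]
      exact setIntegral_mono_on i_f (i1.add im) (meas_shell x s w) fun y hy => (hf y (hsubS hy)).2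
    have h4 : ∫ y in Shell x s w, m t y ≤ c' * η * w₁ / 8 * (4 * r) :=
      (setIntegral_mono_set (cint hW.mc x _) (Eventually.of_forall hW.m0) hsub.eventuallyLE).trans
        hmk
    have h5 : c' * η * w₁ / 8 * (4 * r) ≤ c' * η * w / 2 := by
      have h6 := mul_le_mul_of_nonneg_left hw1 (by positivity : 0 ≤ c' * η / 2)
      linarith
    have h6 : c' * η * w / 2 ≤ C₀ * ∫ y in Shell x s w, om (u t) y := by linarith
    have e1 : c' / (2 * C₀) * η * w = c' * η * w / 2 / C₀ := by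
      field_simp
    rw [e1, div_le_iff₀ hC₀0]
    linarith

end Pool.Agent.Q85.VL
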