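import Pool.Agent.Helper24.VL.MolW
import Pool.Agent.Helper24.VL.Lyap2
import Pool.Agent.Helper24.VL.All

/-!
Project VL: chains for all the fields without divergence which are comparable with the vorticity in
size. (The proof of `chainW` follows the one of `chain_D` of `Pool.Agent.Q85.VL.Fin` by helper85.)
-/

set_option autoImplicit false

open MeasureTheory Set Metric Filter Topology
open scoped ContDiff
open H459R3.NS Pool.Agent.W268.NS Pool.Agent.Q67.VD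
open Pool.Agent.Q199.VD

namespace Pool.Agent.Q85.VL

open Pool.Agent.Q85.CC Pool.Agent.Q85.CL Pool.Agent.Q151.CC Pool.Agent.Q85.VL.MolW

/-- The field `W` is continuous and weakly free of divergence in the cube with centre `a` and side
`2 R`, continuously differentiable where `m < f`, and comparable with `f` in size. -/
structure Cmp (c C R : ℝ) (a : V) (m f : V → ℝ) (W : V → V) : Prop where
  cont : Continuous W
  div : ∀ F : V → ℝ, ContDiff ℝ 1 F → tsupport F ⊆ closedBall a R →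
    ∫ y in closedBall a R, fderiv ℝ F y (W y) = 0
  c1 : ContDiffOn ℝ 1 W {y | ‖y - a‖ < R ∧ m y < f y}
  up : ∀ y, ‖y - a‖ ≤ R → len (W y) ≤ C * f y + m y
  lo : ∀ y, ‖y - a‖ ≤ R → m y < f y → c * f y ≤ len (W y)

lemma Kato.scale {T₀ T R : ℝ} {a : V} {m : ℝ → V → ℝ} (h : Kato T₀ T a R m) {b : ℝ} (hb : 0 < b) :
    Kato T₀ T a R (fun t y => b * m t y) := by
  intro μ hμ
  obtain ⟨S₀, hS₀, h1⟩ := h (μ / b) (by positivity)
  refine ⟨S₀, hS₀, fun t ht x S hS hSS hx => ?_⟩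
  have h2 := h1 t ht x S hS hSS hx
  have e1 : ∀ y, b * m t y / ‖y - x‖ = b * (m t y / ‖y - x‖) := fun y => mul_div_assoc _ _ _
  simp only [e1]
  rw [integral_const_mul]
  rw [le_div_iff₀ hb] at h2
  linarith

set_option maxHeartbeats 1600000 in
/-- Chains at a singular point, for all the comparable fields. -/
theorem chainW {ν T E : ℝ} {Ω : Set V} {u : ℝ → V → V} {p : ℝ → V → ℝ} (hν : 0 < ν)
    (h : DSl ν T E Ω u p) {a : V} (ha : a ∈ Ω) (hs : Sing T u a) {T₀ ε R c₀ C₀ : ℝ}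
    {m : ℝ → V → ℝ} (hT0 : 0 ≤ T₀) (hT₀ : T₀ < T) (hε : 0 < ε) (hR : 0 < R) (hc₀ : 0 < c₀)
    (hmc : ∀ t ∈ Ioo T₀ T, Continuous (m t))
    (hm0 : ∀ t ∈ Ioo T₀ T, ∀ y, 0 ≤ m t y) (hK : Kato T₀ T a R m) :
    ∃ t ∈ Ioo T₀ T, ∀ W : V → V, Cmp c₀ C₀ R a (m t) (om (u t)) W →
      Chained W {y | ‖y - a‖ ≤ R ∧ m t y < om (u t) y} ε := by
  by_contra hcon
  push Not at hcon
  obtain ⟨c, hcd⟩ : ∃ c, c = min c₀ 1 := ⟨_, rfl⟩
  have hc : 0 < c := by rw [hcd]; exact lt_min hc₀ one_pos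
  have hc1 : c ≤ 1 := by rw [hcd]; exact min_le_right _ _
  have hcc : c ≤ c₀ := by rw [hcd]; exact min_le_left _ _
  obtain ⟨C, hCd⟩ : ∃ C, C = max C₀ 1 := ⟨_, rfl⟩
  have hC1 : 1 ≤ C := by rw [hCd]; exact le_max_right _ _
  have hCC : C₀ ≤ C := by rw [hCd]; exact le_max_left _ _
  have hC : 0 < C := by linarith
  obtain ⟨R', hR', hRR, hsub⟩ := small_ball h.openO ha hR
  obtain ⟨E', v, q, hL, hv⟩ := Pool.Agent.Q284.CL.dom ν T E Ω u p hν hs.pos h a R' hR' hsub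
  obtain ⟨ε', hε'd⟩ : ∃ ε', ε' = min ε 1 := ⟨_, rfl⟩
  have hε' : 0 < ε' := by rw [hε'd]; exact lt_min hε one_pos
  have hε'1 : ε' ≤ 1 := by rw [hε'd]; exact min_le_right _ _
  have hε'ε : ε' ≤ ε := by rw [hε'd]; exact min_le_left _ _
  have hνi : 0 < ν⁻¹ := inv_pos.2 hν
  obtain ⟨κ, hκd⟩ : ∃ κ, κ = ε' / 2 * c / C := ⟨_, rfl⟩
  have hκ : 0 < κ := by rw [hκd]; positivity
  have hκC : κ * C = ε' / 2 * c := by rw [hκd]; field_simp
  have hκ1 : κ ≤ 1 := by
    rw [hκd, div_le_one hC]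
    have h1 : ε' / 2 * c ≤ 1 := mul_le_one₀ (by linarith) hc.le hc1
    linarith
  have hKr : Kato (ν * T₀) (ν * T) a (R' / 4)
      (fun t y => (C + 3) / 2 * (2 * (ν⁻¹ * m (t / ν) y + 1))) :=
    (kato_rem hν (by linarith) hmc hm0 hK).scale (by positivity)
  refine hs.not_bdd (back hν hR' hs.pos hv (lyap2 Pool.Agent.Q284.CL.velL stmEnL stmEnS
    Pool.Agent.Q95.CL.regK Pool.Agent.Q81.CL.l1L t_GoodS t_AnaS (mul_pos hν hs.pos) hL
    (T₀ := ν * T₀) (C₀ := C) (by positivity) (mul_lt_mul_of_pos_left hT₀ hν) hκ hC1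
    (R₀ := R' / 4) (by positivity) (closedBall_subset_ball (by linarith)) hKr ?_))
  intro t' ht'
  have hνt : 0 < t' := (by positivity : 0 ≤ ν * T₀).trans_lt ht'.1
  have hI' : t' ∈ Ioo 0 (ν * T) := ⟨hνt, ht'.2⟩
  have ht : t' / ν ∈ Ioo T₀ T := time_memK hν ht'
  have hI : t' / ν ∈ Ioo 0 T := ⟨by positivity, ht.2⟩
  have htν : ν * (t' / ν) = t' := by field_simp
  obtain ⟨t, htd⟩ : ∃ t, t = t' / ν := ⟨_, rfl⟩
  obtain ⟨W, hW, hnc⟩ := hcon _ ht
  rw [← htd] at ht hI htν hW hnc ⊢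
  have hsm : SM (v t') := slice_u hL.toLEq hI'
  have hev : ∀ y, ‖y - a‖ ≤ R' / 2 → ∀ᶠ z in 𝓝 y, v t' z = ν⁻¹ • u t z := by
    intro y hy
    refine ball_ev (a := a) (R := R') (fun z hz => ?_) (by
      rw [Metric.mem_ball, dist_eq_norm]
      linarith)
    rw [← hv _ hI z hz, htν]
  have hom : ∀ y, ‖y - a‖ ≤ R' / 2 → om (v t') y = ν⁻¹ * om (u t) y := fun y hy =>
    om_evD hνi.le (hev y hy)
  have hmt := hmc t ht
  have hmt0 := hm0 t ht
  -- the scaled field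
  obtain ⟨W', hW'd⟩ : ∃ W' : V → V, W' = fun y => ν⁻¹ • W y := ⟨_, rfl⟩
  have hlW' : ∀ y, len (W' y) = ν⁻¹ * len (W y) := fun y => by
    rw [hW'd]
    show len (ν⁻¹ • W y) = _
    rw [ln_smul, abs_of_pos hνi]
  have hW'c : Continuous W' := by
    rw [hW'd]
    exact (continuous_const : Continuous fun _ : V => ν⁻¹).smul hW.cont
  have hmlt : ∀ y, ‖y - a‖ ≤ R' / 2 → ν⁻¹ * m t y < om (v t') y → m t y < om (u t) y := by
    intro y hy hy2
    rw [hom y hy] at hy2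
    exact lt_of_mul_lt_mul_left hy2 hνi.le
  have hnc' : ¬ Chained W' {y | ‖y - a‖ ≤ R' / 2 ∧ ν⁻¹ * m t y < om (v t') y} ε' := by
    intro hc
    have hc2 : Chained W {y | ‖y - a‖ ≤ R' / 2 ∧ ν⁻¹ * m t y < om (v t') y} ε' := by
      refine hc.congr hνi fun y hy => ?_
      rw [hW'd]
    refine hnc (hc2.mono ?_ hε'ε)
    rintro y ⟨hy1, hy2⟩
    exact ⟨by linarith, hmlt y hy1 hy2⟩
  obtain ⟨g, hg1, hg2⟩ := t_G _ _ a (R' / 2) ε' (fun y hy => hy.1) hε' hnc'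
  have hup : ∀ y, ‖y - a‖ ≤ R' / 2 → len (W' y) ≤ C * om (v t') y + ν⁻¹ * m t y := by
    intro y hy
    rw [hlW', hom y hy]
    have h1 := mul_le_mul_of_nonneg_left (hW.up y (by linarith)) hνi.le
    have h2 : ν⁻¹ * (C₀ * om (u t) y) ≤ ν⁻¹ * (C * om (u t) y) :=
      mul_le_mul_of_nonneg_left (mul_le_mul_of_nonneg_right hCC (om_nnL _ _)) hνi.le
    linarith
  have hlo : ∀ y, ‖y - a‖ ≤ R' / 2 → ν⁻¹ * m t y < om (v t') y →
      c * om (v t') y ≤ len (W' y) := by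
    intro y hy hmy
    have h1 := mul_le_mul_of_nonneg_left (hW.lo y (by linarith) (hmlt y hy hmy)) hνi.le
    have h2 : ν⁻¹ * (c * om (u t) y) ≤ ν⁻¹ * (c₀ * om (u t) y) :=
      mul_le_mul_of_nonneg_left (mul_le_mul_of_nonneg_right hcc (om_nnL _ _)) hνi.le
    rw [hlW', hom y hy]
    linarith
  have hW'1 : ContDiffOn ℝ 1 W' {y | ‖y - a‖ < R' / 2 ∧ ν⁻¹ * m t y < om (v t') y} := by
    rw [hW'd]
    refine (hW.c1.const_smul ν⁻¹).mono ?_
    rintro y ⟨hy1, hy2⟩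
    exact ⟨by linarith, hmlt y hy1.le hy2⟩
  obtain ⟨G, hGs, hGl, hGm⟩ := molW (W := W') (f := om (v t')) (m := fun y => ν⁻¹ * m t y)
    (R := R' / 2) (by positivity) hε' hε'1 hc hc1 hC1 hW'c (om_contL hsm)
    (continuous_const.mul hmt) (fun y => mul_nonneg hνi.le (hmt0 y)) (fun y => om_nnL _ _)
    hW'1 hup hlo hg1 hg2
  refine ⟨W', G, fun y => C * om (v t') y + ν⁻¹ * m t y, ⟨⟨hW'c, fun F hF hts => ?_⟩,
    (continuous_const.mul (om_contL hsm)).add (continuous_const.mul hmt),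
    continuous_const.mul (continuous_const.mul ((continuous_const.mul hmt).add
      continuous_const)), fun y => ?_, fun y hy => ?_, hGs, hGl, fun y hy => ?_⟩, fun y hy => ?_⟩
  · -- the divergence
    have hsub' : closedBall a (R' / 4) ⊆ closedBall a R :=
      closedBall_subset_closedBall (by linarith)
    have h1 := hW.div F hF (hts.trans hsub')
    have h0 : ∀ y, y ∉ closedBall a (R' / 4) → fderiv ℝ F y (W y) = 0 := by
      intro y hy
      have h2 : fderiv ℝ F y = 0 := by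
        by_contra hc
        exact hy (hts (support_fderiv_subset ℝ hc))
      rw [h2]
      rfl
    rw [setIntegral_eq_integral_of_forall_compl_eq_zero
      (fun y hy => h0 y fun hy' => hy (hsub' hy'))] at h1
    rw [← setIntegral_eq_integral_of_forall_compl_eq_zero h0] at h1
    rw [hW'd]
    simp only [map_smul, smul_eq_mul]
    rw [integral_const_mul, h1, mul_zero]
  · have := mul_nonneg hνi.le (hmt0 y)
    positivity
  · rw [mem_closedBall, dist_eq_norm] at hy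
    exact hup y (by linarith)
  · rw [mem_closedBall, dist_eq_norm] at hy
    have h1 := hGm y (by linarith)
    have h2 : 0 ≤ ν⁻¹ * m t y := mul_nonneg hνi.le (hmt0 y)
    have h3 : κ * (ν⁻¹ * m t y) ≤ ν⁻¹ * m t y := mul_le_of_le_one_left h2 hκ1
    have h4 : κ * (C * om (v t') y + ν⁻¹ * m t y) = ε' / 2 * c * om (v t') y
        + κ * (ν⁻¹ * m t y) := by
      rw [mul_add, ← mul_assoc, hκC]
    show κ * (C * om (v t') y + ν⁻¹ * m t y) ≤ fderiv ℝ G y (W' y)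
      + (C + 3) / 2 * (2 * (ν⁻¹ * m t y + 1))
    rw [h4]
    linarith
  · have h2 : 0 ≤ ν⁻¹ * m t y := mul_nonneg hνi.le (hmt0 y)
    have h3 : 0 ≤ om (v t') y := om_nnL _ _
    have h4 : om (v t') y ≤ C * om (v t') y := le_mul_of_one_le_left h3 hC1
    refine ⟨?_, ?_⟩
    · show om (v t') y ≤ C * om (v t') y + ν⁻¹ * m t y
      linarith
    · show C * om (v t') y + ν⁻¹ * m t y ≤ C * om (v t') y
        + (C + 3) / 2 * (2 * (ν⁻¹ * m t y + 1))
      nlinarith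

end Pool.Agent.Q85.VL

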