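import Pool.Agent.Helper24.VL.Bas

/-!
Project VL: pointwise formulas for the fluxes.
-/

set_option autoImplicit false

open MeasureTheory Set Metric Filter Topology
open scoped ContDiff
open H459R3.NS Pool.Agent.W268.NS Pool.Agent.Q67.VD

namespace Pool.Agent.Q85.VL

open Pool.Agent.Q85.CC Pool.Agent.Q85.CL Pool.Agent.Q151.CC

/-! ### Weakly divergence free fields -/

lemma wd_int {R s : ℝ} {x : V} {W : V → V} (h : WD R x W) {F : V → ℝ} (hF : ContDiff ℝ 1 F)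
    (hs : s ≤ R) (hsup : ∀ y, F y ≠ 0 → ‖y - x‖ ≤ s) :
    ∫ y in closedBall x R, fderiv ℝ F y (W y) = 0 := by
  refine h.div F hF ?_
  refine closure_minimal (fun y hy => ?_) isClosed_closedBall
  rw [mem_closedBall, dist_eq_norm]
  exact (hsup y hy).trans hs

lemma fdW_cont {W : V → V} (hW : Continuous W) {F : V → ℝ} (hF : ContDiff ℝ 1 F) :
    Continuous fun y => fderiv ℝ F y (W y) :=
  (hF.continuous_fderiv one_ne_zero).clm_apply hW

lemma cint {f : V → ℝ} (hf : Continuous f) (x : V) (R : ℝ) : IntegrableOn f (closedBall x R) :=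
  hf.continuousOn.integrableOn_compact (isCompact_closedBall _ _)

/-- Pointwise comparison up to a divergence. -/
lemma mas {R s : ℝ} {x : V} {W : V → V} (h : WD R x W) {F P Q : V → ℝ} (hF : ContDiff ℝ 1 F)
    (hs : s ≤ R) (hsup : ∀ y, F y ≠ 0 → ‖y - x‖ ≤ s) (hP : IntegrableOn P (closedBall x R))
    (hQ : IntegrableOn Q (closedBall x R))
    (hPQ : ∀ y ∈ closedBall x R, P y ≤ Q y + fderiv ℝ F y (W y)) :
    ∫ y in closedBall x R, P y ≤ ∫ y in closedBall x R, Q y := by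
  have h1 := wd_int h hF hs hsup
  have h2 : IntegrableOn (fun y => fderiv ℝ F y (W y)) (closedBall x R) :=
    cint (fdW_cont h.cont hF) x R
  have h3 : ∫ y in closedBall x R, P y ≤
      ∫ y in closedBall x R, (Q y + fderiv ℝ F y (W y)) :=
    setIntegral_mono_on hP (hQ.add h2) isClosed_closedBall.measurableSet hPQ
  rw [integral_add hQ h2, h1, add_zero] at h3
  exact h3

lemma ind_int {f : V → ℝ} (hf : Continuous f) (x : V) (R : ℝ) {S : Set V} (hS : MeasurableSet S) :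
    IntegrableOn (S.indicator f) (closedBall x R) :=
  (cint hf x R).indicator hS

lemma ind_ball {f : V → ℝ} {x z : V} {r R : ℝ} (h : closedBall z r ⊆ closedBall x R) :
    ∫ y in closedBall x R, (closedBall z r).indicator f y = ∫ y in closedBall z r, f y := by
  rw [setIntegral_indicator isClosed_closedBall.measurableSet, inter_eq_self_of_subset_right h]

lemma indc_int {f : V → ℝ} (hf : Continuous f) (C : ℝ) (x : V) (R : ℝ) {S : Set V}
    (hS : MeasurableSet S) : IntegrableOn (S.indicator fun y => C * f y) (closedBall x R) :=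
  ind_int (continuous_const.mul hf) x R hS

lemma add_ind {P f : V → ℝ} (C : ℝ) {x : V} {R : ℝ} (hP : IntegrableOn P (closedBall x R))
    (hf : Continuous f) {S : Set V} (hS : MeasurableSet S) (h : S ⊆ closedBall x R) :
    ∫ y in closedBall x R, (P y + S.indicator (fun y => C * f y) y)
      = (∫ y in closedBall x R, P y) + C * ∫ y in S, f y := by
  rw [integral_add hP (indc_int hf C x R hS), setIntegral_indicator hS,
    inter_eq_self_of_subset_right h, integral_const_mul]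

/-! ### The functions -/

section
variable {κ ρ : ℝ} {g : V → ℝ} {x : V}

lemma uu_c1 (hρ : 0 < ρ) (hg : ContDiff ℝ 1 g) : ContDiff ℝ 1 (uu κ ρ g x) := by
  show ContDiff ℝ 1 fun y => g y - g x - κ / 2 * ds x ρ y
  exact (hg.sub contDiff_const).sub (contDiff_const.mul ((ds_smooth x hρ).of_le (by simp)))

lemma ww_c1 (hρ : 0 < ρ) (hg : ContDiff ℝ 1 g) : ContDiff ℝ 1 (ww κ ρ g x) := by
  show ContDiff ℝ 1 fun y => g y - g x - 3 * κ / 4 * ds x ρ y
  exact (hg.sub contDiff_const).sub (contDiff_const.mul ((ds_smooth x hρ).of_le (by simp)))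

lemma lin_fd (c d : ℝ) (hρ : 0 < ρ) (hg : ContDiff ℝ 1 g) (y n : V) :
    fderiv ℝ (fun y => g y - c - d * ds x ρ y) y n
      = fderiv ℝ g y n - d * fderiv ℝ (ds x ρ) y n := by
  have h1 := (hg.differentiable one_ne_zero y).hasFDerivAt
  have h2 := ((ds_smooth x hρ).differentiable (by simp) y).hasFDerivAt
  have h3 := (h1.sub_const c).fun_sub (h2.const_mul d)
  rw [h3.fderiv]
  rfl

lemma uu_fd (hρ : 0 < ρ) (hg : ContDiff ℝ 1 g) (y n : V) :
    fderiv ℝ (uu κ ρ g x) y n = fderiv ℝ g y n - κ / 2 * fderiv ℝ (ds x ρ) y n :=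
  lin_fd (g x) (κ / 2) hρ hg y n

lemma ww_fd (hρ : 0 < ρ) (hg : ContDiff ℝ 1 g) (y n : V) :
    fderiv ℝ (ww κ ρ g x) y n = fderiv ℝ g y n - 3 * κ / 4 * fderiv ℝ (ds x ρ) y n :=
  lin_fd (g x) (3 * κ / 4) hρ hg y n

lemma uu_ww (y : V) : uu κ ρ g x y - ww κ ρ g x y = κ / 4 * ds x ρ y := by
  unfold uu ww
  ring

/-- A step of a function. -/
lemma st_c1 {φ : V → ℝ} (h : ContDiff ℝ 1 φ) (a b : ℝ) :
    ContDiff ℝ 1 fun y => stp ((φ y + a) / b) :=
  stp_comp_c1 ((h.add contDiff_const).div_const b)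

lemma st_fd {φ : V → ℝ} (h : ContDiff ℝ 1 φ) (a b : ℝ) (y n : V) :
    fderiv ℝ (fun y => stp ((φ y + a) / b)) y n = stp' ((φ y + a) / b) / b * fderiv ℝ φ y n := by
  rw [stp_comp_fd ((h.add contDiff_const).div_const b)]
  have h1 := (h.differentiable one_ne_zero y).hasFDerivAt
  have h2 : HasFDerivAt (fun y => (φ y + a) / b) (b⁻¹ • fderiv ℝ φ y) y := by
    have h3 := (h1.add_const a).const_mul b⁻¹
    refine h3.congr_of_eventuallyEq (Eventually.of_forall fun z => ?_)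
    show (φ z + a) / b = b⁻¹ * (φ z + a)
    rw [div_eq_inv_mul]
  rw [h2.fderiv]
  show stp' ((φ y + a) / b) * (b⁻¹ * fderiv ℝ φ y n) = _
  ring

lemma TT_c1 (hρ : 0 < ρ) (hg : ContDiff ℝ 1 g) (r : ℝ) : ContDiff ℝ 1 (TT κ ρ g x r) := by
  show ContDiff ℝ 1 fun y => stp ((ww κ ρ g x y + κ * r / 8) / (κ * r / 16))
  exact st_c1 (ww_c1 hρ hg) _ _

lemma TT_fd (hρ : 0 < ρ) (hg : ContDiff ℝ 1 g) (r : ℝ) (y n : V) :
    fderiv ℝ (TT κ ρ g x r) y n = stp' ((ww κ ρ g x y + κ * r / 8) / (κ * r / 16)) /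
      (κ * r / 16) * fderiv ℝ (ww κ ρ g x) y n :=
  st_fd (ww_c1 hρ hg) _ _ y n

lemma PS_c1 (hρ : 0 < ρ) (hg : ContDiff ℝ 1 g) (r : ℝ) : ContDiff ℝ 1 (PS κ ρ g x r) := by
  show ContDiff ℝ 1 fun y => stp ((uu κ ρ g x y - κ * r / 64) / (κ * r / 64))
  have h := st_c1 (uu_c1 (κ := κ) (x := x) hρ hg) (-(κ * r / 64)) (κ * r / 64)
  simpa only [sub_eq_add_neg] using h

lemma PS_fd (hρ : 0 < ρ) (hg : ContDiff ℝ 1 g) (r : ℝ) (y n : V) :
    fderiv ℝ (PS κ ρ g x r) y n = stp' ((uu κ ρ g x y - κ * r / 64) / (κ * r / 64)) /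
      (κ * r / 64) * fderiv ℝ (uu κ ρ g x) y n := by
  have h := st_fd (uu_c1 (κ := κ) (x := x) hρ hg) (-(κ * r / 64)) (κ * r / 64) y n
  simp only [← sub_eq_add_neg] at h
  exact h

lemma mul_fd {α β : V → ℝ} (hα : ContDiff ℝ 1 α) (hβ : ContDiff ℝ 1 β) (y n : V) :
    fderiv ℝ (fun y => α y * β y) y n = α y * fderiv ℝ β y n + β y * fderiv ℝ α y n := by
  have h1 := (hα.differentiable one_ne_zero y).hasFDerivAt
  have h2 := (hβ.differentiable one_ne_zero y).hasFDerivAt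
  rw [(h1.fun_mul h2).fderiv]
  rfl

lemma sub_fd {α β : V → ℝ} (hα : ContDiff ℝ 1 α) (hβ : ContDiff ℝ 1 β) (y n : V) :
    fderiv ℝ (fun y => α y - β y) y n = fderiv ℝ α y n - fderiv ℝ β y n := by
  have h1 := (hα.differentiable one_ne_zero y).hasFDerivAt
  have h2 := (hβ.differentiable one_ne_zero y).hasFDerivAt
  rw [(h1.fun_sub h2).fderiv]
  rfl

lemma add_fd {α β : V → ℝ} (hα : ContDiff ℝ 1 α) (hβ : ContDiff ℝ 1 β) (y n : V) :
    fderiv ℝ (fun y => α y + β y) y n = fderiv ℝ α y n + fderiv ℝ β y n := by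
  have h1 := (hα.differentiable one_ne_zero y).hasFDerivAt
  have h2 := (hβ.differentiable one_ne_zero y).hasFDerivAt
  rw [(h1.fun_add h2).fderiv]
  rfl

/-! ### Supports -/

lemma sps_mem {u a : ℝ} (ha : 0 < a) (h : stp' ((u - a) / a) ≠ 0) : a < u ∧ u < 2 * a := by
  obtain ⟨h1, h2⟩ := stp'_mem h
  rw [lt_div_iff₀ ha] at h1
  rw [div_lt_iff₀ ha] at h2
  constructor <;> linarith

lemma sPS_mem {u a : ℝ} (ha : 0 < a) (h : stp ((u - a) / a) ≠ 0) : a < u := by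
  have h1 := stp_pos_of h
  rw [lt_div_iff₀ ha] at h1
  linarith

lemma sPS_lt {u a : ℝ} (ha : 0 < a) (h : stp ((u - a) / a) ≠ 1) : u < 2 * a := by
  have h1 := stp_lt_of h
  rw [div_lt_iff₀ ha] at h1
  linarith

lemma sTT_mem {w a b : ℝ} (hb : 0 < b) (h : stp ((w + a) / b) ≠ 0) : -a < w := by
  have h1 := stp_pos_of h
  rw [lt_div_iff₀ hb] at h1
  linarith

lemma sTT'_mem {w a b : ℝ} (hb : 0 < b) (h : stp' ((w + a) / b) ≠ 0) : -a < w := by
  have h1 := (stp'_mem h).1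
  rw [lt_div_iff₀ hb] at h1
  linarith

lemma sTT_one {w a b : ℝ} (hb : 0 < b) (h : b - a ≤ w) : stp ((w + a) / b) = 1 := by
  refine stp_one ?_
  rw [le_div_iff₀ hb]
  linarith

/-- The support of the densities. -/
lemma ds_lt (hκ : 0 < κ) {r : ℝ} {y : V} (h1 : uu κ ρ g x y < κ * r / 32)
    (h2 : -(κ * r / 8) < ww κ ρ g x y) : ds x ρ y < 5 * r / 8 := by
  have h3 := uu_ww (κ := κ) (ρ := ρ) (g := g) (x := x) y
  have h4 : κ * ds x ρ y < κ * (5 * r / 8) := by linarith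
  exact lt_of_mul_lt_mul_left h4 hκ.le

end

/-! ### The pointwise data -/

section
variable {κ ρ R : ℝ} {x : V} {f m : V → ℝ} {W : V → V} {g : V → ℝ}

lemma LF.f0 (h : LF κ R x f m W g) {y : V} (hy : y ∈ closedBall x R) : 0 ≤ f y :=
  (ln_nonneg _).trans (h.up y hy)

lemma LF.g_le (h : LF κ R x f m W g) (y n : V) : |fderiv ℝ g y n| ≤ len n :=
  lip_fderiv h.lip (h.gs.differentiable one_ne_zero y) n

/-- `∇u · W + m ≥ (κ / 2) f`. -/
lemma LF.u_lo (h : LF κ R x f m W g) (hκ : 0 < κ) (hρ : 0 < ρ) {y : V}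
    (hy : y ∈ closedBall x R) : κ / 2 * f y ≤ fderiv ℝ (uu κ ρ g x) y (W y) + m y := by
  rw [uu_fd hρ h.gs]
  have h1 := h.lo y hy
  have h2 := (abs_le.1 ((ds_fd x hρ y (W y)).trans (h.up y hy))).2
  have h3 := mul_le_mul_of_nonneg_left h2 (by positivity : 0 ≤ κ / 2)
  linarith

lemma LF.u_nn (h : LF κ R x f m W g) (hκ : 0 < κ) (hρ : 0 < ρ) {y : V}
    (hy : y ∈ closedBall x R) : 0 ≤ fderiv ℝ (uu κ ρ g x) y (W y) + m y :=
  (mul_nonneg (by positivity) (h.f0 hy)).trans (h.u_lo hκ hρ hy)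

lemma LF.u_up (h : LF κ R x f m W g) (hκ : 0 < κ) (hκ1 : κ ≤ 1) (hρ : 0 < ρ) {y : V}
    (hy : y ∈ closedBall x R) : |fderiv ℝ (uu κ ρ g x) y (W y)| ≤ 2 * f y := by
  rw [uu_fd hρ h.gs]
  have h1 := (h.g_le y (W y)).trans (h.up y hy)
  have h2 := (ds_fd x hρ y (W y)).trans (h.up y hy)
  have h0 := h.f0 hy
  rw [abs_le] at h1 h2 ⊢
  constructor <;> nlinarith

/-- `∇w · W + m ≥ (κ / 4) f` for the functions with any centre. -/
lemma LF.w_lo' (h : LF κ R x f m W g) (hκ : 0 < κ) (z : V) {b : ℝ} (hb : 0 < b) {y : V}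
    (hy : y ∈ closedBall x R) : κ / 4 * f y ≤ fderiv ℝ (ww κ b g z) y (W y) + m y := by
  rw [ww_fd hb h.gs]
  have h1 := h.lo y hy
  have h2 := (abs_le.1 ((ds_fd z hb y (W y)).trans (h.up y hy))).2
  have h3 := mul_le_mul_of_nonneg_left h2 (by positivity : 0 ≤ 3 * κ / 4)
  linarith

/-- `∇w · W + m ≥ (κ / 4) f`. -/
lemma LF.w_lo (h : LF κ R x f m W g) (hκ : 0 < κ) (hρ : 0 < ρ) {y : V}
    (hy : y ∈ closedBall x R) : κ / 4 * f y ≤ fderiv ℝ (ww κ ρ g x) y (W y) + m y :=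
  h.w_lo' hκ x hρ hy

lemma LF.pr_cont (h : LF κ R x f m W g) (hρ : 0 < ρ) (r : ℝ) :
    Continuous (pr κ ρ g x W m r) := by
  show Continuous fun y => TT κ ρ g x r y * (stp' ((uu κ ρ g x y - κ * r / 64) / (κ * r / 64)) /
    (κ * r / 64) * (fderiv ℝ (uu κ ρ g x) y (W y) + m y))
  have h1 := (TT_c1 (κ := κ) (x := x) hρ h.gs r).continuous
  have h2 := (uu_c1 (κ := κ) (x := x) hρ h.gs).continuous
  have h3 := fdW_cont h.wd.cont (uu_c1 (κ := κ) (x := x) hρ h.gs)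
  exact h1.mul (((stp'_cont.comp ((h2.sub continuous_const).div_const _)).div_const _).mul
    (h3.add h.mc))

lemma LF.pr_nn (h : LF κ R x f m W g) (hκ : 0 < κ) (hρ : 0 < ρ) {r : ℝ} (hr : 0 < r) {y : V}
    (hy : y ∈ closedBall x R) : 0 ≤ pr κ ρ g x W m r y := by
  unfold pr TT
  exact mul_nonneg (stp_nonneg _) (mul_nonneg (div_nonneg (stp'_nonneg _) (by positivity))
    (h.u_nn hκ hρ hy))

lemma LF.AA_nn (h : LF κ R x f m W g) (hκ : 0 < κ) (hρ : 0 < ρ) {r : ℝ} (hr : 0 < r) :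
    0 ≤ AA κ ρ R g x W m r :=
  setIntegral_nonneg isClosed_closedBall.measurableSet fun _ hy => h.pr_nn hκ hρ hr hy

end

end Pool.Agent.Q85.VL
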