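import Pool.Agent.Helper24.VL.ChainW
import Mathlib.Analysis.Calculus.LineDeriv.IntegrationByParts

/-!
Project VL: no function increases along a flux which is comparable with the vorticity in size; the
size of the vorticity is not comparable with a function of two variables.
-/

set_option autoImplicit false

open MeasureTheory Set Metric Filter Topology
open scoped ContDiff
open H459R3.NS Pool.Agent.W268.NS Pool.Agent.Q67.VD
open Pool.Agent.Q199.VD

namespace Pool.Agent.Q85.VL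

open Pool.Agent.Q85.CC Pool.Agent.Q85.CL Pool.Agent.Q151.CC

set_option maxHeartbeats 1600000 in
/-- No function increases along a flux which is comparable with the vorticity. -/
theorem fluxD {ν T E : ℝ} {Ω : Set V} {u : ℝ → V → V} {p : ℝ → V → ℝ} (hν : 0 < ν)
    (h : DSl ν T E Ω u p) {a : V} (ha : a ∈ Ω) (hs : Sing T u a) {T₀ κ₀ R C₀ : ℝ}
    {m : ℝ → V → ℝ} (hT0 : 0 ≤ T₀) (hT₀ : T₀ < T) (hR : 0 < R) (hκ₀ : 0 < κ₀)
    (hmc : ∀ t ∈ Ioo T₀ T, Continuous (m t))
    (hm0 : ∀ t ∈ Ioo T₀ T, ∀ y, 0 ≤ m t y) (hK : Kato T₀ T a R m) :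
    ∃ t ∈ Ioo T₀ T, ∀ (W : V → V) (g : V → ℝ), WD R a W →
      (∀ y, ‖y - a‖ ≤ R → len (W y) ≤ C₀ * om (u t) y + m t y) → ContDiff ℝ 1 g →
      (∀ y z, |g y - g z| ≤ len (y - z)) →
      ∃ y, ‖y - a‖ ≤ R ∧ fderiv ℝ g y (W y) < κ₀ * om (u t) y - m t y := by
  by_contra hcon
  push Not at hcon
  obtain ⟨C, hCd⟩ : ∃ C, C = max C₀ 1 := ⟨_, rfl⟩
  have hC1 : 1 ≤ C := by rw [hCd]; exact le_max_right _ _
  have hCC : C₀ ≤ C := by rw [hCd]; exact le_max_left _ _
  have hC : 0 < C := by linarith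
  obtain ⟨R', hR', hRR, hsub⟩ := small_ball h.openO ha hR
  obtain ⟨E', v, q, hL, hv⟩ := Pool.Agent.Q284.CL.dom ν T E Ω u p hν hs.pos h a R' hR' hsub
  have hνi : 0 < ν⁻¹ := inv_pos.2 hν
  obtain ⟨κ, hκd⟩ : ∃ κ, κ = min κ₀ 1 / C := ⟨_, rfl⟩
  have hmin : 0 < min κ₀ 1 := lt_min hκ₀ one_pos
  have hκ : 0 < κ := by rw [hκd]; positivity
  have hκC : κ * C ≤ κ₀ := by
    rw [hκd, div_mul_cancel₀ _ hC.ne']
    exact min_le_left _ _
  have hκ1 : κ ≤ 1 := by
    rw [hκd, div_le_one hC]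
    exact (min_le_right _ _).trans hC1
  have hKr : Kato (ν * T₀) (ν * T) a (R' / 4)
      (fun t y => (C + 3) / 2 * (2 * (ν⁻¹ * m (t / ν) y + 1))) :=
    (kato_rem hν (by linarith) hmc hm0 hK).scale (by positivity)
  refine hs.not_bdd (back hν hR' hs.pos hv (lyap2 Pool.Agent.Q284.CL.velL stmEnL stmEnS
    Pool.Agent.Q95.CL.regK Pool.Agent.Q81.CL.l1L t_GoodS t_AnaS (mul_pos hν hs.pos) hL
    (T₀ := ν * T₀) (C₀ := C) (by positivity) (mul_lt_mul_of_pos_left hT₀ hν) hκ hC1
    (R₀ := R' / 4) (by positivity) (closedBall_subset_ball (by linarith)) hKr ?_))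
  intro t' ht'
  have hνt : 0 < t' := (by positivity : 0 ≤ ν * T₀).trans_lt ht'.1
  have hI' : t' ∈ Ioo 0 (ν * T) := ⟨hνt, ht'.2⟩
  have ht : t' / ν ∈ Ioo T₀ T := time_memK hν ht'
  have hI : t' / ν ∈ Ioo 0 T := ⟨by positivity, ht.2⟩
  have htν : ν * (t' / ν) = t' := by field_simp
  obtain ⟨t, htd⟩ : ∃ t, t = t' / ν := ⟨_, rfl⟩
  obtain ⟨W, g, hW, hWu, hgs, hgl, hgm⟩ := hcon _ ht
  rw [← htd] at ht hI htν hWu hgm ⊢
  have hsm : SM (v t') := slice_u hL.toLEq hI'
  have hev : ∀ y, ‖y - a‖ ≤ R' / 2 → ∀ᶠ z in 𝓝 y, v t' z = ν⁻¹ • u t z := by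
    intro y hy
    refine ball_ev (a := a) (R := R') (fun z hz => ?_) (by
      rw [Metric.mem_ball, dist_eq_norm]
      linarith)
    rw [← hv _ hI z hz, htν]
  have hom : ∀ y, ‖y - a‖ ≤ R' / 2 → om (v t') y = ν⁻¹ * om (u t) y := fun y hy =>
    om_evD hνi.le (hev y hy)
  have hmt := hmc t ht
  have hmt0 := hm0 t ht
  -- the scaled field
  obtain ⟨W', hW'd⟩ : ∃ W' : V → V, W' = fun y => ν⁻¹ • W y := ⟨_, rfl⟩
  have hlW' : ∀ y, len (W' y) = ν⁻¹ * len (W y) := fun y => by
    rw [hW'd]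
    show len (ν⁻¹ • W y) = _
    rw [ln_smul, abs_of_pos hνi]
  have hW'c : Continuous W' := by
    rw [hW'd]
    exact (continuous_const : Continuous fun _ : V => ν⁻¹).smul hW.cont
  have hup : ∀ y, ‖y - a‖ ≤ R' / 2 → len (W' y) ≤ C * om (v t') y + ν⁻¹ * m t y := by
    intro y hy
    rw [hlW', hom y hy]
    have h1 := mul_le_mul_of_nonneg_left (hWu y (by linarith)) hνi.le
    have h2 : ν⁻¹ * (C₀ * om (u t) y) ≤ ν⁻¹ * (C * om (u t) y) :=
      mul_le_mul_of_nonneg_left (mul_le_mul_of_nonneg_right hCC (om_nnL _ _)) hνi.le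
    linarith
  refine ⟨W', g, fun y => C * om (v t') y + ν⁻¹ * m t y, ⟨⟨hW'c, fun F hF hts => ?_⟩,
    (continuous_const.mul (om_contL hsm)).add (continuous_const.mul hmt),
    continuous_const.mul (continuous_const.mul ((continuous_const.mul hmt).add
      continuous_const)), fun y => ?_, fun y hy => ?_, hgs, hgl, fun y hy => ?_⟩, fun y hy => ?_⟩
  · -- the divergence
    have hsub' : closedBall a (R' / 4) ⊆ closedBall a R :=
      closedBall_subset_closedBall (by linarith)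
    have h1 := hW.div F hF (hts.trans hsub')
    have h0 : ∀ y, y ∉ closedBall a (R' / 4) → fderiv ℝ F y (W y) = 0 := by
      intro y hy
      have h2 : fderiv ℝ F y = 0 := by
        by_contra hc
        exact hy (hts (support_fderiv_subset ℝ hc))
      rw [h2]
      rfl
    rw [setIntegral_eq_integral_of_forall_compl_eq_zero
      (fun y hy => h0 y fun hy' => hy (hsub' hy'))] at h1
    rw [← setIntegral_eq_integral_of_forall_compl_eq_zero h0] at h1
    rw [hW'd]
    simp only [map_smul, smul_eq_mul]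
    rw [integral_const_mul, h1, mul_zero]
  · have := mul_nonneg hνi.le (hmt0 y)
    positivity
  · rw [mem_closedBall, dist_eq_norm] at hy
    exact hup y (by linarith)
  · rw [mem_closedBall, dist_eq_norm] at hy
    have hyR : ‖y - a‖ ≤ R' / 2 := by linarith
    have h1 := mul_le_mul_of_nonneg_left (hgm y (by linarith)) hνi.le
    have h2 : 0 ≤ ν⁻¹ * m t y := mul_nonneg hνi.le (hmt0 y)
    have h3 : κ * (ν⁻¹ * m t y) ≤ ν⁻¹ * m t y := mul_le_of_le_one_left h2 hκ1
    have h0 : 0 ≤ ν⁻¹ * om (u t) y := mul_nonneg hνi.le (om_nnL _ _)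
    have h4 : κ * (C * om (v t') y + ν⁻¹ * m t y) ≤ ν⁻¹ * (κ₀ * om (u t) y)
        + κ * (ν⁻¹ * m t y) := by
      rw [mul_add, ← mul_assoc, hom y hyR]
      have := mul_le_mul_of_nonneg_right hκC h0
      linarith
    have h5 : fderiv ℝ g y (W' y) = ν⁻¹ * fderiv ℝ g y (W y) := by
      rw [hW'd]
      simp
    have h6 : ν⁻¹ * (κ₀ * om (u t) y - m t y) = ν⁻¹ * (κ₀ * om (u t) y) - ν⁻¹ * m t y := by ring
    show κ * (C * om (v t') y + ν⁻¹ * m t y) ≤ fderiv ℝ g y (W' y)
      + (C + 3) / 2 * (2 * (ν⁻¹ * m t y + 1))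
    rw [h5]
    rw [h6] at h1
    nlinarith
  · rw [mem_closedBall, dist_eq_norm] at hy
    have h2 : 0 ≤ ν⁻¹ * m t y := mul_nonneg hνi.le (hmt0 y)
    have h3 : 0 ≤ om (v t') y := om_nnL _ _
    have h4 : om (v t') y ≤ C * om (v t') y := le_mul_of_one_le_left h3 hC1
    refine ⟨?_, ?_⟩
    · show om (v t') y ≤ C * om (v t') y + ν⁻¹ * m t y
      linarith
    · show C * om (v t') y + ν⁻¹ * m t y ≤ C * om (v t') y
        + (C + 3) / 2 * (2 * (ν⁻¹ * m t y + 1))
      nlinarith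

/-- A field with a constant direction whose size does not depend on the coordinate in this
direction. -/
lemma inv_wd {e : V} {φ : V → ℝ} (hφ : Continuous φ) (hinv : ∀ y (s : ℝ), φ (y + s • e) = φ y)
    (R : ℝ) (a : V) : WD R a (fun y => φ y • e) := by
  refine ⟨hφ.smul continuous_const, fun F hF hts => ?_⟩
  have hcs : HasCompactSupport F :=
    (isCompact_closedBall a R).of_isClosed_subset (isClosed_tsupport F) hts
  have h0 : ∀ y, y ∉ closedBall a R → fderiv ℝ F y (φ y • e) = 0 := by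
    intro y hy
    have h2 : fderiv ℝ F y = 0 := by
      by_contra hc
      exact hy (hts (support_fderiv_subset ℝ hc))
    rw [h2]
    rfl
  rw [setIntegral_eq_integral_of_forall_compl_eq_zero h0]
  simp only [map_smul, smul_eq_mul]
  have hc1 : Continuous fun y => fderiv ℝ F y e :=
    (hF.continuous_fderiv one_ne_zero).clm_apply continuous_const
  have hcs1 : HasCompactSupport fun y => fderiv ℝ F y e := hcs.fderiv_apply (𝕜 := ℝ) e
  have h1 := integral_bilinear_hasLineDerivAt_right_eq_neg_left_of_integrable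
    (μ := (volume : Measure V)) (f := φ) (f' := fun _ => 0) (g := F)
    (g' := fun y => fderiv ℝ F y e) (v := e) (B := ContinuousLinearMap.mul ℝ ℝ) (by simp)
    (by
      show Integrable (fun y => φ y * fderiv ℝ F y e) volume
      exact (hφ.mul hc1).integrable_of_hasCompactSupport hcs1.mul_left)
    (by
      show Integrable (fun y => φ y * F y) volume
      exact (hφ.mul hF.continuous).integrable_of_hasCompactSupport hcs.mul_left)
    (fun x _ => by
      show HasDerivAt (fun t : ℝ => φ (x + t • e)) 0 0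
      simp only [hinv]
      exact hasDerivAt_const _ _)
    (fun x _ => ((hF.differentiable one_ne_zero x).hasFDerivAt).hasLineDerivAt e)
  simpa using h1

/-- The size of the vorticity is not comparable with a function of two variables. -/
theorem magD {ν T E : ℝ} {Ω : Set V} {u : ℝ → V → V} {p : ℝ → V → ℝ} (hν : 0 < ν)
    (h : DSl ν T E Ω u p) {a : V} (ha : a ∈ Ω) (hs : Sing T u a) {T₀ R c C : ℝ}
    {m : ℝ → V → ℝ} (hT0 : 0 ≤ T₀) (hT₀ : T₀ < T) (hR : 0 < R) (hc : 0 < c) (hC0 : 0 ≤ C)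
    (hmc : ∀ t ∈ Ioo T₀ T, Continuous (m t))
    (hm0 : ∀ t ∈ Ioo T₀ T, ∀ y, 0 ≤ m t y) (hK : Kato T₀ T a R m) :
    ∃ t ∈ Ioo T₀ T, ∀ (e : V) (φ : V → ℝ), e ⬝ᵥ e = 1 → Continuous φ →
      (∀ y (s : ℝ), φ (y + s • e) = φ y) →
      ∃ y, ‖y - a‖ ≤ R ∧ (om (u t) y < c * φ y - m t y ∨ C * φ y + m t y < om (u t) y) := by
  obtain ⟨C', hC'd⟩ : ∃ C', C' = max C 1 := ⟨_, rfl⟩
  have hC'1 : 1 ≤ C' := by rw [hC'd]; exact le_max_right _ _
  have hCC : C ≤ C' := by rw [hC'd]; exact le_max_left _ _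
  have hC' : 0 < C' := by linarith
  obtain ⟨K, hKd⟩ : ∃ K, K = 1 / c + 1 := ⟨_, rfl⟩
  have hK0 : 0 < K := by rw [hKd]; positivity
  obtain ⟨t, ht, hflux⟩ := fluxD hν h ha hs (C₀ := 1 / c) (κ₀ := 1 / C') (m := fun t y => K * m t y)
    hT0 hT₀ hR (by positivity) (fun t ht => continuous_const.mul (hmc t ht))
    (fun t ht y => mul_nonneg hK0.le (hm0 t ht y)) (hK.scale hK0)
  refine ⟨t, ht, fun e φ he hφ hinv => ?_⟩
  by_contra hcon
  push Not at hcon
  have hmt0 := hm0 t ht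
  obtain ⟨ψ, hψd⟩ : ∃ ψ : V → ℝ, ψ = fun y => max (φ y) 0 := ⟨_, rfl⟩
  have hψ0 : ∀ y, 0 ≤ ψ y := fun y => by rw [hψd]; exact le_max_right _ _
  have hle : len e = 1 := by
    unfold len
    rw [he, Real.sqrt_one]
  obtain ⟨y, hy, hlt⟩ := hflux (fun y => ψ y • e) (fun y => e ⬝ᵥ y)
    (inv_wd (e := e) (φ := ψ) (by rw [hψd]; exact hφ.max continuous_const)
      (fun y s => by rw [hψd]; show max (φ (y + s • e)) 0 = max (φ y) 0; rw [hinv]) R a)
    (fun y hy => by
      show len (ψ y • e) ≤ _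
      rw [ln_smul, hle, mul_one, abs_of_nonneg (hψ0 y)]
      obtain ⟨h1, h2⟩ := hcon y hy
      have h3 := hmt0 y
      have h4 : 0 ≤ om (u t) y := om_nnL _ _
      have h5 : c * ψ y ≤ om (u t) y + m t y := by
        rw [hψd]
        show c * max (φ y) 0 ≤ _
        rcases le_total (φ y) 0 with h6 | h6
        · rw [max_eq_right h6]
          linarith
        · rw [max_eq_left h6]
          linarith
      have h6 : ψ y ≤ 1 / c * (om (u t) y + m t y) := by
        rw [one_div, le_inv_mul_iff₀ hc]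
        exact h5
      have h7 : 1 / c * m t y ≤ K * m t y := by
        rw [hKd]
        nlinarith
      linarith)
    (lin_smooth e) (lin_lip he)
  rw [lin_deriv, dotProduct_smul, he, smul_eq_mul, mul_one] at hlt
  obtain ⟨h1, h2⟩ := hcon y hy
  have h3 := hmt0 y
  have h5 : om (u t) y ≤ C' * ψ y + m t y := by
    have h6 : C * φ y ≤ C' * ψ y := by
      rw [hψd]
      show C * φ y ≤ C' * max (φ y) 0
      rcases le_total (φ y) 0 with h7 | h7
      · have := mul_nonneg hC'.le (le_max_right (φ y) 0)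
        nlinarith
      · rw [max_eq_left h7]
        exact mul_le_mul_of_nonneg_right hCC h7
    linarith
  have h6 : 1 / C' * om (u t) y ≤ ψ y + m t y := by
    rw [one_div, inv_mul_le_iff₀ hC']
    nlinarith
  have h7 : m t y ≤ K * m t y := by
    have : 1 ≤ K := by rw [hKd]; have : 0 < 1 / c := by positivity
                       linarith
    nlinarith
  linarith

end Pool.Agent.Q85.VL
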