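import Pool.Agent.Helper24.VL.Mol
import Pool.Agent.Helper24.VL.Bas

/-!
Project VL: regularisation of a function which increases along the arcs of a field `W`.
(Adapted from `Pool.Agent.Helper24.VL.Mol` by helper36.)
-/

set_option autoImplicit false

open MeasureTheory Set Metric Filter Topology
open scoped ContDiff NNReal
open H459R3.NS Pool.Agent.W268.NS Pool.Agent.Q67.VD

namespace Pool.Agent.Q85.VL.MolW

open Pool.Agent.Q85.CC Pool.Agent.Q85.CL Pool.Agent.Q151.CC Pool.Agent.Q85.VL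
open Pool.Agent.Q85.VL.Mol

/-- the unit field -/
noncomputable def uw (W : V → V) (p : V) : V := (len (W p))⁻¹ • W p

lemma len_uw {W : V → V} {y : V} (h : 0 < len (W y)) : len (uw W y) = 1 := by
  unfold uw
  rw [ln_smul, abs_of_nonneg (inv_nonneg.2 h.le), inv_mul_cancel₀ h.ne']

lemma uw_smul {W : V → V} {y : V} (h : 0 < len (W y)) : len (W y) • uw W y = W y := by
  unfold uw
  rw [smul_smul, mul_inv_cancel₀ h.ne', one_smul]

lemma uw_c1 {W : V → V} {C : Set V} (hW : ContDiffOn ℝ 1 W C) (h0 : ∀ p ∈ C, 0 < len (W p)) :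
    ContDiffOn ℝ 1 (uw W) C := by
  intro p hp
  have h1 : ContDiffWithinAt ℝ 1 (fun p => W p ⬝ᵥ W p) C p := by
    simp only [dotProduct]
    refine ContDiffWithinAt.sum fun i _ => ?_
    have h2 := contDiffWithinAt_pi.1 (hW p hp) i
    exact h2.mul h2
  have h3 := h0 p hp
  unfold len at h3
  have h4 : W p ⬝ᵥ W p ≠ 0 := (Real.sqrt_pos.1 h3).ne'
  have h5 : ContDiffWithinAt ℝ 1 (fun p => (√(W p ⬝ᵥ W p))⁻¹) C p :=
    (h1.sqrt h4).inv h3.ne'
  exact h5.smul (hW p hp)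

/-- the arc which starts at `y'` -/
lemma arcW {W : V → V} {D : Set V} {y : V} {δ η : ℝ}
    (hW : ContDiffOn ℝ 1 W (closedBall y (2 * δ)))
    (hC : ∀ p ∈ closedBall y (2 * δ), 0 < len (W p) ∧ p ∈ D ∧ ‖uw W p - uw W y‖ ≤ η)
    {y' : V} (hy' : y' ∈ closedBall y δ) {l : ℝ} (hl : 0 < l) (hlδ : l ≤ δ) :
    ∃ q, Arc W D y' q l ∧ ‖q - (y' + l • uw W y)‖ ≤ η * l := by
  have hδ : 0 < δ := hl.trans_le hlδ
  obtain ⟨K, hK⟩ := (uw_c1 hW fun p hp => (hC p hp).1).exists_lipschitzOnWith one_ne_zero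
    (convex_closedBall _ _) (isCompact_closedBall _ _)
  have hsub : closedBall y' δ ⊆ closedBall y (2 * δ) := by
    intro p hp
    rw [mem_closedBall] at hp hy' ⊢
    linarith [dist_triangle p y' y]
  have hpl : IsPicardLindelof (fun _ => uw W) (tmin := 0) (tmax := l) ⟨0, by simp [hl.le]⟩ y'
      ⟨δ, hδ.le⟩ 0 1 K := by
    refine IsPicardLindelof.of_time_independent (fun p hp => ?_) (hK.mono hsub) ?_
    · have h1 := norm_le_ln (uw W p)
      rw [len_uw (hC p (hsub hp)).1] at h1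
      simpa using h1
    · simp only [NNReal.coe_one, sub_zero, one_mul, NNReal.coe_zero, sub_self]
      exact max_le hlδ hδ.le
  obtain ⟨γ, h0, hγ⟩ := pl_mem hpl (mem_closedBall_self le_rfl)
  refine ⟨γ l, ⟨hl, γ, h0, rfl, fun s hs => ⟨(hC _ (hsub (hγ s hs).1)).2.1, (hγ s hs).2⟩⟩, ?_⟩
  have hd : ∀ s ∈ Icc (0 : ℝ) l, HasDerivWithinAt (fun s => γ s - s • uw W y)
      (uw W (γ s) - uw W y) (Icc 0 l) s := fun s hs => by
    have h1 := (hγ s hs).2
    have h2 : HasDerivWithinAt (fun s : ℝ => s • uw W y) (uw W y) (Icc 0 l) s := by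
      simpa using ((hasDerivWithinAt_id s (Icc 0 l)).smul_const (uw W y))
    exact h1.sub h2
  have h3 := (convex_Icc (0 : ℝ) l).norm_image_sub_le_of_norm_hasDerivWithin_le hd
    (fun s hs => (hC _ (hsub (hγ s hs).1)).2.2) (left_mem_Icc.2 hl.le) (right_mem_Icc.2 hl.le)
  have h0' : γ 0 = y' := h0
  rw [h0', zero_smul, sub_zero, sub_zero, Real.norm_of_nonneg hl.le] at h3
  refine (le_of_eq ?_).trans h3
  congr 1
  abel

/-- the neighbourhood -/
lemma nbW {W : V → V} {f m : V → ℝ} {a : V} {R η c : ℝ} (hR : 0 < R) (hη : 0 < η) (hc : 0 < c)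
    (hW : Continuous W) (hf : Continuous f) (hm : Continuous m)
    (hlo : ∀ y, ‖y - a‖ ≤ R → m y < f y → c * f y ≤ len (W y)) :
    ∃ δ : ℝ, 0 < δ ∧ ∀ y, ‖y - a‖ ≤ R / 2 → m y + 1 ≤ f y → 0 ≤ m y →
      ∀ p ∈ closedBall y (2 * δ), 0 < len (W p) ∧ (‖p - a‖ < R ∧ m p < f p) ∧
        ‖uw W p - uw W y‖ ≤ η := by
  have hF : Continuous fun p => (f p, m p, W p) := hf.prodMk (hm.prodMk hW)
  have hu := (isCompact_closedBall a R).uniformContinuousOn_of_continuous hF.continuousOn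
  rw [Metric.uniformContinuousOn_iff] at hu
  obtain ⟨δ₀, hδ₀, hu⟩ := hu (min (1 / 4) (c * η / 4)) (by positivity)
  refine ⟨min (δ₀ / 4) (R / 8), by positivity, fun y hy hfy hm0 p hp => ?_⟩
  rw [mem_closedBall] at hp
  have h1 : dist p y ≤ R / 4 := hp.trans (by linarith [min_le_right (δ₀ / 4) (R / 8)])
  have h2 : dist p y < δ₀ := hp.trans_lt (by linarith [min_le_left (δ₀ / 4) (R / 8)])
  have h3 : dist y a ≤ R / 2 := by rwa [dist_eq_norm]
  have h4' : dist p a < R := by linarith [dist_triangle p y a]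
  have h4 : p ∈ closedBall a R := by
    rw [mem_closedBall]
    exact h4'.le
  have h5 : y ∈ closedBall a R := by
    rw [mem_closedBall]
    linarith
  have h6 := hu p h4 y h5 h2
  simp only [Prod.dist_eq, max_lt_iff] at h6
  obtain ⟨k1, k2, k3⟩ := h6
  rw [Real.dist_eq] at k1 k2
  rw [dist_eq_norm] at k3
  have q1 := min_le_left (1 / 4 : ℝ) (c * η / 4)
  have q2 := min_le_right (1 / 4 : ℝ) (c * η / 4)
  rw [abs_lt] at k1 k2
  have hfp : m p < f p ∧ 1 / 2 < f p := by constructor <;> linarith [k1.1, k2.2]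
  have hpa : ‖p - a‖ < R := by rwa [dist_eq_norm] at h4'
  have hya : ‖y - a‖ ≤ R := by linarith
  have hWy : c ≤ len (W y) := by
    have h7 := hlo y hya (by linarith)
    nlinarith
  have hWp : 0 < len (W p) := by
    have h7 := hlo p hpa.le hfp.1
    nlinarith [hfp.2]
  refine ⟨hWp, ⟨hpa, hfp.1⟩, ?_⟩
  have hWy0 : 0 < len (W y) := hc.trans_le hWy
  have e : uw W p - uw W y = (len (W y))⁻¹ • (W p - W y)
      + ((len (W p))⁻¹ - (len (W y))⁻¹) • W p := by
    unfold uw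
    simp only [smul_sub, sub_smul]
    abel
  have n2 : ‖(len (W y))⁻¹ • (W p - W y)‖ ≤ η / 4 := by
    rw [norm_smul, norm_inv, Real.norm_of_nonneg hWy0.le, inv_mul_le_iff₀ hWy0]
    nlinarith [norm_nonneg (W p - W y)]
  have n3 : ‖((len (W p))⁻¹ - (len (W y))⁻¹) • W p‖ ≤ η / 2 := by
    have e1 : (len (W p))⁻¹ - (len (W y))⁻¹ = (len (W y) - len (W p)) / (len (W p) * len (W y)) := by
      field_simp
    rw [norm_smul, e1, norm_div, Real.norm_eq_abs, Real.norm_of_nonneg (by positivity)]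
    have h6 : ‖W p‖ ≤ len (W p) := norm_le_ln _
    have h8 : |len (W y) - len (W p)| ≤ len (W p - W y) := by
      have g1 := ln_sub_le (W y) (W p) 0
      have g2 := ln_sub_le (W p) (W y) 0
      simp only [sub_zero] at g1 g2
      rw [ln_sub_comm (W y) (W p)] at g1
      rw [abs_le]
      constructor <;> linarith
    have h9 : len (W p - W y) ≤ 2 * ‖W p - W y‖ := len_le _
    rw [div_mul_eq_mul_div, div_le_iff₀ (by positivity)]
    have h10 : |len (W y) - len (W p)| ≤ c * η / 2 := by linarith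
    calc |len (W y) - len (W p)| * ‖W p‖ ≤ c * η / 2 * len (W p) :=
          mul_le_mul h10 h6 (norm_nonneg _) (by positivity)
      _ ≤ η / 2 * (len (W p) * len (W y)) := by
          have : c * (η / 2 * len (W p)) ≤ len (W y) * (η / 2 * len (W p)) :=
            mul_le_mul_of_nonneg_right hWy (by positivity)
          nlinarith
  rw [e]
  linarith [norm_add_le ((len (W y))⁻¹ • (W p - W y)) (((len (W p))⁻¹ - (len (W y))⁻¹) • W p)]

theorem molW {W : V → V} {f m g : V → ℝ} {a : V} {R ε c C : ℝ} (hR : 0 < R) (hε : 0 < ε)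
    (hε1 : ε ≤ 1) (hc : 0 < c) (hc1 : c ≤ 1) (hC : 1 ≤ C) (hWc : Continuous W)
    (hfc : Continuous f) (hm : Continuous m) (hm0 : ∀ y, 0 ≤ m y) (hf0 : ∀ y, 0 ≤ f y)
    (hW1 : ContDiffOn ℝ 1 W {y | ‖y - a‖ < R ∧ m y < f y})
    (hup : ∀ y, ‖y - a‖ ≤ R → len (W y) ≤ C * f y + m y)
    (hlo : ∀ y, ‖y - a‖ ≤ R → m y < f y → c * f y ≤ len (W y))
    (hl : ∀ y y', |g y - g y'| ≤ len (y - y'))
    (harc : ∀ p q l, Arc W {y | ‖y - a‖ ≤ R ∧ m y < f y} p q l → g p + ε * l ≤ g q) :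
    ∃ G : V → ℝ, ContDiff ℝ 1 G ∧ (∀ y y', |G y - G y'| ≤ len (y - y')) ∧
      ∀ y, ‖y - a‖ ≤ R / 2 →
        ε / 2 * c * f y ≤ fderiv ℝ G y (W y) + (C + 2) * (m y + 1) := by
  obtain ⟨δ, hδ, hnb⟩ := nbW (η := ε / 8) hR (by positivity) hc hWc hfc hm hlo
  have hg := g_cont hl
  let φ : ContDiffBump (0 : V) := ⟨δ / 2, δ, by positivity, by linarith⟩
  refine ⟨ml φ g, ml_c1 φ hg, ml_lip φ hl, fun y hy => ?_⟩
  have hd := fd_le (ml_c1 φ hg) (ml_lip φ hl) y (W y)
  rw [abs_le] at hd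
  have hyR : ‖y - a‖ ≤ R := by linarith
  have hupy := hup y hyR
  have h0 := hm0 y
  have hfy := hf0 y
  have hcf : ε / 2 * c * f y ≤ f y / 2 := by
    have h1 : ε * c ≤ 1 := mul_le_one₀ hε1 hc.le hc1
    nlinarith
  rcases le_total (f y) (m y + 1) with hcs | hcs
  · have h1 : C * f y ≤ C * (m y + 1) := mul_le_mul_of_nonneg_left hcs (by linarith)
    linarith [hd.1]
  · have hC' := hnb y hy hcs (hm0 y)
    have hWpos : 0 < len (W y) := (hC' y (mem_closedBall_self (by positivity))).1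
    have h1 : 3 / 4 * ε ≤ fderiv ℝ (ml φ g) y (uw W y) := by
      refine fd_ge (ml_c1 φ hg) hδ fun l hl0 hlδ => ml_low φ hg fun t ht => ?_
      have ht' : y - t ∈ closedBall y δ := by
        rw [mem_closedBall, dist_eq_norm, sub_sub_cancel_left, norm_neg]
        exact ht.le
      obtain ⟨q, hq, hq2⟩ := arcW (D := {y | ‖y - a‖ ≤ R ∧ m y < f y})
        (hW1.mono fun p hp => (hC' p hp).2.1)
        (fun p hp => ⟨(hC' p hp).1, ⟨(hC' p hp).2.1.1.le, (hC' p hp).2.1.2⟩, (hC' p hp).2.2⟩)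
        ht' hl0 hlδ
      have h2 := harc _ _ _ hq
      have h3 := hl (y + l • uw W y - t) q
      have h4 : len (y + l • uw W y - t - q) ≤ 2 * (ε / 8 * l) := by
        refine (len_le _).trans ?_
        have e : y + l • uw W y - t - q = -(q - (y - t + l • uw W y)) := by abel
        rw [e, norm_neg]
        linarith
      rw [abs_le] at h3
      nlinarith [h3.1]
    have h2 : fderiv ℝ (ml φ g) y (W y) = len (W y) * fderiv ℝ (ml φ g) y (uw W y) := by
      conv_lhs => rw [← uw_smul hWpos]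
      rw [map_smul, smul_eq_mul]
    rw [h2]
    have h4 : len (W y) * (3 / 4 * ε) ≤ len (W y) * fderiv ℝ (ml φ g) y (uw W y) :=
      mul_le_mul_of_nonneg_left h1 hWpos.le
    have h5 : c * f y * (3 / 4 * ε) ≤ len (W y) * (3 / 4 * ε) :=
      mul_le_mul_of_nonneg_right (hlo y hyR (by linarith)) (by positivity)
    have h6 : 0 ≤ c * f y * ε := by positivity
    have h7 : 0 ≤ (C + 2) * (m y + 1) := by positivity
    nlinarith

end Pool.Agent.Q85.VL.MolW
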