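import Pool.Agent.Helper24.VL.Sc2

/-!
Project VL: the bound of the integrals over small cubes (VL-7) and the lower bound of the fluxes.
-/

set_option autoImplicit false

open MeasureTheory Set Metric Filter Topology
open scoped ContDiff
open H459R3.NS Pool.Agent.W268.NS Pool.Agent.Q67.VD

namespace Pool.Agent.Q85.VL

open Pool.Agent.Q85.CC Pool.Agent.Q85.CL Pool.Agent.Q151.CC

/-! ### The scales -/

lemma sc_pos (j : ℕ) {R : ℝ} (hR : 0 < R) : 0 < (1 / 256 : ℝ) ^ j * R := by positivity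

lemma sc_le (j : ℕ) {R : ℝ} (hR : 0 < R) : (1 / 256 : ℝ) ^ j * R ≤ R :=
  mul_le_of_le_one_left hR.le (pow_le_one₀ (by norm_num) (by norm_num))

lemma sc_succ (j : ℕ) (R : ℝ) : (1 / 256 : ℝ) ^ (j + 1) * R = (1 / 256 : ℝ) ^ j * R / 256 := by
  rw [pow_succ]
  ring

/-- The last scale above `t`. -/
lemma sc_ex {R t : ℝ} (hR : 0 < R) (ht : 0 < t) (i : ℕ) (hi : t ≤ (1 / 256 : ℝ) ^ i * R) :
    ∃ n, i ≤ n ∧ t ≤ (1 / 256 : ℝ) ^ n * R ∧ (1 / 256 : ℝ) ^ n * R ≤ 256 * t := by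
  have hex : ∃ n, (1 / 256 : ℝ) ^ n * R < t := by
    obtain ⟨n, hn⟩ := exists_pow_lt_of_lt_one (div_pos ht hR) (by norm_num : (1 / 256 : ℝ) < 1)
    exact ⟨n, (lt_div_iff₀ hR).1 hn⟩
  obtain ⟨n, hn, hmin⟩ : ∃ n, (1 / 256 : ℝ) ^ n * R < t ∧ ∀ k < n, ¬ (1 / 256 : ℝ) ^ k * R < t := by
    classical
    exact ⟨Nat.find hex, Nat.find_spec hex, fun k hk => Nat.find_min hex hk⟩
  have hin : i < n := by
    by_contra hc
    rw [not_lt] at hc
    have h1 : (1 / 256 : ℝ) ^ i ≤ (1 / 256 : ℝ) ^ n :=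
      pow_le_pow_of_le_one (by norm_num) (by norm_num) hc
    have h2 := mul_le_mul_of_nonneg_right h1 hR.le
    linarith
  obtain ⟨k, rfl⟩ : ∃ k, n = k + 1 := ⟨n - 1, by omega⟩
  refine ⟨k, by omega, not_lt.1 (hmin k (Nat.lt_succ_self k)), ?_⟩
  rw [sc_succ] at hn
  linarith

/-! ### The remainder -/

section
variable {R μ : ℝ} {x : V} {m : V → ℝ}

lemma mint_nn (hm : ∀ y, 0 ≤ m y) (x : V) (r : ℝ) : 0 ≤ ∫ y in closedBall x r, m y :=
  integral_nonneg fun y => hm y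

lemma kterm_nn (hR : 0 < R) (hm : ∀ y, 0 ≤ m y) (x : V) (j : ℕ) :
    0 ≤ ((1 / 256 : ℝ) ^ j * R)⁻¹ * ∫ y in closedBall x ((1 / 256 : ℝ) ^ j * R), m y :=
  mul_nonneg (inv_nonneg.2 (sc_pos j hR).le) (mint_nn hm x _)

lemma KS.nn (h : KS R x m μ) : 0 ≤ μ := by
  simpa using h 0

lemma KS.ico (h : KS R x m μ) (hR : 0 < R) (hm : ∀ y, 0 ≤ m y) (i n : ℕ) :
    ∑ j ∈ Finset.Ico i n,
      ((1 / 256 : ℝ) ^ j * R)⁻¹ * ∫ y in closedBall x ((1 / 256 : ℝ) ^ j * R), m y ≤ μ := by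
  refine le_trans ?_ (h n)
  refine Finset.sum_le_sum_of_subset_of_nonneg ?_ fun j _ _ => kterm_nn hR hm x j
  intro j hj
  rw [Finset.mem_Ico] at hj
  exact Finset.mem_range.2 hj.2

lemma KS.term (h : KS R x m μ) (hR : 0 < R) (hm : ∀ y, 0 ≤ m y) (j : ℕ) :
    ∫ y in closedBall x ((1 / 256 : ℝ) ^ j * R), m y ≤ μ * ((1 / 256 : ℝ) ^ j * R) := by
  have h1 := h.ico hR hm j (j + 1)
  rw [Nat.Ico_succ_singleton, Finset.sum_singleton, inv_mul_le_iff₀ (sc_pos j hR)] at h1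
  linarith

lemma KS.quarter (h : KS R x m μ) (hR : 0 < R) (hmc : Continuous m) (hm : ∀ y, 0 ≤ m y) :
    KS (R / 4) x m (4 * μ) := by
  intro n
  refine le_trans ?_ (mul_le_mul_of_nonneg_left (h n) (by norm_num : (0 : ℝ) ≤ 4))
  rw [Finset.mul_sum]
  refine Finset.sum_le_sum fun j _ => ?_
  have hs : (1 / 256 : ℝ) ^ j * (R / 4) = (1 / 256 : ℝ) ^ j * R / 4 := by ring
  have hp := sc_pos j hR
  have e1 : ((1 / 256 : ℝ) ^ j * R / 4)⁻¹ = 4 * ((1 / 256 : ℝ) ^ j * R)⁻¹ := by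
    rw [inv_div, div_eq_mul_inv]
  rw [hs, e1, mul_assoc]
  refine mul_le_mul_of_nonneg_left ?_ (by norm_num)
  refine mul_le_mul_of_nonneg_left ?_ (inv_nonneg.2 hp.le)
  exact setIntegral_mono_set (cint hmc x _) (Eventually.of_forall hm)
    (closedBall_subset_closedBall (by linarith)).eventuallyLE

end

/-! ### The chain of scales -/

section
variable {κ ρ R R₀ : ℝ} {x : V} {f m : V → ℝ} {W : V → V} {g : V → ℝ}

lemma ch_le (h : LF κ R x f m W g) (hκ : 0 < κ) (hκ1 : κ ≤ 1) (hρ : 0 < ρ) (hR₀ : 0 < R₀)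
    (hR₀R : R₀ ≤ R) (i n : ℕ) (hin : i ≤ n) :
    AA κ ρ R g x W m ((1 / 256 : ℝ) ^ n * R₀) ≤ AA κ ρ R g x W m ((1 / 256 : ℝ) ^ i * R₀)
      + 65536 / κ * ∑ j ∈ Finset.Ico i n, ((1 / 256 : ℝ) ^ j * R₀)⁻¹ *
          ∫ y in closedBall x ((1 / 256 : ℝ) ^ j * R₀), m y := by
  induction n, hin using Nat.le_induction with
  | base => simp
  | succ n hn ih =>
    rw [Finset.sum_Ico_succ_top hn, mul_add, ← add_assoc]
    have hp := sc_pos n hR₀
    have h1 := t_Cmp κ ρ R ((1 / 256 : ℝ) ^ n * R₀) ((1 / 256 : ℝ) ^ (n + 1) * R₀) x f m W g hκ hκ1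
      hρ h (sc_pos _ hR₀) (by rw [sc_succ]; linarith) ((sc_le n hR₀).trans hR₀R)
    have e1 : 256 / (κ * ((1 / 256 : ℝ) ^ (n + 1) * R₀)) = 65536 / κ * ((1 / 256 : ℝ) ^ n * R₀)⁻¹ := by
      rw [sc_succ]
      field_simp
      norm_num
    rw [e1, mul_assoc] at h1
    linarith

/-- The upper bound of the flux at the largest scale. -/
lemma top_le (h : LF κ R x f m W g) (hκ : 0 < κ) (hκ1 : κ ≤ 1) (hρ : 0 < ρ) (hR₀ : 0 < R₀)
    (hR₀R : R₀ ≤ R) {μ : ℝ} (hK : KS R₀ x m μ) :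
    AA κ ρ R g x W m R₀ ≤ 256 / κ * ((∫ y in closedBall x R₀, f y) / R₀ + μ) := by
  have h1 := t_UB κ ρ R R₀ x f m W g hκ hκ1 hρ h hR₀ hR₀R
  have h2 := hK.term hR₀ h.m0 0
  rw [pow_zero, one_mul] at h2
  have hi : IntegrableOn (fun y => 2 * f y) (closedBall x R₀) :=
    cint (continuous_const.mul h.fc) x R₀
  rw [integral_add hi (cint h.mc x R₀), integral_const_mul] at h1
  refine h1.trans ?_
  have e1 : 128 / (κ * R₀) * (2 * (∫ y in closedBall x R₀, f y) + ∫ y in closedBall x R₀, m y)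
      = 256 / κ * ((∫ y in closedBall x R₀, f y) / R₀) +
        128 / κ * ((∫ y in closedBall x R₀, m y) / R₀) := by
    field_simp
    ring
  rw [e1, mul_add]
  have h3 : (∫ y in closedBall x R₀, m y) / R₀ ≤ μ := by
    rw [div_le_iff₀ hR₀]
    exact h2
  have h4 : 128 / κ * ((∫ y in closedBall x R₀, m y) / R₀) ≤ 128 / κ * μ :=
    mul_le_mul_of_nonneg_left h3 (by positivity)
  have h5 : 128 / κ * μ ≤ 256 / κ * μ := mul_le_mul_of_nonneg_right
    (div_le_div_of_nonneg_right (by norm_num) hκ.le) hK.nn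
  linarith

end

/-- VL-7. -/
theorem t_MorV : StmMorV := by
  intro κ hκ hκ1
  refine ⟨2048 * (32768 / κ) ^ 2, κ / 128, by positivity, by positivity, by linarith, ?_⟩
  intro R μ x f m W g hR h hK r hr hrR
  have hμ := hK.nn
  have ht : 0 < 128 / κ * r := by positivity
  have htR : 128 / κ * r ≤ (1 / 256 : ℝ) ^ 0 * R := by
    rw [pow_zero, one_mul]
    have h1 : 128 / κ * r ≤ 128 / κ * (κ / 128 * R) := mul_le_mul_of_nonneg_left hrR (by positivity)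
    have e1 : 128 / κ * (κ / 128 * R) = R := by field_simp
    linarith
  obtain ⟨n, -, hn1, hn2⟩ := sc_ex hR ht 0 htR
  have hc := ch_le h hκ hκ1 hr hR le_rfl 0 n (Nat.zero_le n)
  rw [pow_zero, one_mul] at hc
  have ht' := top_le h hκ hκ1 hr hR le_rfl hK
  have hs := mul_le_mul_of_nonneg_left (hK.ico hR h.m0 0 n) (by positivity : 0 ≤ 65536 / κ)
  have hF0 : 0 ≤ (∫ y in closedBall x R, f y) / R :=
    div_nonneg (setIntegral_nonneg isClosed_closedBall.measurableSet fun y hy => h.f0 hy) hR.le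
  obtain ⟨S, hS⟩ : ∃ S, S = (∫ y in closedBall x R, f y) / R + μ := ⟨_, rfl⟩
  have hS0 : 0 ≤ S := by rw [hS]; positivity
  have hμS : μ ≤ S := by rw [hS]; linarith
  rw [← hS] at ht' ⊢
  obtain ⟨q, hq⟩ : ∃ q, q = (1 / 256 : ℝ) ^ n * R := ⟨_, rfl⟩
  have hm1 := hK.term hR h.m0 n
  have hLB := t_LB κ r R ((1 / 256 : ℝ) ^ n * R) x f m W g hκ hκ1 hr h hn1 (sc_le n hR)
  rw [← hq] at hn1 hn2 hc hm1 hLB
  have hq0 : 0 < q := by rw [hq]; exact sc_pos n hR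
  have hA : AA κ r R g x W m q ≤ 131072 / κ * S := by
    have h1 : 256 / κ * S + 65536 / κ * μ ≤ 131072 / κ * S := by
      have h2 : 65536 / κ * μ ≤ 65536 / κ * S := mul_le_mul_of_nonneg_left hμS (by positivity)
      have h3 : 256 / κ * S + 65536 / κ * S ≤ 131072 / κ * S := by
        rw [← add_mul, ← add_div]
        exact mul_le_mul_of_nonneg_right (div_le_div_of_nonneg_right (by norm_num) hκ.le) hS0
      linarith
    linarith
  have h1 : (κ * q / 8) ^ 2 * AA κ r R g x W m q ≤ (κ * q / 8) ^ 2 * (131072 / κ * S) :=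
    mul_le_mul_of_nonneg_left hA (sq_nonneg _)
  have h2 : κ * q / 4 * ∫ y in closedBall x q, m y ≤ κ * q / 4 * (S * q) :=
    mul_le_mul_of_nonneg_left (hm1.trans (mul_le_mul_of_nonneg_right hμS hq0.le)) (by positivity)
  have e1 : (κ * q / 8) ^ 2 * (131072 / κ * S) = 2048 * κ * q ^ 2 * S := by
    field_simp
    ring
  have h3 : 2 * κ * r * ∫ y in closedBall x r, f y ≤ 2048 * κ * q ^ 2 * S + κ * q / 4 * (S * q) := by
    linarith
  have h6 : q ^ 2 ≤ (32768 / κ * r) ^ 2 := by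
    refine pow_le_pow_left₀ hq0.le (hn2.trans (le_of_eq ?_)) 2
    ring
  have h7 : κ * (q ^ 2 * S) ≤ κ * ((32768 / κ * r) ^ 2 * S) :=
    mul_le_mul_of_nonneg_left (mul_le_mul_of_nonneg_right h6 hS0) hκ.le
  have h8 : 0 ≤ κ * ((32768 / κ * r) ^ 2 * S) := by positivity
  have h9 : 2 * κ * r * ∫ y in closedBall x r, f y ≤
      2 * κ * r * (2048 * (32768 / κ) ^ 2 * S * r) := by
    have e2 : 2 * κ * r * (2048 * (32768 / κ) ^ 2 * S * r)
        = 4096 * (κ * ((32768 / κ * r) ^ 2 * S)) := by ring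
    have e3 : 2048 * κ * q ^ 2 * S + κ * q / 4 * (S * q) = (2048 + 1 / 4) * (κ * (q ^ 2 * S)) := by
      ring
    rw [e2]
    rw [e3] at h3
    linarith
  exact le_of_mul_le_mul_left h9 (by positivity)

end Pool.Agent.Q85.VL
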