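import Pool.Agent.Helper24.VL.Der

/-!
Project VL: the flux at one scale and at two scales (VL-2, VL-3, VL-4).
-/

set_option autoImplicit false

open MeasureTheory Set Metric Filter Topology
open scoped ContDiff
open H459R3.NS Pool.Agent.W268.NS Pool.Agent.Q67.VD

namespace Pool.Agent.Q85.VL

open Pool.Agent.Q85.CC Pool.Agent.Q85.CL Pool.Agent.Q151.CC

section
variable {κ ρ : ℝ} {g : V → ℝ} {x : V} {W : V → V} {m : V → ℝ}

lemma pr_supp (hκ : 0 < κ) {r : ℝ} (hr : 0 < r) {y : V} (hne : pr κ ρ g x W m r y ≠ 0) :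
    κ * r / 64 < uu κ ρ g x y ∧ uu κ ρ g x y < κ * r / 32 ∧ -(κ * r / 8) < ww κ ρ g x y ∧
      ds x ρ y < 5 * r / 8 := by
  unfold pr TT at hne
  have h1 : stp ((ww κ ρ g x y + κ * r / 8) / (κ * r / 16)) ≠ 0 := left_ne_zero_of_mul hne
  have h2 : stp' ((uu κ ρ g x y - κ * r / 64) / (κ * r / 64)) ≠ 0 := by
    intro h0
    rw [h0, zero_div, zero_mul, mul_zero] at hne
    exact hne rfl
  obtain ⟨h3, h4⟩ := sps_mem (by positivity) h2
  have h5 := sTT_mem (by positivity) h1
  have h6 : uu κ ρ g x y < κ * r / 32 := by linarith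
  exact ⟨h3, h6, h5, ds_lt hκ h6 h5⟩

lemma pr_ball (hκ : 0 < κ) {r : ℝ} (hr : 0 < r) {y : V} (hy : y ∉ closedBall x r) :
    pr κ ρ g x W m r y = 0 := by
  by_contra hne
  have h1 := (pr_supp hκ hr hne).2.2.2
  have h2 := norm_le_ds x ρ y
  rw [mem_closedBall, dist_eq_norm] at hy
  exact hy (by linarith)

end

/-- VL-2. -/
theorem t_UB : StmUB := by
  intro κ ρ R r x f m W g hκ hκ1 hρ h hr hrR
  have hsub : closedBall x r ⊆ closedBall x R := closedBall_subset_closedBall hrR
  have key : ∀ y ∈ closedBall x R, pr κ ρ g x W m r y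
      ≤ (closedBall x r).indicator (fun y => 128 / (κ * r) * (2 * f y + m y)) y := by
    intro y hy
    by_cases hy' : y ∈ closedBall x r
    · rw [indicator_of_mem hy']
      have hD := h.u_nn hκ hρ hy
      have hD2 := (abs_le.1 (h.u_up hκ hκ1 hρ hy)).2
      unfold pr TT
      have hs : stp' ((uu κ ρ g x y - κ * r / 64) / (κ * r / 64)) / (κ * r / 64)
          ≤ 128 / (κ * r) := by
        rw [div_le_div_iff₀ (by positivity) (by positivity)]
        have h1 := stp'_le ((uu κ ρ g x y - κ * r / 64) / (κ * r / 64))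
        have h2 : 0 < κ * r := by positivity
        nlinarith
      have hs0 : 0 ≤ stp' ((uu κ ρ g x y - κ * r / 64) / (κ * r / 64)) / (κ * r / 64) :=
        div_nonneg (stp'_nonneg _) (by positivity)
      have hC : 0 ≤ 128 / (κ * r) := by positivity
      calc stp ((ww κ ρ g x y + κ * r / 8) / (κ * r / 16)) *
            (stp' ((uu κ ρ g x y - κ * r / 64) / (κ * r / 64)) / (κ * r / 64) *
              (fderiv ℝ (uu κ ρ g x) y (W y) + m y))
          ≤ 1 * (128 / (κ * r) * (2 * f y + m y)) := by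
            refine mul_le_mul (stp_le_one _) ?_ (mul_nonneg hs0 hD) zero_le_one
            exact mul_le_mul hs (by linarith) hD hC
        _ = _ := one_mul _
    · rw [indicator_of_notMem hy', pr_ball hκ hr hy']
  have hc : Continuous fun y => 128 / (κ * r) * (2 * f y + m y) :=
    continuous_const.mul ((continuous_const.mul h.fc).add h.mc)
  have h1 := setIntegral_mono_on (cint (h.pr_cont hρ r) x R)
    (ind_int hc x R isClosed_closedBall.measurableSet) isClosed_closedBall.measurableSet key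
  rw [ind_ball hsub, integral_const_mul] at h1
  exact h1

section
variable {κ ρ : ℝ} {g : V → ℝ} {x : V}

lemma TT_mono (hκ : 0 < κ) {r r' : ℝ} (hr : 0 < r) (hr' : 0 < r') (hrr : r' ≤ r / 2) (y : V) :
    TT κ ρ g x r' y ≤ TT κ ρ g x r y := by
  unfold TT
  by_cases h0 : stp ((ww κ ρ g x y + κ * r' / 8) / (κ * r' / 16)) = 0
  · rw [h0]
    exact stp_nonneg _
  · have h1 := sTT_mem (by positivity) h0
    have h2 : κ * r' ≤ κ * (r / 2) := mul_le_mul_of_nonneg_left hrr hκ.le
    rw [sTT_one (w := ww κ ρ g x y) (a := κ * r / 8) (b := κ * r / 16) (by positivity)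
      (by linarith)]
    exact stp_le_one _

lemma PS_mono (hκ : 0 < κ) {r r' : ℝ} (hr : 0 < r) (hr' : 0 < r') (hrr : r' ≤ r) (y : V) :
    PS κ ρ g x r y ≤ PS κ ρ g x r' y := by
  unfold PS
  by_cases h0 : stp ((uu κ ρ g x y - κ * r / 64) / (κ * r / 64)) = 0
  · rw [h0]
    exact stp_nonneg _
  · have h1 := sPS_mem (by positivity) h0
    refine stp_mono ?_
    have h2 : 0 < uu κ ρ g x y := lt_trans (by positivity) h1
    have h3 : κ * r' ≤ κ * r := mul_le_mul_of_nonneg_left hrr hκ.le
    rw [sub_div, sub_div, div_self (by positivity), div_self (by positivity)]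
    have h4 : uu κ ρ g x y / (κ * r / 64) ≤ uu κ ρ g x y / (κ * r' / 64) :=
      div_le_div_of_nonneg_left h2.le (by positivity) (by linarith)
    linarith

lemma PS_ne (hκ : 0 < κ) {r r' : ℝ} (hr : 0 < r) (hr' : 0 < r') (hrr : r' ≤ r) {y : V}
    (h : PS κ ρ g x r' y - PS κ ρ g x r y ≠ 0) : uu κ ρ g x y < κ * r / 32 := by
  by_contra hc
  rw [not_lt] at hc
  apply h
  unfold PS
  have h3 : κ * r' ≤ κ * r := mul_le_mul_of_nonneg_left hrr hκ.le
  rw [stp_one, stp_one, sub_self]
  · rw [le_div_iff₀ (by positivity)]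
    linarith
  · rw [le_div_iff₀ (by positivity)]
    linarith

end

/-- The comparison at one point. -/
lemma cmp_alg {T T' s s' D E M p τ C : ℝ} (hT' : T' ≤ T) (hT1 : T ≤ 1)
    (hT0 : 0 ≤ T') (hs : 0 ≤ s) (hs' : 0 ≤ s') (hD : 0 ≤ D + M) (hE : 0 ≤ E + M) (hM : 0 ≤ M)
    (hp : 0 ≤ p) (hp1 : p ≤ 1) (hτ : 0 ≤ τ) (hC : s' + τ ≤ C) :
    T' * (s' * (D + M)) ≤ T * (s * (D + M)) + C * M
      + (T * (s' * D - s * D) + p * (τ * E)) := by
  have hT : 0 ≤ T := hT0.trans hT'
  have h1 : 0 ≤ (T - T') * (s' * (D + M)) := mul_nonneg (sub_nonneg.2 hT') (mul_nonneg hs' hD)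
  have h2 : 0 ≤ T * (s * M) := mul_nonneg hT (mul_nonneg hs hM)
  have h3 : 0 ≤ p * (τ * (E + M)) := mul_nonneg hp (mul_nonneg hτ hE)
  have h4 : 0 ≤ (1 - T) * (s' * M) := mul_nonneg (sub_nonneg.2 hT1) (mul_nonneg hs' hM)
  have h5 : 0 ≤ (1 - p) * (τ * M) := mul_nonneg (sub_nonneg.2 hp1) (mul_nonneg hτ hM)
  have h6 : 0 ≤ (C - (s' + τ)) * M := mul_nonneg (sub_nonneg.2 hC) hM
  nlinarith

/-- VL-3. -/
theorem t_Cmp : StmCmp := by
  intro κ ρ R r r' x f m W g hκ hκ1 hρ h hr' hrr hrR
  have hr : 0 < r := by linarith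
  have hrr' : r' ≤ r := by linarith
  have hsub : closedBall x r ⊆ closedBall x R := closedBall_subset_closedBall hrR
  obtain ⟨F, hFd⟩ : ∃ F : V → ℝ, F = fun y => TT κ ρ g x r y * (PS κ ρ g x r' y - PS κ ρ g x r y) :=
    ⟨_, rfl⟩
  have hT := TT_c1 (κ := κ) (x := x) hρ h.gs r
  have hP := PS_c1 (κ := κ) (x := x) hρ h.gs r
  have hP' := PS_c1 (κ := κ) (x := x) hρ h.gs r'
  have hF : ContDiff ℝ 1 F := by
    rw [hFd]
    exact hT.mul (hP'.sub hP)
  have hsup : ∀ y, F y ≠ 0 → ‖y - x‖ ≤ r := by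
    intro y hy
    rw [hFd] at hy
    have h1 := left_ne_zero_of_mul hy
    have h2 := PS_ne hκ hr hr' hrr' (right_ne_zero_of_mul hy)
    unfold TT at h1
    have h3 := ds_lt hκ h2 (sTT_mem (by positivity) h1)
    exact (norm_le_ds x ρ y).trans (by linarith)
  have hFfd : ∀ y, fderiv ℝ F y (W y) = TT κ ρ g x r y *
      (stp' ((uu κ ρ g x y - κ * r' / 64) / (κ * r' / 64)) / (κ * r' / 64) *
        fderiv ℝ (uu κ ρ g x) y (W y)
      - stp' ((uu κ ρ g x y - κ * r / 64) / (κ * r / 64)) / (κ * r / 64) *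
        fderiv ℝ (uu κ ρ g x) y (W y))
      + (PS κ ρ g x r' y - PS κ ρ g x r y) *
        (stp' ((ww κ ρ g x y + κ * r / 8) / (κ * r / 16)) / (κ * r / 16) *
          fderiv ℝ (ww κ ρ g x) y (W y)) := by
    intro y
    rw [hFd, mul_fd hT (hP'.sub hP), sub_fd hP' hP, PS_fd hρ h.gs, PS_fd hρ h.gs, TT_fd hρ h.gs]
  have hmain := mas h.wd (P := pr κ ρ g x W m r')
    (Q := fun y => pr κ ρ g x W m r y + (closedBall x r).indicator
      (fun y => 256 / (κ * r') * m y) y) hF hrR hsup (cint (h.pr_cont hρ r') x R)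
    ((cint (h.pr_cont hρ r) x R).add (indc_int h.mc _ x R
      isClosed_closedBall.measurableSet)) ?_
  · rw [add_ind _ (cint (h.pr_cont hρ r) x R) h.mc isClosed_closedBall.measurableSet hsub] at hmain
    exact hmain
  · intro y hy
    rw [hFfd]
    have hPP : 0 ≤ PS κ ρ g x r' y - PS κ ρ g x r y := sub_nonneg.2 (PS_mono hκ hr hr' hrr' y)
    have hPP1 : PS κ ρ g x r' y - PS κ ρ g x r y ≤ 1 := by
      have h1 : PS κ ρ g x r' y ≤ 1 := stp_le_one _
      have h2 : 0 ≤ PS κ ρ g x r y := stp_nonneg _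
      linarith
    by_cases hy' : y ∈ closedBall x r
    · rw [indicator_of_mem hy']
      refine cmp_alg (TT_mono hκ hr hr' hrr y) (stp_le_one _) (stp_nonneg _)
        (div_nonneg (stp'_nonneg _) (by positivity)) (div_nonneg (stp'_nonneg _) (by positivity))
        (h.u_nn hκ hρ hy) ((mul_nonneg (by positivity) (h.f0 hy)).trans (h.w_lo hκ hρ hy)) (h.m0 y)
        hPP hPP1 (div_nonneg (stp'_nonneg _) (by positivity)) ?_
      have h1 : stp' ((uu κ ρ g x y - κ * r' / 64) / (κ * r' / 64)) / (κ * r' / 64)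
          ≤ 96 / (κ * r') := by
        rw [div_le_div_iff₀ (by positivity) (by positivity)]
        have h1 := stp'_le ((uu κ ρ g x y - κ * r' / 64) / (κ * r' / 64))
        have h2 : 0 < κ * r' := by positivity
        nlinarith
      have h2 : stp' ((ww κ ρ g x y + κ * r / 8) / (κ * r / 16)) / (κ * r / 16)
          ≤ 24 / (κ * r') := by
        rw [div_le_div_iff₀ (by positivity) (by positivity)]
        have h1 := stp'_le ((ww κ ρ g x y + κ * r / 8) / (κ * r / 16))
        have h2 : 0 < κ * r' := by positivity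
        have h3 : κ * r' ≤ κ * r := mul_le_mul_of_nonneg_left hrr' hκ.le
        nlinarith
      have h3 : 96 / (κ * r') + 24 / (κ * r') ≤ 256 / (κ * r') := by
        rw [← add_div]
        exact div_le_div_of_nonneg_right (by norm_num) (by positivity)
      linarith
    · rw [indicator_of_notMem hy', pr_ball hκ hr hy']
      have hy2 : y ∉ closedBall x r' := fun h0 => hy' (closedBall_subset_closedBall hrr' h0)
      rw [pr_ball hκ hr' hy2]
      have hout : ∀ {u' : Prop}, (uu κ ρ g x y < κ * r / 32) → (-(κ * r / 8) < ww κ ρ g x y) →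
          u' := by
        intro u' h1 h2
        have h3 := ds_lt hκ h1 h2
        have h4 := norm_le_ds x ρ y
        rw [mem_closedBall, dist_eq_norm] at hy'
        exact absurd (by linarith) hy'
      have e1 : TT κ ρ g x r y *
          (stp' ((uu κ ρ g x y - κ * r' / 64) / (κ * r' / 64)) / (κ * r' / 64) *
            fderiv ℝ (uu κ ρ g x) y (W y)
          - stp' ((uu κ ρ g x y - κ * r / 64) / (κ * r / 64)) / (κ * r / 64) *
            fderiv ℝ (uu κ ρ g x) y (W y)) = 0 := by
        by_cases hT0 : TT κ ρ g x r y = 0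
        · rw [hT0, zero_mul]
        · unfold TT at hT0
          have h1 := sTT_mem (by positivity) hT0
          have h2 : stp' ((uu κ ρ g x y - κ * r' / 64) / (κ * r' / 64)) = 0 := by
            by_contra hc
            have h3 := (sps_mem (by positivity) hc).2
            have h4 : κ * r' ≤ κ * r := mul_le_mul_of_nonneg_left hrr' hκ.le
            exact hout (by linarith) h1
          have h3 : stp' ((uu κ ρ g x y - κ * r / 64) / (κ * r / 64)) = 0 := by
            by_contra hc
            have h3 := (sps_mem (by positivity) hc).2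
            exact hout (by linarith) h1
          rw [h2, h3]
          ring
      have e2 : (PS κ ρ g x r' y - PS κ ρ g x r y) *
          (stp' ((ww κ ρ g x y + κ * r / 8) / (κ * r / 16)) / (κ * r / 16) *
            fderiv ℝ (ww κ ρ g x) y (W y)) = 0 := by
        by_cases hP0 : PS κ ρ g x r' y - PS κ ρ g x r y = 0
        · rw [hP0, zero_mul]
        · have h1 := PS_ne hκ hr hr' hrr' hP0
          have h2 : stp' ((ww κ ρ g x y + κ * r / 8) / (κ * r / 16)) = 0 := by
            by_contra hc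
            exact hout h1 (sTT'_mem (by positivity) hc)
          rw [h2]
          ring
      rw [e1, e2]
      norm_num

end Pool.Agent.Q85.VL
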