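import Pool.Agent.Helper24.VL.Sc

/-!
Project VL: the lower bound of the flux (VL-4).
-/

set_option autoImplicit false

open MeasureTheory Set Metric Filter Topology
open scoped ContDiff
open H459R3.NS Pool.Agent.W268.NS Pool.Agent.Q67.VD

namespace Pool.Agent.Q85.VL

open Pool.Agent.Q85.CC Pool.Agent.Q85.CL Pool.Agent.Q151.CC

/-- The lower bound at one point. -/
lemma lb_alg {A B T S s D E M p τ L : ℝ} (hA : 0 ≤ A) (hST : S ≤ T) (hS : 0 ≤ S)
    (hs : 0 ≤ s) (hD : 0 ≤ D + M) (hE : L ≤ E + M) (hM : 0 ≤ M)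
    (hp1 : p ≤ 1) (hp : 0 ≤ p) (hτ : 0 ≤ τ) (hB : A * τ ≤ B) :
    (1 - p) * (A * τ * L) ≤ A * (T * (s * (D + M))) + B * M
      + (A * S * (-(s * D)) + (1 - p) * (A * (τ * E))) := by
  have h1 : 0 ≤ A * ((T - S) * (s * (D + M))) :=
    mul_nonneg hA (mul_nonneg (sub_nonneg.2 hST) (mul_nonneg hs hD))
  have h2 : 0 ≤ A * (S * (s * M)) := mul_nonneg hA (mul_nonneg hS (mul_nonneg hs hM))
  have h3 : 0 ≤ (1 - p) * (A * τ * (E + M - L)) :=
    mul_nonneg (sub_nonneg.2 hp1) (mul_nonneg (mul_nonneg hA hτ) (sub_nonneg.2 hE))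
  have h4 : 0 ≤ p * (A * τ * M) := mul_nonneg hp (mul_nonneg (mul_nonneg hA hτ) hM)
  have h5 : 0 ≤ (B - A * τ) * M := mul_nonneg (sub_nonneg.2 hB) hM
  nlinarith

/-- VL-4. -/
theorem t_LB : StmLB := by
  intro κ ρ R r x f m W g hκ hκ1 hρ h hρr hrR
  have hκr : 128 * ρ ≤ κ * r := by
    have h1 : 128 / κ * ρ * κ ≤ r * κ := mul_le_mul_of_nonneg_right hρr hκ.le
    have h2 : 128 / κ * ρ * κ = 128 * ρ := by field_simp
    linarith
  have hr : 0 < r := by
    have : 0 < 128 / κ * ρ := by positivity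
    linarith
  have hκr0 : 0 < κ * r := by positivity
  have hκr1 : κ * r ≤ r := mul_le_of_le_one_left hr.le hκ1
  have hρr' : ρ ≤ r := by linarith
  have hsub : closedBall x r ⊆ closedBall x R := closedBall_subset_closedBall hrR
  have hsub' : closedBall x ρ ⊆ closedBall x R :=
    closedBall_subset_closedBall (hρr'.trans hrR)
  obtain ⟨F, hFd⟩ : ∃ F : V → ℝ, F = fun y => ((κ * r / 8) ^ 2 *
    stp ((ww κ ρ g x y + κ * r / 8) / (3 * (κ * r / 16)))) * (1 - PS κ ρ g x r y) := ⟨_, rfl⟩
  have hS := st_c1 (ww_c1 (κ := κ) (x := x) hρ h.gs) (κ * r / 8) (3 * (κ * r / 16))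
  have hP := PS_c1 (κ := κ) (x := x) hρ h.gs r
  have hF : ContDiff ℝ 1 F := by
    rw [hFd]
    exact (contDiff_const.mul hS).mul (contDiff_const.sub hP)
  have hsup : ∀ y, F y ≠ 0 → ‖y - x‖ ≤ r := by
    intro y hy
    rw [hFd] at hy
    have h1 := right_ne_zero_of_mul (left_ne_zero_of_mul hy)
    have h2 : PS κ ρ g x r y ≠ 1 := fun h0 => right_ne_zero_of_mul hy (by
      show 1 - PS κ ρ g x r y = 0
      rw [h0, sub_self])
    unfold PS at h2
    have h3 := ds_lt hκ (by linarith [sPS_lt (by positivity) h2]) (sTT_mem (by positivity) h1)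
    exact (norm_le_ds x ρ y).trans (by linarith)
  have hFfd : ∀ y, fderiv ℝ F y (W y) = (κ * r / 8) ^ 2 *
      stp ((ww κ ρ g x y + κ * r / 8) / (3 * (κ * r / 16))) *
        (-(stp' ((uu κ ρ g x y - κ * r / 64) / (κ * r / 64)) / (κ * r / 64) *
          fderiv ℝ (uu κ ρ g x) y (W y)))
      + (1 - PS κ ρ g x r y) * ((κ * r / 8) ^ 2 *
        (stp' ((ww κ ρ g x y + κ * r / 8) / (3 * (κ * r / 16))) / (3 * (κ * r / 16)) *
          fderiv ℝ (ww κ ρ g x) y (W y))) := by
    intro y
    rw [hFd, mul_fd (contDiff_const.mul hS) (contDiff_const.sub hP), sub_fd contDiff_const hP,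
      PS_fd hρ h.gs, mul_fd contDiff_const hS, st_fd (ww_c1 hρ h.gs)]
    simp
  have hA : 0 ≤ (κ * r / 8) ^ 2 := sq_nonneg _
  have hi : IntegrableOn (fun y => (κ * r / 8) ^ 2 * pr κ ρ g x W m r y) (closedBall x R) :=
    cint (continuous_const.mul (h.pr_cont hρ r)) x R
  have hmain := mas h.wd (P := (closedBall x ρ).indicator (fun y => 2 * κ * ρ * f y))
    (Q := fun y => (κ * r / 8) ^ 2 * pr κ ρ g x W m r y + (closedBall x r).indicator
      (fun y => κ * r / 4 * m y) y) hF hrR hsup
    (indc_int h.fc _ x R isClosed_closedBall.measurableSet)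
    (hi.add (indc_int h.mc _ x R isClosed_closedBall.measurableSet)) ?_
  · rw [add_ind _ hi h.mc isClosed_closedBall.measurableSet hsub, ind_ball hsub',
      integral_const_mul, integral_const_mul] at hmain
    exact hmain
  · intro y hy
    rw [hFfd]
    have hp0 : 0 ≤ PS κ ρ g x r y := stp_nonneg _
    have hp1 : PS κ ρ g x r y ≤ 1 := stp_le_one _
    have hL0 : 0 ≤ κ / 4 * f y := mul_nonneg (by positivity) (h.f0 hy)
    have hτ0 : 0 ≤ stp' ((ww κ ρ g x y + κ * r / 8) / (3 * (κ * r / 16))) / (3 * (κ * r / 16)) :=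
      div_nonneg (stp'_nonneg _) (by positivity)
    by_cases hy' : y ∈ closedBall x r
    · rw [indicator_of_mem hy']
      have hST : stp ((ww κ ρ g x y + κ * r / 8) / (3 * (κ * r / 16))) ≤ TT κ ρ g x r y := by
        unfold TT
        by_cases h0 : stp ((ww κ ρ g x y + κ * r / 8) / (3 * (κ * r / 16))) = 0
        · rw [h0]
          exact stp_nonneg _
        · have h1 := sTT_mem (by positivity) h0
          refine stp_mono (div_le_div_of_nonneg_left (by linarith) (by positivity) (by linarith))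
      have hB : (κ * r / 8) ^ 2 * (stp' ((ww κ ρ g x y + κ * r / 8) / (3 * (κ * r / 16))) /
          (3 * (κ * r / 16))) ≤ κ * r / 4 := by
        rw [← mul_div_assoc, div_le_iff₀ (by positivity)]
        have h1 := stp'_le ((ww κ ρ g x y + κ * r / 8) / (3 * (κ * r / 16)))
        have h2 := mul_le_mul_of_nonneg_left h1 hA
        nlinarith [sq_nonneg (κ * r)]
      refine le_trans ?_ (lb_alg hA hST (stp_nonneg _) (div_nonneg (stp'_nonneg _) (by positivity))
        (h.u_nn hκ hρ hy) (h.w_lo hκ hρ hy) (h.m0 y) hp1 hp0 hτ0 hB)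
      by_cases hyρ : y ∈ closedBall x ρ
      · rw [indicator_of_mem hyρ]
        rw [mem_closedBall, dist_eq_norm] at hyρ
        have hg := abs_le.1 ((h.lip y x).trans (ln_le_norm hyρ))
        have hd1 := ds_le_two x y hyρ
        have hd2 := le_ds x (ρ := ρ) y
        have hκd1 : κ * ds x ρ y ≤ ds x ρ y := mul_le_of_le_one_left (ds_nonneg _ _ _) hκ1
        have hκd0 : 0 ≤ κ * ds x ρ y := mul_nonneg hκ.le (ds_nonneg _ _ _)
        have hp : PS κ ρ g x r y = 0 := by
          unfold PS
          refine stp_zero (div_nonpos_of_nonpos_of_nonneg ?_ (by positivity))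
          unfold uu
          linarith [hg.2]
        rw [hp, sub_zero, one_mul]
        have hw1 : -(13 / 4 * ρ) ≤ ww κ ρ g x y := by
          unfold ww
          linarith [hg.1]
        have hw2 : ww κ ρ g x y ≤ 7 / 4 * ρ := by
          unfold ww
          linarith [hg.2]
        have hσ1 : 1 / 2 ≤ (ww κ ρ g x y + κ * r / 8) / (3 * (κ * r / 16)) := by
          rw [le_div_iff₀ (by positivity)]
          linarith
        have hσ2 : (ww κ ρ g x y + κ * r / 8) / (3 * (κ * r / 16)) ≤ 4 / 5 := by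
          rw [div_le_iff₀ (by positivity)]
          linarith
        obtain ⟨σ, hσ⟩ : ∃ σ, σ = (ww κ ρ g x y + κ * r / 8) / (3 * (κ * r / 16)) := ⟨_, rfl⟩
        rw [← hσ] at hσ1 hσ2 ⊢
        rw [stp'_eq (by linarith) (by linarith)]
        have e1 : (κ * r / 8) ^ 2 * (6 * σ * (1 - σ) / (3 * (κ * r / 16)))
            = κ * r / 2 * (σ * (1 - σ)) := by
          field_simp
          ring
        rw [e1]
        have h3 : 1 / 8 ≤ σ * (1 - σ) := by nlinarith
        have h4 : 8 * ρ ≤ κ * r / 2 * (σ * (1 - σ)) := by nlinarith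
        have h5 := mul_le_mul_of_nonneg_right h4 hL0
        linarith
      · rw [indicator_of_notMem hyρ]
        exact mul_nonneg (sub_nonneg.2 hp1) (mul_nonneg (mul_nonneg hA hτ0) hL0)
    · have hyρ : y ∉ closedBall x ρ := fun h0 => hy' (closedBall_subset_closedBall hρr' h0)
      rw [indicator_of_notMem hy', indicator_of_notMem hyρ, pr_ball hκ hr hy']
      have hout : ∀ {u' : Prop}, (uu κ ρ g x y < κ * r / 32) → (-(κ * r / 8) < ww κ ρ g x y) →
          u' := by
        intro u' h1 h2
        have h3 := ds_lt hκ h1 h2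
        have h4 := norm_le_ds x ρ y
        rw [mem_closedBall, dist_eq_norm] at hy'
        exact absurd (by linarith) hy'
      have e1 : (κ * r / 8) ^ 2 * stp ((ww κ ρ g x y + κ * r / 8) / (3 * (κ * r / 16))) *
          (-(stp' ((uu κ ρ g x y - κ * r / 64) / (κ * r / 64)) / (κ * r / 64) *
            fderiv ℝ (uu κ ρ g x) y (W y))) = 0 := by
        by_cases hT0 : stp ((ww κ ρ g x y + κ * r / 8) / (3 * (κ * r / 16))) = 0
        · rw [hT0]
          ring
        · have h1 := sTT_mem (by positivity) hT0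
          have h2 : stp' ((uu κ ρ g x y - κ * r / 64) / (κ * r / 64)) = 0 := by
            by_contra hc
            have h3 := (sps_mem (by positivity) hc).2
            exact hout (by linarith) h1
          rw [h2]
          ring
      have e2 : (1 - PS κ ρ g x r y) * ((κ * r / 8) ^ 2 *
          (stp' ((ww κ ρ g x y + κ * r / 8) / (3 * (κ * r / 16))) / (3 * (κ * r / 16)) *
            fderiv ℝ (ww κ ρ g x) y (W y))) = 0 := by
        by_cases hP0 : PS κ ρ g x r y = 1
        · rw [hP0]
          ring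
        · unfold PS at hP0
          have h1 := sPS_lt (by positivity) hP0
          have h2 : stp' ((ww κ ρ g x y + κ * r / 8) / (3 * (κ * r / 16))) = 0 := by
            by_contra hc
            exact hout (by linarith) (sTT'_mem (by positivity) hc)
          rw [h2]
          ring
      rw [e1, e2]
      norm_num

end Pool.Agent.Q85.VL
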